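import Pool.Agent.H485.LD.Stm

/-!
# AE (helper271)
-/

set_option autoImplicit false

namespace Pool.Agent.H485.LD

open Real Finset Filter

/-- the local factor of the divisor bound -/
theorem ae_local {η : ℝ} (hη : 0 < η) :
    ∃ (K : ℝ) (P : ℕ), 1 ≤ K ∧ ∀ p a : ℕ, 2 ≤ p →
      ((a : ℝ) + 1) ≤ (if p < P then K else 1) * ((p : ℝ) ^ a) ^ η := by
  obtain ⟨K0, hK0⟩ : ∃ K0 : ℝ, ∀ a : ℕ, ((a : ℝ) + 1) ≤ K0 * ((2 : ℝ) ^ a) ^ η := by
    refine ⟨1 / (η * log 2) + 1, fun a => ?_⟩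
    have h2 : (0 : ℝ) < η * log 2 := mul_pos hη (log_pos (by norm_num))
    have e1 : ((2 : ℝ) ^ a) ^ η = exp (a * (η * log 2)) := by
      rw [← Real.rpow_natCast, ← Real.rpow_mul (by norm_num), Real.rpow_def_of_pos (by norm_num)]
      congr 1
      ring
    have h3 := Real.add_one_le_exp ((a : ℝ) * (η * log 2))
    have h4 : (1 : ℝ) ≤ exp (a * (η * log 2)) := Real.one_le_exp (by positivity)
    rw [e1, add_mul, one_mul]
    have h5 : (a : ℝ) ≤ 1 / (η * log 2) * exp (a * (η * log 2)) := by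
      rw [div_mul_eq_mul_div, le_div_iff₀ h2]
      linarith
    linarith
  refine ⟨max K0 1, ⌈(2 : ℝ) ^ (1 / η)⌉₊, le_max_right _ _, fun p a hp => ?_⟩
  have hp0 : (0 : ℝ) ≤ (p : ℝ) ^ a := by positivity
  split_ifs with h
  · have h1 : ((2 : ℝ) ^ a) ^ η ≤ ((p : ℝ) ^ a) ^ η := by
      refine Real.rpow_le_rpow (by positivity) ?_ hη.le
      exact pow_le_pow_left₀ (by norm_num) (by exact_mod_cast hp) a
    calc ((a : ℝ) + 1) ≤ K0 * ((2 : ℝ) ^ a) ^ η := hK0 a
      _ ≤ max K0 1 * ((2 : ℝ) ^ a) ^ η := mul_le_mul_of_nonneg_right (le_max_left _ _) (by positivity)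
      _ ≤ max K0 1 * ((p : ℝ) ^ a) ^ η := mul_le_mul_of_nonneg_left h1 (by positivity)
  · rw [one_mul]
    push Not at h
    have h1 : (2 : ℝ) ^ (1 / η) ≤ p := (Nat.le_ceil _).trans (by exact_mod_cast h)
    have h2 : (2 : ℝ) ≤ (p : ℝ) ^ η := by
      have := Real.rpow_le_rpow (by positivity) h1 hη.le
      rwa [← Real.rpow_mul (by norm_num), one_div, inv_mul_cancel₀ hη.ne', Real.rpow_one] at this
    have h3 : ((p : ℝ) ^ a) ^ η = ((p : ℝ) ^ η) ^ a := by
      rw [← Real.rpow_natCast, ← Real.rpow_natCast, ← Real.rpow_mul (by positivity),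
        ← Real.rpow_mul (by positivity), mul_comm]
    rw [h3]
    have h4 : ((a : ℝ) + 1) ≤ 2 ^ a := by
      have : a + 1 ≤ 2 ^ a := Nat.lt_two_pow_self
      exact_mod_cast this
    exact h4.trans (pow_le_pow_left₀ (by norm_num) h2 a)

/-- the divisor bound -/
theorem ae_tau {η : ℝ} (hη : 0 < η) :
    ∃ C : ℝ, 1 ≤ C ∧ ∀ n : ℕ, 1 ≤ n → (n.divisors.card : ℝ) ≤ C * (n : ℝ) ^ η := by
  obtain ⟨K, P, hK, h⟩ := ae_local hη
  refine ⟨K ^ P, one_le_pow₀ hK, fun n hn => ?_⟩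
  have hn0 : n ≠ 0 := by omega
  rw [Nat.card_divisors hn0]
  push_cast
  have e1 : (n : ℝ) ^ η = ∏ p ∈ n.primeFactors, ((p : ℝ) ^ (n.factorization p)) ^ η := by
    rw [Real.finsetProd_rpow _ _ (fun p _ => by positivity)]
    congr 1
    conv_lhs => rw [← Nat.prod_factorization_pow_eq_self hn0]
    rw [Finsupp.prod, Nat.support_factorization]
    push_cast
    rfl
  have e2 : ∏ p ∈ n.primeFactors, (if p < P then K else 1) ≤ K ^ P := by
    rw [Finset.prod_ite, Finset.prod_const, Finset.prod_const_one, mul_one]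
    refine pow_le_pow_right₀ hK ?_
    calc (n.primeFactors.filter fun p => p < P).card ≤ (Finset.range P).card := by
          refine Finset.card_le_card fun p hp => ?_
          rw [mem_filter] at hp
          exact mem_range.2 hp.2
      _ = P := card_range P
  calc ∏ p ∈ n.primeFactors, (((n.factorization p : ℕ) : ℝ) + 1)
      ≤ ∏ p ∈ n.primeFactors, ((if p < P then K else 1) * ((p : ℝ) ^ (n.factorization p)) ^ η) := by
        refine Finset.prod_le_prod (fun p _ => by positivity) fun p hp => ?_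
        exact h p _ (Nat.prime_of_mem_primeFactors hp).two_le
    _ = (∏ p ∈ n.primeFactors, (if p < P then K else 1)) * (n : ℝ) ^ η := by
        rw [Finset.prod_mul_distrib, e1]
    _ ≤ K ^ P * (n : ℝ) ^ η := mul_le_mul_of_nonneg_right e2 (by positivity)

/-- the harmonic sum -/
theorem ae_harm (Y : ℕ) : ∑ e ∈ Icc 1 Y, (1 : ℝ) / e ≤ 1 + log Y := by
  have h := harmonic_le_one_add_log Y
  rw [harmonic_eq_sum_Icc] at h
  push_cast at h
  simpa only [one_div] using h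

/-- the asymptotic facts -/
theorem ae_asym (C : ℝ) (k : ℕ) : ∃ N0 : ℕ, ∀ N : ℕ, N0 ≤ N →
    1 ≤ log N ∧ log N ^ (20 * k) ≤ exp (log N / 4) ∧
      2 * C * (1 + 5 * l2 N) ^ (2 * k + 1) * exp (l2 N / 2) ≤ exp (4 * l2 N) := by
  have hL : Tendsto (fun N : ℕ => log (N : ℝ)) atTop atTop :=
    tendsto_log_atTop.comp tendsto_natCast_atTop_atTop
  have hl : Tendsto (fun N : ℕ => l2 N) atTop atTop := tendsto_log_atTop.comp hL
  have h1 : ∀ᶠ N : ℕ in atTop, 1 ≤ log (N : ℝ) := hL.eventually_ge_atTop 1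
  have h2 : ∀ᶠ N : ℕ in atTop, log (N : ℝ) ^ (20 * k) ≤ exp (log N / 4) := by
    have h3 : ∀ᶠ x : ℝ in atTop, x ^ (20 * k) ≤ exp (x / 4) := by
      have := (isLittleO_pow_exp_pos_mul_atTop (20 * k) (b := 1 / 4) (by norm_num)).bound
        (show (0 : ℝ) < 1 by norm_num)
      filter_upwards [this, eventually_ge_atTop 0] with x hx hx0
      rw [norm_of_nonneg (by positivity), norm_of_nonneg (by positivity), one_mul] at hx
      refine hx.trans (le_of_eq ?_)
      congr 1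
      ring
    exact hL.eventually h3
  have h4 : ∀ᶠ N : ℕ in atTop,
      2 * C * (1 + 5 * l2 N) ^ (2 * k + 1) * exp (l2 N / 2) ≤ exp (4 * l2 N) := by
    have h5 : ∀ᶠ y : ℝ in atTop, y ^ (2 * k + 1) ≤ exp (1 / 5 * y) := by
      have := (isLittleO_pow_exp_pos_mul_atTop (2 * k + 1) (b := 1 / 5) (by norm_num)).bound
        (show (0 : ℝ) < 1 by norm_num)
      filter_upwards [this, eventually_ge_atTop 0] with x hx hx0
      rwa [norm_of_nonneg (by positivity), norm_of_nonneg (by positivity), one_mul] at hx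
    have h6 : Tendsto (fun N : ℕ => 1 + 5 * l2 N) atTop atTop :=
      tendsto_atTop_add_const_left _ _ (hl.const_mul_atTop (by norm_num))
    have h7 : ∀ᶠ N : ℕ in atTop, 2 * |C| * exp (1 / 5) ≤ exp (5 / 2 * l2 N) := by
      have h8 : Tendsto (fun N : ℕ => exp (5 / 2 * l2 N)) atTop atTop :=
        tendsto_exp_atTop.comp (hl.const_mul_atTop (by norm_num))
      exact h8.eventually_ge_atTop _
    filter_upwards [h6.eventually h5, h7, hl.eventually_ge_atTop 0] with N h9 h10 h11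
    have h12 : 2 * C * (1 + 5 * l2 N) ^ (2 * k + 1) * exp (l2 N / 2) ≤
        2 * |C| * exp (1 / 5 * (1 + 5 * l2 N)) * exp (l2 N / 2) := by
      refine mul_le_mul_of_nonneg_right ?_ (exp_pos _).le
      refine mul_le_mul (mul_le_mul_of_nonneg_left (le_abs_self C) (by norm_num)) h9 ?_ (by positivity)
      have : 0 ≤ 1 + 5 * l2 N := by linarith
      positivity
    refine h12.trans ?_
    have h13 : 2 * |C| * exp (1 / 5 * (1 + 5 * l2 N)) * exp (l2 N / 2) =
        (2 * |C| * exp (1 / 5)) * exp (3 / 2 * l2 N) := by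
      have e1 : 1 / 5 * (1 + 5 * l2 N) = 1 / 5 + l2 N := by ring
      have e2 : 3 / 2 * l2 N = l2 N + l2 N / 2 := by ring
      rw [e1, e2, exp_add, exp_add (l2 N)]
      ring
    rw [h13]
    have e3 : exp (4 * l2 N) = exp (5 / 2 * l2 N) * exp (3 / 2 * l2 N) := by
      rw [← exp_add]
      congr 1
      ring
    rw [e3]
    exact mul_le_mul_of_nonneg_right h10 (exp_pos _).le
  obtain ⟨N0, h⟩ := eventually_atTop.1 (h1.and (h2.and h4))
  exact ⟨N0, h⟩

/-- power mean inequality -/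
theorem ae_mean (Y n : ℕ) (hY : 1 ≤ Y) (f : ℕ → ℝ) (hf : ∀ e, 0 ≤ f e) :
    (∑ e ∈ Icc 1 Y, f e / e) ^ n ≤ (∑ e ∈ Icc 1 Y, (1 : ℝ) / e) ^ n * ∑ e ∈ Icc 1 Y, f e ^ n / e := by
  set H : ℝ := ∑ e ∈ Icc 1 Y, (1 : ℝ) / e with hH
  have hH1 : 1 ≤ H := by
    have : (1 : ℝ) / ((1 : ℕ) : ℝ) ≤ H :=
      single_le_sum (f := fun e : ℕ => (1 : ℝ) / e) (fun e _ => by positivity) (mem_Icc.2 ⟨le_rfl, hY⟩)
    simpa using this
  have hH0 : 0 < H := by linarith
  have h := Real.pow_arith_mean_le_arith_mean_pow (Icc 1 Y) (fun e : ℕ => 1 / e / H) f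
    (fun e _ => by positivity) (by rw [← sum_div, ← hH, div_self hH0.ne']) (fun e _ => hf e) n
  have e1 : ∑ e ∈ Icc 1 Y, 1 / (e : ℝ) / H * f e = (∑ e ∈ Icc 1 Y, f e / e) / H := by
    rw [sum_div]
    refine sum_congr rfl fun e _ => ?_
    ring
  have e2 : ∑ e ∈ Icc 1 Y, 1 / (e : ℝ) / H * f e ^ n = (∑ e ∈ Icc 1 Y, f e ^ n / e) / H := by
    rw [sum_div]
    refine sum_congr rfl fun e _ => ?_
    ring
  rw [e1, e2, div_pow, div_le_iff₀ (by positivity)] at h
  refine h.trans ?_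
  have h0 : 0 ≤ ∑ e ∈ Icc 1 Y, f e ^ n / e := sum_nonneg fun e _ => by
    have := hf e
    positivity
  rw [mul_comm]
  refine mul_le_mul_of_nonneg_left ?_ (by positivity)
  exact div_le_self h0 hH1

theorem ae : S_AE := by
  intro ε hε
  obtain ⟨k, hk⟩ := exists_nat_ge (3 / ε)
  have hk6 : 6 ≤ 2 * (k : ℝ) * ε := by
    rw [div_le_iff₀ hε] at hk
    linarith
  have hk1 : 1 ≤ k := by
    rcases Nat.eq_zero_or_pos k with h | h
    · rw [h] at hk6
      norm_num at hk6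
    · exact h
  have hkR : (0 : ℝ) < k := by exact_mod_cast hk1
  obtain ⟨C0, hC0, hτ⟩ := ae_tau (η := 1 / (40 * k)) (by positivity)
  obtain ⟨N0, hN0⟩ := ae_asym (C0 ^ (2 * k)) k
  refine ⟨max N0 1, fun N hN hNp ι B w lam hF => ?_⟩
  obtain ⟨hL1, hL2, hL3⟩ := hN0 N ((le_max_left _ _).trans hN)
  have hN1 : (0 : ℝ) < N := by exact_mod_cast hNp.pos
  have hL0 : 0 < log (N : ℝ) := by linarith
  have hl0 : 0 ≤ l2 N := log_nonneg hL1
  have hexp : exp (l2 N) = log N := exp_log hL0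
  set Y := YN N with hY
  have hY1 : 1 ≤ Y := by
    rw [hY, YN, Nat.one_le_floor_iff]
    exact one_le_pow₀ hL1
  have hYle : (Y : ℝ) ≤ log N ^ 5 := Nat.floor_le (by positivity)
  have hH : ∑ e ∈ Icc 1 Y, (1 : ℝ) / e ≤ 1 + 5 * l2 N := by
    refine (ae_harm Y).trans ?_
    have : log (Y : ℝ) ≤ log (log N ^ 5) :=
      log_le_log (by exact_mod_cast hY1) hYle
    rw [log_pow] at this
    push_cast at this
    unfold l2
    linarith
  have hH0 : 0 ≤ ∑ e ∈ Icc 1 Y, (1 : ℝ) / e := sum_nonneg fun e _ => by positivity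
  -- the bound of one moment
  have hmom : ∀ e ∈ Icc 1 Y, ∑ i ∈ B, w i * |lam i (e ^ 2)| ^ (2 * k) ≤
      2 * C0 ^ (2 * k) * exp (l2 N / 2) := by
    intro e he
    rw [mem_Icc] at he
    have he1 : (1 : ℝ) ≤ e := by exact_mod_cast he.1
    have heL : (e : ℝ) ≤ log N ^ 5 := le_trans (by exact_mod_cast he.2) hYle
    have h1 := hF.mom k (e ^ 2) (Nat.one_le_pow _ _ he.1) (by
      have h2 : (N : ℝ) ^ (1 / 4 : ℝ) = exp (log N / 4) := by
        rw [Real.rpow_def_of_pos hN1]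
        congr 1
        ring
      rw [h2]
      refine le_trans ?_ hL2
      push_cast
      rw [← pow_mul]
      calc (e : ℝ) ^ (2 * (2 * k)) ≤ (log N ^ 5) ^ (2 * (2 * k)) :=
            pow_le_pow_left₀ (by positivity) heL _
        _ = log N ^ (20 * k) := by
            rw [← pow_mul]
            congr 1
            ring)
    have h3 : ∀ i, |lam i (e ^ 2)| ^ (2 * k) = lam i (e ^ 2) ^ (2 * k) := fun i => by
      rw [pow_mul, pow_mul, sq_abs]
    simp only [h3]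
    refine h1.trans ?_
    have h4 := hτ (e ^ 2) (Nat.one_le_pow _ _ he.1)
    have h5 : (((e ^ 2).divisors.card : ℝ)) ^ (2 * k) ≤
        (C0 * ((e ^ 2 : ℕ) : ℝ) ^ (1 / (40 * (k : ℝ)))) ^ (2 * k) :=
      pow_le_pow_left₀ (Nat.cast_nonneg _) h4 _
    have h6 : (((e ^ 2 : ℕ) : ℝ) ^ (1 / (40 * (k : ℝ)))) ^ (2 * k) ≤ exp (l2 N / 2) := by
      rw [← Real.rpow_natCast, ← Real.rpow_mul (by positivity)]
      have h7 : ((e ^ 2 : ℕ) : ℝ) ≤ log N ^ 10 := by
        push_cast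
        calc (e : ℝ) ^ 2 ≤ (log N ^ 5) ^ 2 := pow_le_pow_left₀ (by positivity) heL _
          _ = log N ^ 10 := by rw [← pow_mul]
      have h8 : (1 / (40 * (k : ℝ)) * ((2 * k : ℕ) : ℝ)) = 1 / 20 := by
        push_cast
        field_simp
        norm_num
      rw [h8]
      refine (Real.rpow_le_rpow (by positivity) h7 (by norm_num)).trans (le_of_eq ?_)
      rw [← hexp, ← Real.exp_nat_mul, ← Real.exp_mul]
      congr 1
      push_cast
      ring
    rw [mul_pow] at h5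
    calc 2 * (((e ^ 2).divisors.card : ℝ)) ^ (2 * k)
        ≤ 2 * (C0 ^ (2 * k) * (((e ^ 2 : ℕ) : ℝ) ^ (1 / (40 * (k : ℝ)))) ^ (2 * k)) :=
          mul_le_mul_of_nonneg_left h5 (by norm_num)
      _ ≤ 2 * (C0 ^ (2 * k) * exp (l2 N / 2)) := by
          refine mul_le_mul_of_nonneg_left (mul_le_mul_of_nonneg_left h6 (by positivity))
            (by norm_num)
      _ = 2 * C0 ^ (2 * k) * exp (l2 N / 2) := by ring
  -- the mean
  have hV : ∑ i ∈ B, w i * (∑ e ∈ Icc 1 Y, |lam i (e ^ 2)| / e) ^ (2 * k) ≤ exp (4 * l2 N) := by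
    have h1 : ∀ i ∈ B, w i * (∑ e ∈ Icc 1 Y, |lam i (e ^ 2)| / e) ^ (2 * k) ≤
        (∑ e ∈ Icc 1 Y, (1 : ℝ) / e) ^ (2 * k) *
          ∑ e ∈ Icc 1 Y, (1 / (e : ℝ)) * (w i * |lam i (e ^ 2)| ^ (2 * k)) := by
      intro i hi
      have h2 := mul_le_mul_of_nonneg_left
        (ae_mean Y (2 * k) hY1 (fun e => |lam i (e ^ 2)|) fun e => abs_nonneg _) (hF.w0 i hi)
      refine h2.trans (le_of_eq ?_)
      rw [mul_left_comm, mul_sum]
      congr 1
      refine sum_congr rfl fun e _ => ?_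
      ring
    refine (sum_le_sum h1).trans ?_
    rw [← mul_sum, sum_comm]
    have h3 : ∑ e ∈ Icc 1 Y, ∑ i ∈ B, (1 / (e : ℝ)) * (w i * |lam i (e ^ 2)| ^ (2 * k)) ≤
        (∑ e ∈ Icc 1 Y, (1 : ℝ) / e) * (2 * C0 ^ (2 * k) * exp (l2 N / 2)) := by
      rw [sum_mul]
      refine sum_le_sum fun e he => ?_
      rw [← mul_sum]
      exact mul_le_mul_of_nonneg_left (hmom e he) (by positivity)
    have h4 : (∑ e ∈ Icc 1 Y, (1 : ℝ) / e) ^ (2 * k) *
        ((∑ e ∈ Icc 1 Y, (1 : ℝ) / e) * (2 * C0 ^ (2 * k) * exp (l2 N / 2))) ≤ exp (4 * l2 N) := by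
      refine le_trans (le_of_eq ?_) (le_trans (mul_le_mul_of_nonneg_right
        (pow_le_pow_left₀ hH0 hH (2 * k + 1))
        (show 0 ≤ 2 * C0 ^ (2 * k) * exp (l2 N / 2) by positivity))
        (le_trans (le_of_eq ?_) hL3))
      · ring
      · ring
    exact (mul_le_mul_of_nonneg_left h3 (by positivity)).trans h4
  have hfew := few_of_mean (F := fun i => (∑ e ∈ Icc 1 Y, |lam i (e ^ 2)| / e) ^ (2 * k)) hF.w0
    (fun i _ => by positivity) (exp_pos (2 * k * ε * l2 N)) hV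
  refine hfew.mono ?_ ?_
  · rw [← exp_sub]
    refine exp_le_exp.2 ?_
    nlinarith
  · intro i _ hi
    have hi' : (∑ e ∈ Icc 1 Y, |lam i (e ^ 2)| / e) ^ (2 * k) ≤ exp (ε * l2 N) ^ (2 * k) := by
      refine hi.trans (le_of_eq ?_)
      rw [← Real.exp_nat_mul]
      congr 1
      push_cast
      ring
    exact le_of_pow_le_pow_left₀ (by omega) (exp_pos _).le hi'

end Pool.Agent.H485.LD
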