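import Pool.Agent.H485.LD.Stm

/-!
# LD/GE (helper333 for helper485): one sequence, the sum of `g(m)/m`
-/

set_option autoImplicit false

namespace Pool.Agent.H485.LD

open Real Finset Filter

theorem geh_id (N x : ℕ) (lam : ℕ → ℝ)
    (hsq : ∀ n : ℕ, ¬ N ∣ n → lam n ^ 2 = ∑ e ∈ n.divisors, lam (e ^ 2)) :
    ∑ m ∈ Icc 1 x, gN N lam m / m = ∑ e ∈ Icc 1 x, Hh N x e * lam (e ^ 2) := by
  have h1 : ∀ m ∈ Icc 1 x, gN N lam m / m =
      ∑ e ∈ Icc 1 x, if e ∣ m ∧ ¬ N ∣ m then (1 : ℝ) / m * lam (e ^ 2) else 0 := by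
    intro m hm
    rw [mem_Icc] at hm
    by_cases hN : N ∣ m
    · rw [gN, if_pos hN, zero_div]
      symm
      apply sum_eq_zero
      intro e _
      rw [if_neg (fun h => h.2 hN)]
    · rw [gN, if_neg hN, hsq m hN]
      have h2 : m.divisors = (Icc 1 x).filter (fun e => e ∣ m) := by
        ext e
        rw [Nat.mem_divisors, mem_filter, mem_Icc]
        constructor
        · rintro ⟨h3, h4⟩
          exact ⟨⟨Nat.pos_of_dvd_of_pos h3 (by omega), (Nat.le_of_dvd (by omega) h3).trans hm.2⟩,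
            h3⟩
        · rintro ⟨_, h3⟩
          exact ⟨h3, by omega⟩
      rw [h2, sum_filter, sum_div]
      refine sum_congr rfl fun e _ => ?_
      by_cases he : e ∣ m
      · rw [if_pos he, if_pos ⟨he, hN⟩]
        ring
      · rw [if_neg he, if_neg (fun h => he h.1), zero_div]
  rw [sum_congr rfl h1, sum_comm]
  refine sum_congr rfl fun e _ => ?_
  rw [Hh, sum_mul, sum_filter]

theorem geh_nonneg (N x e : ℕ) : 0 ≤ Hh N x e :=
  sum_nonneg fun m _ => by positivity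

theorem geh_le (N x : ℕ) {e : ℕ} (he : 1 ≤ e) : Hh N x e ≤ (1 + log x) / e := by
  have he0 : (0 : ℝ) < e := by exact_mod_cast he
  have hsub : (Icc 1 x).filter (fun m => e ∣ m ∧ ¬ N ∣ m) ⊆ (Icc 1 x).image (fun k => e * k) := by
    intro m hm
    rw [mem_filter, mem_Icc] at hm
    obtain ⟨⟨h1, h2⟩, ⟨k, hk⟩, _⟩ := hm
    rw [mem_image]
    have hk0 : k ≠ 0 := by
      rintro rfl
      omega
    refine ⟨k, mem_Icc.2 ⟨Nat.one_le_iff_ne_zero.2 hk0, ?_⟩, hk.symm⟩
    have : k ≤ e * k := Nat.le_mul_of_pos_left k he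
    omega
  have hinj : ∀ a ∈ Icc 1 x, ∀ b ∈ Icc 1 x, e * a = e * b → a = b := by
    intro a _ b _ hab
    exact Nat.eq_of_mul_eq_mul_left he hab
  have hh : ∑ k ∈ Icc 1 x, ((k : ℝ))⁻¹ ≤ 1 + log x := by
    have h := harmonic_le_one_add_log x
    rw [harmonic_eq_sum_Icc] at h
    push_cast at h
    exact h
  calc Hh N x e ≤ ∑ m ∈ (Icc 1 x).image (fun k => e * k), (1 : ℝ) / m :=
        sum_le_sum_of_subset_of_nonneg hsub fun m _ _ => by positivity
    _ = ∑ k ∈ Icc 1 x, (1 : ℝ) / ((e * k : ℕ) : ℝ) := sum_image hinj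
    _ = (∑ k ∈ Icc 1 x, ((k : ℝ))⁻¹) / e := by
        rw [sum_div]
        refine sum_congr rfl fun k _ => ?_
        push_cast
        rw [one_div, mul_inv, div_eq_mul_inv, mul_comm]
    _ ≤ (1 + log x) / e := div_le_div_of_nonneg_right hh he0.le

theorem geh_part (N x Y : ℕ) (lam : ℕ → ℝ) {A : ℝ}
    (hA : ∑ e ∈ Icc 1 Y, |lam (e ^ 2)| / e ≤ A) :
    |∑ e ∈ Icc 1 Y, Hh N x e * lam (e ^ 2)| ≤ (1 + log x) * A := by
  have hx : 0 ≤ 1 + log x := by
    have := log_natCast_nonneg x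
    linarith
  refine (abs_sum_le_sum_abs _ _).trans ?_
  refine le_trans ?_ (mul_le_mul_of_nonneg_left hA hx)
  rw [mul_sum]
  refine sum_le_sum fun e he => ?_
  rw [mem_Icc] at he
  rw [abs_mul, abs_of_nonneg (geh_nonneg N x e)]
  calc Hh N x e * |lam (e ^ 2)| ≤ (1 + log x) / e * |lam (e ^ 2)| :=
        mul_le_mul_of_nonneg_right (geh_le N x he.1) (abs_nonneg _)
    _ = (1 + log x) * (|lam (e ^ 2)| / e) := by ring

theorem geh_tendsto : Tendsto (fun N : ℕ => l2 N) atTop atTop :=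
  tendsto_log_atTop.comp (tendsto_log_atTop.comp tendsto_natCast_atTop_atTop)

/-- `x ^ 5 ≤ exp x` for `x ≥ 720` -/
theorem geh_pow {x : ℝ} (hx : 720 ≤ x) : x ^ 5 ≤ exp x := by
  have h1 := pow_div_factorial_le_exp x (by linarith) 6
  have h2 : ((Nat.factorial 6 : ℕ) : ℝ) = 720 := by norm_num [Nat.factorial]
  rw [h2] at h1
  refine le_trans ?_ h1
  rw [le_div_iff₀ (by norm_num)]
  have h3 : 0 ≤ x ^ 5 := by positivity
  calc x ^ 5 * 720 ≤ x ^ 5 * x := mul_le_mul_of_nonneg_left hx h3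
    _ = x ^ 6 := by ring

/-- **GE** -/
theorem ge_ok : S_GE := by
  intro ε hε
  obtain ⟨T, hT⟩ : ∃ T : ℝ, T = 40 + 4 / ε + 40 / ε ^ 2 := ⟨_, rfl⟩
  obtain ⟨N0, hN0⟩ := eventually_atTop.1 (geh_tendsto.eventually_ge_atTop T)
  refine ⟨N0, fun N hN _ lam hsq hA hR => ?_⟩
  have hl := hN0 N hN
  obtain ⟨l, hl'⟩ : ∃ l, l = l2 N := ⟨_, rfl⟩
  rw [← hl'] at hl hA ⊢
  have hε2 : 0 < 4 / ε := by positivity
  have hε3 : 0 < 40 / ε ^ 2 := by positivity
  have hl40 : 40 ≤ l := by linarith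
  have hlε : 4 / ε ≤ l := by linarith
  have hlε2 : 40 / ε ^ 2 ≤ l := by linarith
  have hlog0 : 0 ≤ log (N : ℝ) := log_natCast_nonneg N
  have hlogne : log (N : ℝ) ≠ 0 := by
    intro h0
    have : l2 N = 0 := by rw [l2, h0, log_zero]
    linarith
  have hlogpos : 0 < log (N : ℝ) := lt_of_le_of_ne hlog0 (Ne.symm hlogne)
  have hexp : exp l = log N := by rw [hl', l2, exp_log hlogpos]
  have hNpos : 0 < N := by
    rcases Nat.eq_zero_or_pos N with h0 | h0
    · exact absurd (by rw [h0, Nat.cast_zero, log_zero]) hlogne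
    · exact h0
  have hNpos' : (0 : ℝ) < N := by exact_mod_cast hNpos
  have hlogbig : 720 ≤ log (N : ℝ) := by
    have := quadratic_le_exp_of_nonneg (show 0 ≤ l by linarith)
    rw [hexp] at this
    nlinarith
  have hlog10 : 1 + 10 * l ≤ log (N : ℝ) := by
    have := quadratic_le_exp_of_nonneg (show 0 ≤ l by linarith)
    rw [hexp] at this
    nlinarith
  -- consequences for the exponentials
  have hs : 2 ≤ ε / 2 * l := by
    have h1 : ε / 2 * (4 / ε) ≤ ε / 2 * l := mul_le_mul_of_nonneg_left hlε (by positivity)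
    have h2 : ε / 2 * (4 / ε) = 2 := by field_simp; norm_num
    linarith
  have h3exp : 3 ≤ exp (ε / 2 * l) := by
    have := add_one_le_exp (ε / 2 * l)
    linarith
  have h5exp : 1 + 5 * l ≤ exp (ε / 2 * l) := by
    have h1 := quadratic_le_exp_of_nonneg (show 0 ≤ ε / 2 * l by linarith)
    have h2 : 5 * l ≤ (ε / 2 * l) ^ 2 / 2 := by
      have h3 : ε ^ 2 / 8 * (40 / ε ^ 2) ≤ ε ^ 2 / 8 * l :=
        mul_le_mul_of_nonneg_left hlε2 (by positivity)
      have h4 : ε ^ 2 / 8 * (40 / ε ^ 2) = 5 := by field_simp; norm_num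
      have h5 : 5 * l ≤ (ε ^ 2 / 8 * l) * l := mul_le_mul_of_nonneg_right (by linarith) (by linarith)
      calc 5 * l ≤ (ε ^ 2 / 8 * l) * l := h5
        _ = (ε / 2 * l) ^ 2 / 2 := by ring
    linarith
  -- the lengths
  have hceil1 : 1 ≤ ⌈10 * l⌉₊ := Nat.one_le_iff_ne_zero.2 (by
    rw [Ne, Nat.ceil_eq_zero, not_le]
    linarith)
  have hx : xN N = N * ⌈10 * l⌉₊ := by rw [xN, hl']
  have hY : (YN N : ℝ) ≤ log N ^ 5 := by
    rw [YN]
    exact Nat.floor_le (by positivity)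
  have hYx : YN N ≤ xN N := by
    have h1 : (YN N : ℝ) ≤ N := by
      refine hY.trans ((geh_pow hlogbig).trans ?_)
      rw [exp_log hNpos']
    have h2 : YN N ≤ N := by exact_mod_cast h1
    rw [hx]
    exact h2.trans (Nat.le_mul_of_pos_right N hceil1)
  have hlogx : 1 + log (xN N : ℝ) ≤ 2 * log N := by
    have hc : ((⌈10 * l⌉₊ : ℕ) : ℝ) ≤ 10 * l + 1 := (Nat.ceil_lt_add_one (by linarith)).le
    have hc0 : (0 : ℝ) < ((⌈10 * l⌉₊ : ℕ) : ℝ) := by exact_mod_cast hceil1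
    rw [hx, Nat.cast_mul, log_mul hNpos'.ne' hc0.ne']
    have h1 : log ((⌈10 * l⌉₊ : ℕ) : ℝ) ≤ 10 * l := by
      have := log_le_sub_one_of_pos hc0
      linarith
    linarith
  have hlogY : 1 + log (YN N : ℝ) ≤ 1 + 5 * l := by
    rcases Nat.eq_zero_or_pos (YN N) with h0 | h0
    · rw [h0, Nat.cast_zero, log_zero]
      linarith
    · have h1 : log (YN N : ℝ) ≤ log (log (N : ℝ) ^ 5) :=
        log_le_log (by exact_mod_cast h0) hY
      rw [log_pow] at h1
      have h2 : log (log (N : ℝ)) = l := by rw [hl', l2]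
      rw [h2] at h1
      push_cast at h1
      linarith
  have hexp0 : 0 < exp (ε / 2 * l) := exp_pos _
  constructor
  · rw [geh_id N (xN N) lam hsq]
    have hunion : Icc 1 (xN N) = Icc 1 (YN N) ∪ Ioc (YN N) (xN N) := by
      ext a
      simp only [mem_union, mem_Icc, mem_Ioc]
      omega
    have hdisj : Disjoint (Icc 1 (YN N)) (Ioc (YN N) (xN N)) := by
      rw [disjoint_left]
      intro a ha hb
      rw [mem_Icc] at ha
      rw [mem_Ioc] at hb
      omega
    rw [hunion, sum_union hdisj]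
    have hR' : ∑ e ∈ Ioc (YN N) (xN N), Hh N (xN N) e * lam (e ^ 2) =
        ∑ e ∈ (Ioc (YN N) (xN N)).filter (fun e => ¬ N ∣ e), Hh N (xN N) e * lam (e ^ 2) := by
      rw [sum_filter]
      refine sum_congr rfl fun e _ => ?_
      by_cases hNe : N ∣ e
      · rw [if_neg (not_not.2 hNe)]
        have : Hh N (xN N) e = 0 := by
          rw [Hh]
          apply sum_eq_zero
          intro m hm
          rw [mem_filter] at hm
          exact absurd (hNe.trans hm.2.1) hm.2.2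
        rw [this, zero_mul]
      · rw [if_pos hNe]
    rw [hR']
    have h1 := (le_abs_self _).trans (geh_part N (xN N) (YN N) lam hA)
    have h2 := (le_abs_self _).trans hR
    have h3 : (1 + log (xN N : ℝ)) * exp (ε / 2 * l) ≤ 2 * log N * exp (ε / 2 * l) :=
      mul_le_mul_of_nonneg_right hlogx hexp0.le
    have h4 : exp ((1 + ε) * l) = log N * (exp (ε / 2 * l) * exp (ε / 2 * l)) := by
      rw [← hexp, ← exp_add, ← exp_add]
      congr 1
      ring
    have h5 : log N * (3 * exp (ε / 2 * l)) ≤ log N * (exp (ε / 2 * l) * exp (ε / 2 * l)) :=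
      mul_le_mul_of_nonneg_left (mul_le_mul_of_nonneg_right h3exp hexp0.le) hlog0
    have h6 : log (N : ℝ) * 1 ≤ log N * exp (ε / 2 * l) :=
      mul_le_mul_of_nonneg_left (by linarith) hlog0
    rw [h4]
    linarith
  · rw [geh_id N (YN N) lam hsq]
    have h1 := (le_abs_self _).trans (geh_part N (YN N) (YN N) lam hA)
    have h3 : (1 + log (YN N : ℝ)) * exp (ε / 2 * l) ≤ exp (ε / 2 * l) * exp (ε / 2 * l) :=
      mul_le_mul_of_nonneg_right (hlogY.trans h5exp) hexp0.le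
    have h4 : exp (ε * l) = exp (ε / 2 * l) * exp (ε / 2 * l) := by
      rw [← exp_add]
      congr 1
      ring
    rw [h4]
    exact h1.trans h3

end Pool.Agent.H485.LD
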