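import Pool.Agent.H485.LD.Stm

/-! LOG: the elementary inequality. -/

set_option autoImplicit false

namespace Pool.Agent.H485.LD

open Real Finset Filter

/-- one term -/
theorem lgt_term (g : ℕ → ℝ) (hm : ∀ m n : ℕ, Nat.Coprime m n → g (m * n) = g m * g n) (n : ℕ)
    (hn : n ≠ 0) : g n * log n = ∑ p ∈ n.primeFactors,
      g (n / p ^ n.factorization p) * ((n.factorization p : ℝ) * log p * g (p ^ n.factorization p)) := by
  rw [Real.log_nat_eq_sum_factorization, Finsupp.sum, mul_sum, Nat.support_factorization]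
  refine sum_congr rfl fun p hp => ?_
  have hpp := Nat.prime_of_mem_primeFactors hp
  have h1 : g n = g (p ^ n.factorization p) * g (n / p ^ n.factorization p) := by
    rw [← hm _ _ (Nat.Coprime.pow_left _ (Nat.coprime_ordCompl hpp hn)),
      Nat.ordProj_mul_ordCompl_eq_self]
  rw [h1]
  ring

/-- exchange of the sums -/
theorem lgt_sum (g : ℕ → ℝ) (h0 : ∀ n, 0 ≤ g n)
    (hm : ∀ m n : ℕ, Nat.Coprime m n → g (m * n) = g m * g n) (x : ℕ) :
    ∑ n ∈ Icc 1 x, g n * log n ≤ ∑ m ∈ Icc 1 x, g m * Psi g (x / m) := by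
  have e1 : ∑ n ∈ Icc 1 x, g n * log n = ∑ s ∈ (Icc 1 x).sigma (fun n => n.primeFactors),
      g (s.1 / s.2 ^ s.1.factorization s.2) *
        ((s.1.factorization s.2 : ℝ) * log s.2 * g (s.2 ^ s.1.factorization s.2)) := by
    rw [sum_sigma]
    refine sum_congr rfl fun n hn => ?_
    rw [mem_Icc] at hn
    exact lgt_term g hm n (by omega)
  have e2 : ∑ m ∈ Icc 1 x, g m * Psi g (x / m) =
      ∑ t ∈ (Icc 1 x).sigma (fun m => ((Icc 1 (x / m)).filter Nat.Prime).sigma
        (fun p => (Icc 1 (x / m)).filter (fun a => p ^ a ≤ x / m))),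
        g t.1 * ((t.2.2 : ℝ) * log t.2.1 * g (t.2.1 ^ t.2.2)) := by
    rw [sum_sigma]
    refine sum_congr rfl fun m _ => ?_
    rw [sum_sigma]
    unfold Psi
    rw [mul_sum]
    refine sum_congr rfl fun p _ => ?_
    rw [mul_sum]
  rw [e1, e2]
  let i : (Σ _ : ℕ, ℕ) → (Σ _ : ℕ, Σ _ : ℕ, ℕ) := fun s =>
    ⟨s.1 / s.2 ^ s.1.factorization s.2, s.2, s.1.factorization s.2⟩
  have hinj : Set.InjOn i ((Icc 1 x).sigma (fun n => n.primeFactors) : Finset (Σ _ : ℕ, ℕ)) := by
    rintro ⟨n, p⟩ _ ⟨n', p'⟩ _ h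
    have h1 : n / p ^ n.factorization p = n' / p' ^ n'.factorization p' := congrArg (fun t => t.1) h
    have h2 : p = p' := congrArg (fun t => t.2.1) h
    have h3 : n.factorization p = n'.factorization p' := congrArg (fun t => t.2.2) h
    subst h2
    have h4 : n = n' := by
      rw [← Nat.ordProj_mul_ordCompl_eq_self n p, ← Nat.ordProj_mul_ordCompl_eq_self n' p, h1, h3]
    rw [h4]
  have hsub : ((Icc 1 x).sigma (fun n => n.primeFactors)).image i ⊆
      (Icc 1 x).sigma (fun m => ((Icc 1 (x / m)).filter Nat.Prime).sigma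
        (fun p => (Icc 1 (x / m)).filter (fun a => p ^ a ≤ x / m))) := by
    intro t ht
    obtain ⟨⟨n, p⟩, hs, rfl⟩ := mem_image.1 ht
    obtain ⟨hs1, hs2⟩ := mem_sigma.1 hs
    have hn1 : 1 ≤ n := (mem_Icc.1 hs1).1
    have hn2 : n ≤ x := (mem_Icc.1 hs1).2
    have hp : p ∈ n.primeFactors := hs2
    have hpp := Nat.prime_of_mem_primeFactors hp
    have hdvd := Nat.dvd_of_mem_primeFactors hp
    have hn0 : n ≠ 0 := by omega
    have hmul := Nat.ordProj_mul_ordCompl_eq_self n p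
    have hq0 : 0 < p ^ n.factorization p := pow_pos hpp.pos _
    have hm0 : 0 < n / p ^ n.factorization p := Nat.ordCompl_pos p hn0
    have hle : p ^ n.factorization p ≤ x / (n / p ^ n.factorization p) := by
      rw [Nat.le_div_iff_mul_le hm0, hmul]
      exact hn2
    have ha : 1 ≤ n.factorization p := (hpp.dvd_iff_one_le_factorization hn0).1 hdvd
    have hpa : p ≤ p ^ n.factorization p := Nat.le_self_pow (by omega) p
    have haa : n.factorization p ≤ p ^ n.factorization p := (Nat.lt_pow_self hpp.one_lt).le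
    show (⟨n / p ^ n.factorization p, p, n.factorization p⟩ : Σ _ : ℕ, Σ _ : ℕ, ℕ) ∈ _
    rw [mem_sigma, mem_sigma, mem_filter, mem_filter, mem_Icc, mem_Icc, mem_Icc]
    refine ⟨⟨hm0, (Nat.div_le_self _ _).trans hn2⟩, ⟨⟨hpp.one_le, hpa.trans hle⟩, hpp⟩,
      ⟨ha, haa.trans hle⟩, hle⟩
  have e3 : ∑ s ∈ (Icc 1 x).sigma (fun n => n.primeFactors),
      g (s.1 / s.2 ^ s.1.factorization s.2) *
        ((s.1.factorization s.2 : ℝ) * log s.2 * g (s.2 ^ s.1.factorization s.2)) =
      ∑ t ∈ ((Icc 1 x).sigma (fun n => n.primeFactors)).image i,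
        g t.1 * ((t.2.2 : ℝ) * log t.2.1 * g (t.2.1 ^ t.2.2)) := by
    rw [sum_image hinj]
  rw [e3]
  refine sum_le_sum_of_subset_of_nonneg hsub fun t _ _ => ?_
  exact mul_nonneg (h0 _) (mul_nonneg (mul_nonneg (Nat.cast_nonneg _) (Real.log_natCast_nonneg _))
    (h0 _))

/-- **LOG.** -/
theorem log_trick : S_LOG := by
  intro g h0 h1 hm x hx
  have h2 := lgt_sum g h0 hm x
  have h3 : log x * ∑ n ∈ Icc 1 x, g n ≤ ∑ n ∈ Icc 1 x, g n * log n +
      x * ∑ m ∈ Icc 1 x, g m / m := by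
    rw [mul_sum, mul_sum, ← sum_add_distrib]
    refine sum_le_sum fun n hn => ?_
    rw [mem_Icc] at hn
    have hn0 : (0 : ℝ) < n := by exact_mod_cast hn.1
    have hx0 : (0 : ℝ) < x := by exact_mod_cast hx
    have h4 : log x = log n + log (x / n) := by
      rw [Real.log_div hx0.ne' hn0.ne']
      ring
    have h5 : log (x / n) ≤ x / n := by
      have := Real.log_le_sub_one_of_pos (div_pos hx0 hn0)
      linarith
    have h6 : g n * log (x / n) ≤ g n * (x / n) := mul_le_mul_of_nonneg_left h5 (h0 n)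
    have h7 : (x : ℝ) * (g n / n) = g n * (x / n) := by ring
    rw [h4, h7]
    linarith
  linarith

end Pool.Agent.H485.LD
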