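import Pool.Agent.H485.LD.Stm

/-! # Task NLA (helper553) -/

set_option autoImplicit false

namespace Pool.Agent.H485.LD

open Real Finset Filter

lemma nla_blocks (Q : ℕ) (hQ : 1 ≤ Q) (K : ℕ) :
    (Nat.totient Q : ℝ) / Q * ∑ k ∈ Icc 1 K, (1 : ℝ) / k ≤
      ∑ m ∈ (Ico 1 (K * Q + 1)).filter (fun m => Q.Coprime m), (1 : ℝ) / m := by
  have hQ0 : (0 : ℝ) < Q := by exact_mod_cast hQ
  induction K with
  | zero => simp
  | succ K ih =>
    have e1 : Ico 1 ((K + 1) * Q + 1) = Ico 1 (K * Q + 1) ∪ Ico (K * Q + 1) (K * Q + 1 + Q) := by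
      rw [Ico_union_Ico_eq_Ico (by omega) (by omega)]
      congr 1
      ring
    have e2 : Disjoint ((Ico 1 (K * Q + 1)).filter (fun m => Q.Coprime m))
        ((Ico (K * Q + 1) (K * Q + 1 + Q)).filter (fun m => Q.Coprime m)) := by
      apply disjoint_filter_filter
      exact Ico_disjoint_Ico_consecutive _ _ _
    rw [e1, filter_union, sum_union e2, sum_Icc_succ_top (by omega), mul_add]
    refine add_le_add ih ?_
    have e3 : ∀ m ∈ (Ico (K * Q + 1) (K * Q + 1 + Q)).filter (fun m => Q.Coprime m),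
        (1 : ℝ) / ((K + 1) * Q) ≤ 1 / m := by
      intro m hm
      rw [mem_filter, mem_Ico] at hm
      have h1 : 0 < (m : ℝ) := by exact_mod_cast (by omega : 0 < m)
      apply one_div_le_one_div_of_le h1
      have h2 : m ≤ (K + 1) * Q := by
        have : (K + 1) * Q = K * Q + Q := by ring
        omega
      exact_mod_cast h2
    have e4 := card_nsmul_le_sum _ _ _ e3
    rw [Nat.filter_coprime_Ico_eq_totient, nsmul_eq_mul] at e4
    refine le_trans (le_of_eq ?_) e4
    push_cast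
    field_simp

lemma nla_one_sub {t : ℝ} (h0 : 0 ≤ t) (h1 : t ≤ 1 / 2) : exp (-(2 * t)) ≤ 1 - t := by
  have h2 : (0 : ℝ) < 1 - t := by linarith
  rw [← Real.le_log_iff_exp_le h2]
  have h3 := Real.one_sub_inv_le_log_of_pos h2
  refine le_trans ?_ h3
  have h4 : (1 - t)⁻¹ ≤ 1 + 2 * t := by
    rw [inv_le_comm₀ h2 (by linarith), inv_eq_one_div, div_le_iff₀ (by linarith)]
    nlinarith
  linarith

lemma nla_tot (y : ℕ) : exp (-(2 * ∑ p ∈ (Icc 1 y).filter Nat.Prime, 1 / (p : ℝ))) ≤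
    (Nat.totient y.factorial : ℝ) / (y.factorial : ℝ) := by
  have hQ0 : (0 : ℝ) < (y.factorial : ℝ) := by exact_mod_cast y.factorial_pos
  have h1 : (Nat.totient y.factorial : ℝ) =
      y.factorial * ∏ p ∈ y.factorial.primeFactors, (1 - (p : ℝ)⁻¹) := by
    have h := congrArg (fun q : ℚ => (q : ℝ)) (Nat.totient_eq_mul_prod_factors y.factorial)
    push_cast at h
    exact h
  rw [h1, mul_div_cancel_left₀ _ hQ0.ne']
  have h2 : y.factorial.primeFactors ⊆ (Icc 1 y).filter Nat.Prime := by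
    intro p hp
    rw [Nat.mem_primeFactors] at hp
    rw [mem_filter, mem_Icc]
    exact ⟨⟨hp.1.one_lt.le, (hp.1.dvd_factorial).1 hp.2.1⟩, hp.1⟩
  have h3 : ∑ p ∈ y.factorial.primeFactors, 1 / (p : ℝ) ≤
      ∑ p ∈ (Icc 1 y).filter Nat.Prime, 1 / (p : ℝ) :=
    sum_le_sum_of_subset_of_nonneg h2 fun p _ _ => by positivity
  calc exp (-(2 * ∑ p ∈ (Icc 1 y).filter Nat.Prime, 1 / (p : ℝ))) ≤
        exp (-(2 * ∑ p ∈ y.factorial.primeFactors, 1 / (p : ℝ))) := by
        apply exp_le_exp.2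
        linarith
    _ = ∏ p ∈ y.factorial.primeFactors, exp (-(2 * (1 / (p : ℝ)))) := by
        rw [← exp_sum, sum_neg_distrib, mul_sum]
    _ ≤ ∏ p ∈ y.factorial.primeFactors, (1 - (p : ℝ)⁻¹) := by
        refine prod_le_prod (fun p _ => (exp_pos _).le) fun p hp => ?_
        have hp2 : (2 : ℝ) ≤ p := by exact_mod_cast (Nat.prime_of_mem_primeFactors hp).two_le
        rw [← one_div]
        apply nla_one_sub (by positivity)
        exact one_div_le_one_div_of_le (by norm_num) hp2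

/-- the rough numbers -/
def nla_Ro (X Q : ℕ) : Finset ℕ := (Icc 1 X).filter (fun m => Q.Coprime m)

/-- the sum of `1/m` over the rough multiples of `e` -/
noncomputable def nla_H (X Q e : ℕ) : ℝ := ∑ m ∈ (nla_Ro X Q).filter (fun m => e ∣ m), (1 : ℝ) / m

lemma nla_mem {X Q m : ℕ} : m ∈ nla_Ro X Q ↔ (1 ≤ m ∧ m ≤ X) ∧ Q.Coprime m := by
  unfold nla_Ro
  rw [mem_filter, mem_Icc]

lemma nla_H_nonneg (X Q e : ℕ) : 0 ≤ nla_H X Q e := sum_nonneg fun m _ => by positivity

lemma nla_H_one (X Q : ℕ) : nla_H X Q 1 = ∑ m ∈ nla_Ro X Q, (1 : ℝ) / m := by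
  unfold nla_H
  rw [filter_true_of_mem fun m _ => one_dvd m]

lemma nla_H_le (X Q e : ℕ) (he : 1 ≤ e) : nla_H X Q e ≤ nla_H X Q 1 / e := by
  rw [nla_H_one]
  unfold nla_H
  have he0 : (0 : ℝ) < e := by exact_mod_cast he
  have h1 : (nla_Ro X Q).filter (fun m => e ∣ m) ⊆ (nla_Ro X Q).image (fun k => e * k) := by
    intro m hm
    rw [mem_filter, nla_mem] at hm
    obtain ⟨⟨⟨h1, h2⟩, h3⟩, k, rfl⟩ := hm
    rw [mem_image]
    have hk : 1 ≤ k := by
      rcases Nat.eq_zero_or_pos k with h | h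
      · rw [h] at h1
        omega
      · exact h
    refine ⟨k, ?_, rfl⟩
    rw [nla_mem]
    exact ⟨⟨hk, (Nat.le_mul_of_pos_left k he).trans h2⟩, Nat.Coprime.coprime_mul_left_right h3⟩
  refine (sum_le_sum_of_subset_of_nonneg h1 fun m _ _ => by positivity).trans (le_of_eq ?_)
  rw [sum_image fun a _ b _ hab => Nat.eq_of_mul_eq_mul_left he hab, sum_div]
  refine sum_congr rfl fun k _ => ?_
  push_cast
  rw [div_div, mul_comm]

lemma nla_swap (X Q : ℕ) (f : ℕ → ℝ) :
    ∑ m ∈ nla_Ro X Q, (∑ e ∈ m.divisors, f e) / m = ∑ e ∈ nla_Ro X Q, f e * nla_H X Q e := by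
  have h1 : ∀ m ∈ nla_Ro X Q, (∑ e ∈ m.divisors, f e) / m =
      ∑ e ∈ nla_Ro X Q, if e ∣ m then f e * (1 / m) else 0 := by
    intro m hm
    have hm' := hm
    rw [nla_mem] at hm'
    obtain ⟨⟨h1, h2⟩, h3⟩ := hm'
    have h4 : m.divisors = (nla_Ro X Q).filter (fun e => e ∣ m) := by
      ext e
      rw [Nat.mem_divisors, mem_filter, nla_mem]
      constructor
      · rintro ⟨k1, _⟩
        refine ⟨⟨⟨Nat.pos_of_dvd_of_pos k1 h1, (Nat.le_of_dvd h1 k1).trans h2⟩, ?_⟩, k1⟩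
        exact h3.coprime_dvd_right k1
      · rintro ⟨_, k1⟩
        exact ⟨k1, by omega⟩
    rw [h4, sum_filter, sum_div]
    refine sum_congr rfl fun e _ => ?_
    split_ifs
    · ring
    · rw [zero_div]
  rw [sum_congr rfl h1, sum_comm]
  refine sum_congr rfl fun e _ => ?_
  unfold nla_H
  rw [mul_sum, sum_filter]

lemma nla_core {N : ℕ} {ι : Type} {B : Finset ι} {w : ι → ℝ} {lam : ι → ℕ → ℝ}
    (h : Fam N B w lam) (X y : ℕ) (hy : 1 ≤ y) (hX : 1 ≤ X) (hXN : X < N)
    (hX2 : (X : ℝ) ^ 2 ≤ N) :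
    Few B w (4800000 / y) fun i => nla_H X y.factorial 1 / 2 ≤ ∑ m ∈ Icc 1 X, lam i m ^ 2 / m := by
  classical
  obtain ⟨Q, hQ⟩ : ∃ Q, Q = y.factorial := ⟨_, rfl⟩
  rw [← hQ]
  have hone : 1 ∈ nla_Ro X Q := by
    rw [nla_mem]
    exact ⟨⟨le_rfl, hX⟩, Nat.coprime_one_right Q⟩
  have hH1 : 1 ≤ nla_H X Q 1 := by
    rw [nla_H_one]
    refine le_trans (by norm_num) (single_le_sum (f := fun m : ℕ => (1 : ℝ) / m)
      (fun m _ => by positivity) hone)
  have hH0 : 0 < nla_H X Q 1 := by linarith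
  have hbig : ∀ e ∈ (nla_Ro X Q).erase 1, y < e ∧ e ≤ X := by
    intro e he
    rw [mem_erase, nla_mem] at he
    obtain ⟨h1, ⟨h2, h3⟩, h4⟩ := he
    refine ⟨?_, h3⟩
    by_contra hcon
    have h5 : e ∣ Q := by
      rw [hQ]
      exact Nat.dvd_factorial h2 (by omega)
    exact h1 (Nat.Coprime.eq_one_of_dvd h4.symm h5)
  -- the mean square
  have hls := h.ls_sq (M := (X : ℝ)) (by exact_mod_cast hX) ((nla_Ro X Q).erase 1) (by
    intro e he
    have := hbig e he
    exact ⟨by omega, by exact_mod_cast this.2⟩) (fun e => nla_H X Q e)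
  have hN0 : (0 : ℝ) < N := by
    have : 0 < N := by omega
    exact_mod_cast this
  have hy0 : (0 : ℝ) < y := by exact_mod_cast hy
  have hsq : ∑ e ∈ (nla_Ro X Q).erase 1, nla_H X Q e ^ 2 ≤ nla_H X Q 1 ^ 2 * (1 / y) := by
    have k1 : ∀ e ∈ (nla_Ro X Q).erase 1, nla_H X Q e ^ 2 ≤
        nla_H X Q 1 ^ 2 * ((e : ℝ) ^ 2)⁻¹ := by
      intro e he
      have he' := hbig e he
      have h1 := nla_H_le X Q e (by omega)
      have h2 := pow_le_pow_left₀ (nla_H_nonneg X Q e) h1 2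
      rw [div_pow, div_eq_mul_inv] at h2
      exact h2
    refine (sum_le_sum k1).trans ?_
    rw [← mul_sum]
    apply mul_le_mul_of_nonneg_left _ (sq_nonneg _)
    rcases le_total y X with hyX | hyX
    · have k2 : (nla_Ro X Q).erase 1 ⊆ Ioc y X := by
        intro e he
        rw [mem_Ioc]
        exact hbig e he
      refine (sum_le_sum_of_subset_of_nonneg k2 fun e _ _ => by positivity).trans ?_
      refine (sum_Ioc_inv_sq_le_sub (by omega) hyX).trans ?_
      have : (0 : ℝ) ≤ (X : ℝ)⁻¹ := by positivity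
      rw [one_div]
      linarith
    · have k2 : (nla_Ro X Q).erase 1 = ∅ := by
        rw [eq_empty_iff_forall_notMem]
        intro e he
        have := hbig e he
        omega
      rw [k2, sum_empty]
      positivity
  have hV : ∑ i ∈ B, w i * (∑ e ∈ (nla_Ro X Q).erase 1, nla_H X Q e * lam i (e ^ 2)) ^ 2 ≤
      1200000 * nla_H X Q 1 ^ 2 / y := by
    refine hls.trans ?_
    have k1 : (X : ℝ) ^ 2 / N ≤ 1 := by
      rw [div_le_one hN0]
      exact hX2
    have k2 : 300000 * (1 + 3 * (X : ℝ) ^ 2 / N) ≤ 1200000 := by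
      have : 3 * (X : ℝ) ^ 2 / N = 3 * ((X : ℝ) ^ 2 / N) := by ring
      rw [this]
      linarith
    have k3 : 0 ≤ 300000 * (1 + 3 * (X : ℝ) ^ 2 / N) := by positivity
    calc 300000 * (1 + 3 * (X : ℝ) ^ 2 / N) * ∑ e ∈ (nla_Ro X Q).erase 1, nla_H X Q e ^ 2 ≤
          1200000 * (nla_H X Q 1 ^ 2 * (1 / y)) :=
          mul_le_mul k2 hsq (sum_nonneg fun e _ => sq_nonneg _) (by norm_num)
      _ = 1200000 * nla_H X Q 1 ^ 2 / y := by ring
  have hfew := few_of_sq h.w0 (T := nla_H X Q 1 / 2) (by linarith) hV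
  refine hfew.mono ?_ ?_
  · apply le_of_eq
    field_simp
    norm_num
  · intro i hi hR
    have m1 : ∑ m ∈ nla_Ro X Q, lam i m ^ 2 / m ≤ ∑ m ∈ Icc 1 X, lam i m ^ 2 / m :=
      sum_le_sum_of_subset_of_nonneg (filter_subset _ _) fun m _ _ => by positivity
    refine le_trans ?_ m1
    have m2 : ∑ m ∈ nla_Ro X Q, lam i m ^ 2 / m =
        ∑ m ∈ nla_Ro X Q, (∑ e ∈ m.divisors, lam i (e ^ 2)) / m := by
      refine sum_congr rfl fun m hm => ?_
      rw [nla_mem] at hm
      rw [h.sq i hi m]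
      intro hd
      have := Nat.le_of_dvd (by omega) hd
      omega
    rw [m2, nla_swap X Q (fun e => lam i (e ^ 2)), ← add_sum_erase _ _ hone]
    have m3 : lam i (1 ^ 2) * nla_H X Q 1 = nla_H X Q 1 := by
      rw [one_pow, h.one i hi, one_mul]
    rw [m3]
    have m4 : ∑ e ∈ (nla_Ro X Q).erase 1, lam i (e ^ 2) * nla_H X Q e =
        ∑ e ∈ (nla_Ro X Q).erase 1, nla_H X Q e * lam i (e ^ 2) :=
      sum_congr rfl fun e _ => mul_comm _ _
    rw [m4]
    have m5 := (abs_le.1 hR).1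
    linarith

lemma nla_H1 (X Q : ℕ) (hQ : 1 ≤ Q) (hX : 1 ≤ X) :
    (Nat.totient Q : ℝ) / Q * (log X - log Q) ≤ nla_H X Q 1 := by
  have hQ0 : (0 : ℝ) < Q := by exact_mod_cast hQ
  have hX0 : (0 : ℝ) < X := by exact_mod_cast hX
  have h1 := nla_blocks Q hQ (X / Q)
  have h2 : ∑ m ∈ (Ico 1 (X / Q * Q + 1)).filter (fun m => Q.Coprime m), (1 : ℝ) / m ≤
      nla_H X Q 1 := by
    rw [nla_H_one]
    apply sum_le_sum_of_subset_of_nonneg
    · intro m hm
      rw [mem_filter, mem_Ico] at hm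
      rw [nla_mem]
      have := Nat.div_mul_le_self X Q
      exact ⟨⟨hm.1.1, by omega⟩, hm.2⟩
    · intro m _ _
      positivity
  refine le_trans ?_ (h1.trans h2)
  apply mul_le_mul_of_nonneg_left _ (by positivity)
  have h3 : ((harmonic (X / Q) : ℚ) : ℝ) = ∑ k ∈ Icc 1 (X / Q), (1 : ℝ) / k := by
    rw [harmonic_eq_sum_Icc]
    push_cast
    exact sum_congr rfl fun k _ => by rw [one_div]
  rw [← h3]
  refine le_trans ?_ (log_add_one_le_harmonic (X / Q))
  rw [← Real.log_div hX0.ne' hQ0.ne']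
  apply Real.log_le_log (by positivity)
  rw [div_le_iff₀ hQ0]
  have h4 : X < (X / Q + 1) * Q := by
    have := Nat.lt_div_mul_add hQ (a := X)
    have e : (X / Q + 1) * Q = X / Q * Q + Q := by ring
    rw [e]
    exact this
  exact_mod_cast h4.le

lemma nla_ev : ∀ᶠ N : ℕ in atTop, 10000 ≤ log (N : ℝ) ∧
    log (log (N : ℝ)) ≤ 1 / 40 * √(log (N : ℝ)) := by
  have h1 : Tendsto (fun N : ℕ => log (N : ℝ)) atTop atTop :=
    Real.tendsto_log_atTop.comp tendsto_natCast_atTop_atTop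
  have h2 := (isLittleO_log_rpow_atTop (r := 1 / 2) (by norm_num)).bound
    (show (0 : ℝ) < 1 / 40 by norm_num)
  filter_upwards [h1.eventually_ge_atTop 10000, h1.eventually h2] with N h3 h4
  refine ⟨h3, ?_⟩
  rw [← Real.sqrt_eq_rpow] at h4
  rw [Real.norm_eq_abs, Real.norm_eq_abs, abs_of_nonneg (Real.sqrt_nonneg _)] at h4
  exact (le_abs_self _).trans h4

theorem nla : S_NLA := by
  rintro ⟨M, C0, hC0, hM⟩
  have hl2 : 0 < log 2 := Real.log_pos (by norm_num)
  obtain ⟨D, hD⟩ : ∃ D, D = |M| + C0 / log 2 := ⟨_, rfl⟩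
  refine ⟨exp (-(2 * D)) / 40, 9600000, by positivity, by norm_num, ?_⟩
  obtain ⟨N0, hN0⟩ := eventually_atTop.1 nla_ev
  refine ⟨N0, fun N hN hNp ι B w lam h => ?_⟩
  obtain ⟨h1, h2⟩ := hN0 N hN
  obtain ⟨L, hL⟩ : ∃ L, L = log (N : ℝ) := ⟨_, rfl⟩
  have hl : l2 N = log L := by rw [l2, hL]
  rw [← hL] at h1 h2 ⊢
  rw [hl]
  have hNp0 : (0 : ℝ) < N := by exact_mod_cast hNp.pos
  have hNe : (N : ℝ) = exp L := by rw [hL, Real.exp_log hNp0]
  have hL0 : 0 < L := by linarith
  obtain ⟨r, hr⟩ : ∃ r, r = √L := ⟨_, rfl⟩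
  have hrr : r * r = L := by rw [hr]; exact Real.mul_self_sqrt hL0.le
  have hr0 : 0 ≤ r := by rw [hr]; exact Real.sqrt_nonneg _
  have hr100 : 100 ≤ r := by
    rw [hr]
    apply Real.le_sqrt_of_sq_le
    linarith
  rw [← hr] at h2
  obtain ⟨y, hy⟩ : ∃ y, y = ⌊r⌋₊ := ⟨_, rfl⟩
  have hyr : (y : ℝ) ≤ r := by rw [hy]; exact Nat.floor_le hr0
  have hry : r < y + 1 := by rw [hy]; exact Nat.lt_floor_add_one r
  have hy99 : (99 : ℝ) ≤ y := by linarith
  have hyn : 99 ≤ y := by exact_mod_cast hy99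
  have hy0 : (0 : ℝ) < y := by linarith
  obtain ⟨X, hX⟩ : ∃ X, X = ⌊(N : ℝ) ^ (1 / 10 : ℝ)⌋₊ := ⟨_, rfl⟩
  rw [← hX]
  have hpow : (N : ℝ) ^ (1 / 10 : ℝ) = exp (L / 10) := by
    rw [Real.rpow_def_of_pos hNp0, ← hL]
    congr 1
    ring
  rw [hpow] at hX
  have hexp2 : 2 ≤ exp (L / 10) := by
    have := Real.add_one_le_exp (L / 10)
    linarith
  have hXle : (X : ℝ) ≤ exp (L / 10) := by rw [hX]; exact Nat.floor_le (exp_pos _).le
  have hXge : exp (L / 10) < X + 1 := by rw [hX]; exact Nat.lt_floor_add_one _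
  have hX1 : (1 : ℝ) ≤ X := by
    have : (0 : ℝ) < X := by linarith
    have : 0 < X := by exact_mod_cast this
    exact_mod_cast this
  have hXhalf : exp (L / 10) / 2 ≤ X := by linarith
  have hXN : (X : ℝ) < N := by
    refine hXle.trans_lt ?_
    rw [hNe]
    exact exp_lt_exp.2 (by linarith)
  have hX2 : (X : ℝ) ^ 2 ≤ N := by
    calc (X : ℝ) ^ 2 ≤ exp (L / 10) ^ 2 := by gcongr
      _ = exp (L / 5) := by rw [← Real.exp_nat_mul]; congr 1; push_cast; ring
      _ ≤ N := by rw [hNe]; exact exp_le_exp.2 (by linarith)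
  have hcore := nla_core h X y (by omega) (by exact_mod_cast hX1) (by exact_mod_cast hXN) hX2
  refine hcore.mono ?_ ?_
  · have e1 : exp (-(1 / 2) * log L) = 1 / r := by
      have e2 : r = exp (log L / 2) := by rw [Real.exp_half, Real.exp_log hL0, hr]
      rw [e2, eq_div_iff (exp_pos _).ne', ← Real.exp_add,
        show -(1 / 2) * log L + log L / 2 = 0 by ring, Real.exp_zero]
    rw [e1, mul_one_div, div_le_div_iff₀ hy0 (by linarith)]
    nlinarith
  · intro i _ hi
    refine le_trans ?_ hi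
    have hQ1 : 1 ≤ y.factorial := y.factorial_pos
    have k1 := nla_H1 X y.factorial hQ1 (by exact_mod_cast hX1)
    have k2 := nla_tot y
    -- the logarithms
    have hly0 : log 2 ≤ log y := Real.log_le_log (by norm_num) (by linarith)
    have hlyr : log y ≤ log L / 2 := by
      rw [← Real.log_sqrt hL0.le, ← hr]
      exact Real.log_le_log hy0 hyr
    have hlL : 0 < log L := by linarith
    have k3 : log (y.factorial : ℝ) ≤ L / 80 := by
      have e1 : (y.factorial : ℝ) ≤ (y : ℝ) ^ y := by exact_mod_cast Nat.factorial_le_pow y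
      have e2 : log (y.factorial : ℝ) ≤ y * log y := by
        rw [← Real.log_pow]
        exact Real.log_le_log (by exact_mod_cast y.factorial_pos) e1
      refine e2.trans ?_
      calc (y : ℝ) * log y ≤ r * (log L / 2) := mul_le_mul hyr hlyr (by linarith) hr0
        _ ≤ r * (r / 80) := by
            apply mul_le_mul_of_nonneg_left _ hr0
            linarith
        _ = L / 80 := by rw [← hrr]; ring
    have k4 : L / 10 - 1 ≤ log X := by
      have e1 : log (exp (L / 10) / 2) ≤ log X := Real.log_le_log (by positivity) hXhalf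
      rw [Real.log_div (exp_pos _).ne' (by norm_num), Real.log_exp] at e1
      have e2 : log 2 ≤ 1 := by
        have := Real.log_le_sub_one_of_pos (show (0 : ℝ) < 2 by norm_num)
        linarith
      linarith
    have k5 : L / 20 ≤ log X - log (y.factorial : ℝ) := by linarith
    -- Mertens
    have k6 : ∑ p ∈ (Icc 1 y).filter Nat.Prime, 1 / (p : ℝ) ≤ log (log y) + D := by
      have e1 := (abs_le.1 (hM y (by omega))).2
      have e2 : C0 / log y ≤ C0 / log 2 := div_le_div_of_nonneg_left hC0 hl2 hly0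
      have e3 := le_abs_self M
      rw [hD]
      linarith
    have hlly : 0 < log (y : ℝ) := by linarith
    have k7 : exp (-(2 * D)) / log L ^ 2 ≤ (Nat.totient y.factorial : ℝ) / (y.factorial : ℝ) := by
      refine le_trans ?_ k2
      have e1 : exp (-(2 * (log (log y) + D))) ≤
          exp (-(2 * ∑ p ∈ (Icc 1 y).filter Nat.Prime, 1 / (p : ℝ))) :=
        exp_le_exp.2 (by linarith)
      refine le_trans ?_ e1
      have e2 : exp (-(2 * (log (log y) + D))) = exp (-(2 * D)) / log y ^ 2 := by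
        rw [eq_div_iff (by positivity)]
        have e3 : log (y : ℝ) ^ 2 = exp (2 * log (log y)) := by
          rw [← Real.exp_log (show (0 : ℝ) < log y ^ 2 by positivity), Real.log_pow]
          push_cast
          rfl
        rw [e3, ← Real.exp_add]
        congr 1
        ring
      rw [e2]
      apply div_le_div_of_nonneg_left (exp_pos _).le (by positivity)
      apply pow_le_pow_left₀ hlly.le
      linarith
    have k8 : exp (-(2 * D)) / log L ^ 2 * (L / 20) ≤ nla_H X y.factorial 1 := by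
      refine le_trans ?_ k1
      apply mul_le_mul k7 k5 (by positivity)
      exact le_trans (by positivity) k7
    have k9 : exp (-(2 * D)) / 40 * L / log L ^ 2 = exp (-(2 * D)) / log L ^ 2 * (L / 20) / 2 := by
      ring
    rw [k9]
    linarith

end Pool.Agent.H485.LD
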