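import Pool.Agent.H485.LD.Stm

set_option autoImplicit false

/-!
# NLB: the primes between `N^0.40` and `N^0.43`
-/

namespace Pool.Agent.H485.LD

open Real Finset Filter

lemma nlb_floor {a b : ℝ} (ha : 0 < a) (hab : a < b) :
    ∀ᶠ N : ℕ in atTop, (N : ℝ) ^ a ≤ (⌊(N : ℝ) ^ b⌋₊ : ℝ) := by
  have h1 : Tendsto (fun N : ℕ => (N : ℝ) ^ (b - a)) atTop atTop :=
    (tendsto_rpow_atTop (by linarith)).comp tendsto_natCast_atTop_atTop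
  filter_upwards [h1.eventually_ge_atTop 2, eventually_ge_atTop 1] with N hN hN1
  have hN1' : (1 : ℝ) ≤ N := by exact_mod_cast hN1
  have h2 : (N : ℝ) ^ b = (N : ℝ) ^ a * (N : ℝ) ^ (b - a) := by
    rw [← rpow_add (by linarith)]
    congr 1
    ring
  have h3 : 1 ≤ (N : ℝ) ^ a := one_le_rpow hN1' ha.le
  have h4 := Nat.lt_floor_add_one ((N : ℝ) ^ b)
  nlinarith

lemma nlb_log : Tendsto (fun N : ℕ => log (N : ℝ)) atTop atTop :=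
  tendsto_log_atTop.comp tendsto_natCast_atTop_atTop

/-- the primes in the range -/
lemma nlb_set {N : ℕ} (hN : 1 ≤ N) :
    (Icc 1 N).filter (fun p : ℕ => p.Prime ∧ (N : ℝ) ^ (0.40 : ℝ) < p ∧ (p : ℝ) ≤ (N : ℝ) ^ (0.43 : ℝ)) =
      (Icc 1 ⌊(N : ℝ) ^ (0.43 : ℝ)⌋₊).filter Nat.Prime \ (Icc 1 ⌊(N : ℝ) ^ (0.40 : ℝ)⌋₊).filter Nat.Prime := by
  have hN1 : (1 : ℝ) ≤ N := by exact_mod_cast hN
  have h0 : (0 : ℝ) ≤ (N : ℝ) ^ (0.40 : ℝ) := by positivity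
  have h1 : (0 : ℝ) ≤ (N : ℝ) ^ (0.43 : ℝ) := by positivity
  have h2 : (N : ℝ) ^ (0.43 : ℝ) ≤ N := by
    calc (N : ℝ) ^ (0.43 : ℝ) ≤ (N : ℝ) ^ (1 : ℝ) := rpow_le_rpow_of_exponent_le hN1 (by norm_num)
      _ = N := rpow_one _
  ext p
  simp only [Finset.mem_filter, Finset.mem_sdiff, Finset.mem_Icc, Nat.le_floor_iff h0, Nat.le_floor_iff h1]
  constructor
  · rintro ⟨⟨a1, a2⟩, a3, a4, a5⟩
    refine ⟨⟨⟨a1, a5⟩, a3⟩, ?_⟩
    rintro ⟨⟨_, b2⟩, _⟩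
    linarith
  · rintro ⟨⟨⟨a1, a5⟩, a3⟩, hn⟩
    refine ⟨⟨a1, ?_⟩, a3, ?_, a5⟩
    · have : (p : ℝ) ≤ N := a5.trans h2
      exact_mod_cast this
    · by_contra hcon
      exact hn ⟨⟨a1, not_lt.1 hcon⟩, a3⟩

lemma nlb_recip (hM : Mert2) : ∀ᶠ N : ℕ in atTop,
    1 / 25 ≤ ∑ p ∈ (Icc 1 N).filter
      (fun p : ℕ => p.Prime ∧ (N : ℝ) ^ (0.40 : ℝ) < p ∧ (p : ℝ) ≤ (N : ℝ) ^ (0.43 : ℝ)), 1 / (p : ℝ) := by
  obtain ⟨M, C, hC, hM⟩ := hM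
  filter_upwards [nlb_floor (a := 0.39) (b := 0.40) (by norm_num) (by norm_num),
    nlb_floor (a := 0.42) (b := 0.43) (by norm_num) (by norm_num),
    nlb_log.eventually_ge_atTop (1000 * C + 1000), eventually_ge_atTop 1] with N h0 h1 hlog hN
  rw [nlb_set hN]
  have hN1 : (1 : ℝ) ≤ N := by exact_mod_cast hN
  have hN0 : (0 : ℝ) < N := by linarith
  obtain ⟨L, hL⟩ : ∃ L, L = log (N : ℝ) := ⟨_, rfl⟩
  rw [← hL] at hlog
  have hL0 : 0 < L := by linarith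
  obtain ⟨n0, hn0⟩ : ∃ n0, n0 = ⌊(N : ℝ) ^ (0.40 : ℝ)⌋₊ := ⟨_, rfl⟩
  obtain ⟨n1, hn1⟩ : ∃ n1, n1 = ⌊(N : ℝ) ^ (0.43 : ℝ)⌋₊ := ⟨_, rfl⟩
  rw [← hn0] at h0 ⊢
  rw [← hn1] at h1 ⊢
  have h01 : n0 ≤ n1 := by
    rw [hn0, hn1]
    exact Nat.floor_le_floor (rpow_le_rpow_of_exponent_le hN1 (by norm_num))
  have hsub : (Icc 1 n0).filter Nat.Prime ⊆ (Icc 1 n1).filter Nat.Prime :=
    filter_subset_filter _ (Icc_subset_Icc_right h01)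
  rw [sum_sdiff_eq_sub hsub]
  have l0 : 0.39 * L ≤ log n0 := by
    have h := log_le_log (by positivity) h0
    rwa [log_rpow hN0, ← hL] at h
  have l1 : 0.42 * L ≤ log n1 := by
    have h := log_le_log (by positivity) h1
    rwa [log_rpow hN0, ← hL] at h
  have n0pos : (0 : ℝ) < n0 := lt_of_lt_of_le (by positivity) h0
  have l0' : log n0 ≤ 0.40 * L := by
    have h : (n0 : ℝ) ≤ (N : ℝ) ^ (0.40 : ℝ) := by
      rw [hn0]
      exact Nat.floor_le (by positivity)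
    have h' := log_le_log n0pos h
    rwa [log_rpow hN0, ← hL] at h'
  have n0two : 2 ≤ n0 := by
    by_contra hcon
    have h : n0 ≤ 1 := by omega
    have h' : log (n0 : ℝ) ≤ 0 := by
      have h2 : (n0 : ℝ) ≤ 1 := by exact_mod_cast h
      exact log_nonpos n0pos.le h2
    nlinarith
  have m0 := abs_le.1 (hM n0 n0two)
  have m1 := abs_le.1 (hM n1 (n0two.trans h01))
  have p0 : 0 < log (n0 : ℝ) := by nlinarith
  have p1 : 0 < log (n1 : ℝ) := by nlinarith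
  have c0 : C / log n0 ≤ 1 / 390 := by
    rw [div_le_div_iff₀ p0 (by norm_num)]
    nlinarith
  have c1 : C / log n1 ≤ 1 / 390 := by
    rw [div_le_div_iff₀ p1 (by norm_num)]
    nlinarith
  have q : 1 / 21 ≤ log (log n1) - log (log n0) := by
    rw [← log_div p1.ne' p0.ne']
    refine le_trans ?_ (one_sub_inv_le_log_of_pos (div_pos p1 p0))
    rw [inv_div, le_sub_comm, div_le_iff₀ p1]
    nlinarith
  have h3 := m0.2
  have h4 := m1.1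
  have h5 : (1 : ℝ) / 25 ≤ 1 / 21 - 1 / 390 - 1 / 390 := by norm_num
  linarith

lemma nlb_small : ∀ᶠ N : ℕ in atTop, 3000000000 * (N : ℝ) ^ (-(0.37 : ℝ)) ≤ exp (-l2 N) := by
  have h1 := (isLittleO_log_rpow_atTop (r := 0.37) (by norm_num)).bound
    (show (0 : ℝ) < 1 / 3000000000 by norm_num)
  have h2 := tendsto_natCast_atTop_atTop (R := ℝ) |>.eventually h1
  filter_upwards [h2, nlb_log.eventually_ge_atTop 1, eventually_ge_atTop 1] with N hN hlog hN1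
  have hN0 : (0 : ℝ) < N := by exact_mod_cast hN1
  have hlog0 : 0 < log (N : ℝ) := by linarith
  have hp : 0 < (N : ℝ) ^ (0.37 : ℝ) := by positivity
  rw [Real.norm_of_nonneg hlog0.le, Real.norm_of_nonneg hp.le] at hN
  unfold l2
  rw [exp_neg, exp_log hlog0, rpow_neg hN0.le, ← div_eq_mul_inv, div_le_iff₀ hp, inv_mul_eq_div,
    le_div_iff₀ hlog0]
  linarith

theorem nlb : S_NLB := by
  intro hM
  have hev := (nlb_recip hM).and (nlb_small.and (eventually_ge_atTop 2))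
  obtain ⟨N0, hN0⟩ := eventually_atTop.1 hev
  refine ⟨N0, fun N hN hNp ι B w lam hF => ?_⟩
  obtain ⟨hrec, hsm, hN2⟩ := hN0 N hN
  have hN1 : (1 : ℝ) ≤ N := by exact_mod_cast (show 1 ≤ N by omega)
  have hNpos : (0 : ℝ) < N := by linarith
  obtain ⟨s, hs⟩ : ∃ s, s = (Icc 1 N).filter
      (fun p : ℕ => p.Prime ∧ (N : ℝ) ^ (0.40 : ℝ) < p ∧ (p : ℝ) ≤ (N : ℝ) ^ (0.43 : ℝ)) := ⟨_, rfl⟩
  rw [← hs] at hrec ⊢
  have hmem : ∀ p ∈ s, 1 ≤ p ∧ p.Prime ∧ (N : ℝ) ^ (0.40 : ℝ) < p ∧ (p : ℝ) ≤ (N : ℝ) ^ (0.43 : ℝ) := by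
    intro p hp
    rw [hs, mem_filter, mem_Icc] at hp
    exact ⟨hp.1.1, hp.2.1, hp.2.2.1, hp.2.2.2⟩
  have hlt : (N : ℝ) ^ (0.43 : ℝ) < N := by
    calc (N : ℝ) ^ (0.43 : ℝ) < (N : ℝ) ^ (1 : ℝ) :=
          rpow_lt_rpow_of_exponent_lt (by exact_mod_cast (show 1 < N by omega)) (by norm_num)
      _ = N := rpow_one _
  have hM1 : (1 : ℝ) ≤ (N : ℝ) ^ (0.43 : ℝ) := one_le_rpow hN1 (by norm_num)
  -- the mean square
  have hls := hF.ls_sq hM1 s (fun e he => ⟨(hmem e he).1, (hmem e he).2.2.2⟩) (fun e => 1 / (e : ℝ))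
  have hcard : (s.card : ℝ) ≤ (N : ℝ) ^ (0.43 : ℝ) := by
    have h1 : s ⊆ Icc 1 ⌊(N : ℝ) ^ (0.43 : ℝ)⌋₊ := by
      intro p hp
      have h := hmem p hp
      exact mem_Icc.2 ⟨h.1, Nat.le_floor h.2.2.2⟩
    have h2 := card_le_card h1
    rw [Nat.card_Icc] at h2
    calc (s.card : ℝ) ≤ ((⌊(N : ℝ) ^ (0.43 : ℝ)⌋₊ + 1 - 1 : ℕ) : ℝ) := by exact_mod_cast h2
      _ = (⌊(N : ℝ) ^ (0.43 : ℝ)⌋₊ : ℝ) := by rw [Nat.add_sub_cancel]
      _ ≤ (N : ℝ) ^ (0.43 : ℝ) := Nat.floor_le (by positivity)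
  have hsq : ∑ e ∈ s, (1 / (e : ℝ)) ^ 2 ≤ (N : ℝ) ^ (-(0.37 : ℝ)) := by
    have h1 : ∀ e ∈ s, (1 / (e : ℝ)) ^ 2 ≤ (N : ℝ) ^ (-(0.80 : ℝ)) := by
      intro e he
      have h := (hmem e he).2.2.1
      have h40 : 0 < (N : ℝ) ^ (0.40 : ℝ) := by positivity
      have h2 : (N : ℝ) ^ (-(0.80 : ℝ)) = (1 / (N : ℝ) ^ (0.40 : ℝ)) ^ 2 := by
        rw [div_pow, one_pow, ← rpow_natCast, ← rpow_mul hNpos.le, rpow_neg hNpos.le, one_div]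
        norm_num
      rw [h2]
      exact pow_le_pow_left₀ (by positivity) (one_div_le_one_div_of_le h40 h.le) 2
    calc ∑ e ∈ s, (1 / (e : ℝ)) ^ 2 ≤ s.card • (N : ℝ) ^ (-(0.80 : ℝ)) := sum_le_card_nsmul _ _ _ h1
      _ = s.card * (N : ℝ) ^ (-(0.80 : ℝ)) := nsmul_eq_mul _ _
      _ ≤ (N : ℝ) ^ (0.43 : ℝ) * (N : ℝ) ^ (-(0.80 : ℝ)) :=
          mul_le_mul_of_nonneg_right hcard (by positivity)
      _ = (N : ℝ) ^ (-(0.37 : ℝ)) := by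
          rw [← rpow_add hNpos]
          norm_num
  have hM2 : ((N : ℝ) ^ (0.43 : ℝ)) ^ 2 ≤ N := by
    rw [← rpow_natCast, ← rpow_mul hNpos.le]
    calc (N : ℝ) ^ ((0.43 : ℝ) * (2 : ℕ)) ≤ (N : ℝ) ^ (1 : ℝ) :=
          rpow_le_rpow_of_exponent_le hN1 (by norm_num)
      _ = N := rpow_one _
  have hV : ∑ i ∈ B, w i * (∑ e ∈ s, 1 / (e : ℝ) * lam i (e ^ 2)) ^ 2 ≤
      1200000 * (N : ℝ) ^ (-(0.37 : ℝ)) := by
    refine hls.trans ?_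
    have h1 : 3 * ((N : ℝ) ^ (0.43 : ℝ)) ^ 2 / N ≤ 3 := by
      rw [div_le_iff₀ hNpos]
      linarith
    have h2 : 0 ≤ 3 * ((N : ℝ) ^ (0.43 : ℝ)) ^ 2 / N := by positivity
    have h3 : 0 ≤ ∑ e ∈ s, (1 / (e : ℝ)) ^ 2 := sum_nonneg fun e _ => by positivity
    calc 300000 * (1 + 3 * ((N : ℝ) ^ (0.43 : ℝ)) ^ 2 / N) * ∑ e ∈ s, (1 / (e : ℝ)) ^ 2
        ≤ (300000 * 4) * (N : ℝ) ^ (-(0.37 : ℝ)) :=
          mul_le_mul (by linarith) hsq h3 (by norm_num)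
      _ = 1200000 * (N : ℝ) ^ (-(0.37 : ℝ)) := by ring
  refine (few_of_sq hF.w0 (show (0 : ℝ) < 1 / 50 by norm_num) hV).mono ?_ ?_
  · refine le_trans (le_of_eq ?_) hsm
    ring
  · intro i hi hFi
    have e1 : ∑ p ∈ s, lam i p ^ 2 / p = ∑ p ∈ s, 1 / (p : ℝ) + ∑ e ∈ s, 1 / (e : ℝ) * lam i (e ^ 2) := by
      rw [← sum_add_distrib]
      refine sum_congr rfl fun p hp => ?_
      obtain ⟨h1, hpp, -, h4⟩ := hmem p hp
      have hndvd : ¬ N ∣ p := by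
        intro hd
        have h5 : N ≤ p := Nat.le_of_dvd (by omega) hd
        have h6 : (N : ℝ) ≤ p := by exact_mod_cast h5
        linarith
      rw [hF.sq i hi p hndvd, hpp.sum_divisors, one_pow, hF.one i hi]
      field_simp
      ring
    rw [e1]
    have h2 := (abs_le.1 hFi).1
    linarith

end Pool.Agent.H485.LD
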