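import Pool.Agent.H485.LD.Stm

/-!
# NLC: the sum of `λ(p)²` over the primes of `(Z/C1, Z]`
-/

set_option autoImplicit false

namespace Pool.Agent.H485.LD

open Real Finset Filter

/-- the primes in `(x, Dx]` -/
def nlc_I (D x : ℕ) : Finset ℕ := (Icc 1 (D * x)).filter (fun p => p.Prime ∧ x < p)

lemma nlc_cnt {C : ℝ} (hC : ∀ n : ℕ, 1 ≤ n →
    |∑ p ∈ (Icc 1 n).filter Nat.Prime, log p / p - log n| ≤ C) {D : ℕ} (hD : 1 ≤ D)
    (hD2 : 2 * C + 1 ≤ log D) {x : ℕ} (hx : 1 ≤ x) :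
    (x : ℝ) ≤ (nlc_I D x).card * log ((D * x : ℕ) : ℝ) := by
  have hDx : 1 ≤ D * x := Nat.one_le_iff_ne_zero.2 (by positivity)
  have h1 := abs_le.1 (hC (D * x) hDx)
  have h2 := abs_le.1 (hC x hx)
  have h3 : ∑ p ∈ (Icc 1 (D * x)).filter Nat.Prime, log p / p =
      ∑ p ∈ (Icc 1 x).filter Nat.Prime, log p / p + ∑ p ∈ nlc_I D x, log p / p := by
    rw [← sum_filter_add_sum_filter_not ((Icc 1 (D * x)).filter Nat.Prime) (fun p => p ≤ x)]
    congr 1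
    · refine sum_congr ?_ fun _ _ => rfl
      ext p
      simp only [mem_filter, mem_Icc]
      constructor
      · rintro ⟨⟨⟨a, b⟩, c⟩, d⟩
        exact ⟨⟨a, d⟩, c⟩
      · rintro ⟨⟨a, b⟩, c⟩
        exact ⟨⟨⟨a, b.trans (Nat.le_mul_of_pos_left x hD)⟩, c⟩, b⟩
    · refine sum_congr ?_ fun _ _ => rfl
      ext p
      simp only [nlc_I, mem_filter, mem_Icc, not_le]
      tauto
  have hx0 : (0 : ℝ) < x := by exact_mod_cast hx
  have hD0 : (0 : ℝ) < D := by exact_mod_cast hD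
  have h4 : log ((D * x : ℕ) : ℝ) = log D + log x := by
    push_cast
    exact log_mul hD0.ne' hx0.ne'
  have h5 : 1 ≤ ∑ p ∈ nlc_I D x, log p / p := by
    rw [h3, h4] at h1
    linarith [h1.1, h2.2]
  have h6 : ∑ p ∈ nlc_I D x, log p / p ≤ ∑ p ∈ nlc_I D x, log ((D * x : ℕ) : ℝ) / x := by
    refine sum_le_sum fun p hp => ?_
    rw [nlc_I, mem_filter, mem_Icc] at hp
    have h7 : (x : ℝ) ≤ p := by exact_mod_cast hp.2.2.le
    have h8 : (p : ℝ) ≤ ((D * x : ℕ) : ℝ) := by exact_mod_cast hp.1.2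
    have h9 : (1 : ℝ) ≤ p := by exact_mod_cast hp.1.1
    have h10 : 0 ≤ log (p : ℝ) := log_nonneg h9
    have h11 : log (p : ℝ) ≤ log ((D * x : ℕ) : ℝ) := log_le_log (by linarith) h8
    exact div_le_div₀ (h10.trans h11) h11 hx0 h7
  rw [sum_const, nsmul_eq_mul] at h6
  have h7 := h5.trans h6
  rw [← mul_div_assoc, le_div_iff₀ hx0, one_mul] at h7
  exact h7

/-- one interval -/
lemma nlc_few {N : ℕ} {ι : Type} {B : Finset ι} {w : ι → ℝ} {lam : ι → ℕ → ℝ}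
    (h : Fam N B w lam) {C : ℝ} (hC : ∀ n : ℕ, 1 ≤ n →
      |∑ p ∈ (Icc 1 n).filter Nat.Prime, log p / p - log n| ≤ C) {D : ℕ} (hD : 1 ≤ D)
    (hD2 : 2 * C + 1 ≤ log D) {x : ℕ} (hx : 1 ≤ x) (hN : D * x < N) :
    Few B w (1200000 * (1 + 3 * ((D * x : ℕ) : ℝ) ^ 2 / N) * (log ((D * x : ℕ) : ℝ) / x))
      (fun i => (x : ℝ) / (2 * log ((D * x : ℕ) : ℝ)) ≤ ∑ p ∈ nlc_I D x, lam i p ^ 2) := by
  have hcnt := nlc_cnt hC hD hD2 hx
  have hx0 : (0 : ℝ) < x := by exact_mod_cast hx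
  have hDx : 1 ≤ D * x := Nat.one_le_iff_ne_zero.2 (by positivity)
  have hDx1 : (1 : ℝ) ≤ ((D * x : ℕ) : ℝ) := by exact_mod_cast hDx
  have hl0 : 0 ≤ log ((D * x : ℕ) : ℝ) := log_nonneg hDx1
  have hl : 0 < log ((D * x : ℕ) : ℝ) := by
    rcases hl0.lt_or_eq with h1 | h1
    · exact h1
    · rw [← h1, mul_zero] at hcnt
      linarith
  have hc : (0 : ℝ) < (nlc_I D x).card := by
    by_contra hcon
    have h1 : ((nlc_I D x).card : ℝ) * log ((D * x : ℕ) : ℝ) ≤ 0 :=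
      mul_nonpos_of_nonpos_of_nonneg (not_lt.1 hcon) hl0
    linarith
  have h1 := h.ls_sq hDx1 (nlc_I D x) (by
    intro e he
    rw [nlc_I, mem_filter, mem_Icc] at he
    exact ⟨he.1.1, by exact_mod_cast he.1.2⟩) (fun _ => 1)
  simp only [one_mul, one_pow, sum_const, nsmul_eq_mul, mul_one] at h1
  have h2 := few_of_sq (T := (nlc_I D x).card / 2) h.w0 (by positivity) h1
  refine h2.mono ?_ ?_
  · have h3 : 0 ≤ 1 + 3 * ((D * x : ℕ) : ℝ) ^ 2 / N := by positivity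
    have h4 : 300000 * (1 + 3 * ((D * x : ℕ) : ℝ) ^ 2 / N) * (nlc_I D x).card /
        ((nlc_I D x).card / 2 : ℝ) ^ 2 = 1200000 * (1 + 3 * ((D * x : ℕ) : ℝ) ^ 2 / N) *
          (1 / (nlc_I D x).card) := by
      field_simp
      ring
    rw [h4]
    refine mul_le_mul_of_nonneg_left ?_ (by positivity)
    rw [div_le_div_iff₀ hc hx0, one_mul]
    linarith
  · intro i hi h3
    have h4 : ∑ p ∈ nlc_I D x, lam i p ^ 2 = (nlc_I D x).card + ∑ p ∈ nlc_I D x, lam i (p ^ 2) := by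
      have h5 : ∀ p ∈ nlc_I D x, lam i p ^ 2 = 1 + lam i (p ^ 2) := by
        intro p hp
        rw [nlc_I, mem_filter, mem_Icc] at hp
        rw [h.sq i hi p (fun hd => by
          have := Nat.le_of_dvd (by omega) hd
          omega), hp.2.1.divisors, sum_pair hp.2.1.one_lt.ne, one_pow, h.one i hi]
      rw [sum_congr rfl h5, sum_add_distrib, sum_const, nsmul_eq_mul, mul_one]
    rw [h4]
    have h5 := (abs_le.1 h3).1
    have h6 : (x : ℝ) / (2 * log ((D * x : ℕ) : ℝ)) ≤ (nlc_I D x).card / 2 := by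
      rw [div_le_div_iff₀ (by positivity) two_pos]
      linarith
    linarith

theorem nlc : S_NLC := by
  rintro ⟨C, hC0, hC⟩
  obtain ⟨D, hD⟩ : ∃ D : ℕ, exp (2 * C + 1) ≤ D := exists_nat_ge _
  have he1 : (2 : ℝ) ≤ exp (2 * C + 1) := by
    have := add_one_le_exp (2 * C + 1)
    linarith
  have hD2r : (2 : ℝ) ≤ D := he1.trans hD
  have hD2 : 2 ≤ D := by exact_mod_cast hD2r
  have hD1 : 1 ≤ D := by omega
  have hD0 : (0 : ℝ) < D := by linarith
  have hlD : 2 * C + 1 ≤ log D := by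
    rw [le_log_iff_exp_le hD0]
    exact hD
  have hlD1 : 1 ≤ log (D : ℝ) := by linarith
  refine ⟨1 / (2 * D ^ 2), D ^ 2, by positivity, by nlinarith, ?_⟩
  -- large `N`
  have hA : (0 : ℝ) < 9600000 * D ^ 2 := by positivity
  have hlim := (isLittleO_log_rpow_rpow_atTop (s := 0.24) 3 (by norm_num)).bound
    (by positivity : (0 : ℝ) < 1 / (9600000 * D ^ 2))
  have hlim2 : ∀ᶠ y : ℝ in atTop, (D : ℝ) ^ 2 ≤ y ^ (0.46 : ℝ) :=
    (tendsto_rpow_atTop (by norm_num : (0 : ℝ) < 0.46)).eventually_ge_atTop _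
  have hlim3 : ∀ᶠ y : ℝ in atTop, (1 : ℝ) ≤ log y := tendsto_log_atTop.eventually_ge_atTop _
  have hlim4 : ∀ᶠ y : ℝ in atTop, (1 : ℝ) < y := eventually_gt_atTop 1
  have hev := tendsto_natCast_atTop_atTop.eventually (hlim.and (hlim2.and (hlim3.and hlim4)))
  obtain ⟨N0, hN0⟩ := eventually_atTop.1 hev
  refine ⟨N0, fun N hN hNp ι B w lam h => ?_⟩
  obtain ⟨b1, b2, b3, b4⟩ := hN0 N hN
  have hNr : (0 : ℝ) < N := by linarith
  have hL0 : 0 < log (N : ℝ) := by linarith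
  have hexp : exp (-l2 N) = 1 / log N := by
    rw [l2, exp_neg, exp_log hL0, one_div]
  classical
  obtain ⟨K, hK⟩ : ∃ K : Finset ℕ, K = (range (⌊log N⌋₊ + 1)).filter (fun k =>
    (N : ℝ) ^ (0.46 : ℝ) < (D : ℝ) ^ (k + 2) ∧ (D : ℝ) ^ (k + 1) ≤ (N : ℝ) ^ (0.61 : ℝ)) := ⟨_, rfl⟩
  have hKc : (K.card : ℝ) ≤ 2 * log N := by
    have h1 : K.card ≤ ⌊log N⌋₊ + 1 := by
      rw [hK]
      exact (card_filter_le _ _).trans (by rw [card_range])
    have h2 : (⌊log (N : ℝ)⌋₊ : ℝ) ≤ log N := Nat.floor_le hL0.le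
    have h3 : (K.card : ℝ) ≤ ⌊log (N : ℝ)⌋₊ + 1 := by exact_mod_cast h1
    linarith
  have hlt : (N : ℝ) ^ (0.61 : ℝ) < N := by
    have := rpow_lt_rpow_of_exponent_lt b4 (by norm_num : (0.61 : ℝ) < 1)
    rwa [rpow_one] at this
  have hball := Few.ball h.w0 K (fun _ => 4800000 * D ^ 2 * log N / (N : ℝ) ^ (0.24 : ℝ))
    (fun k i => ((D ^ k : ℕ) : ℝ) / (2 * log ((D * D ^ k : ℕ) : ℝ)) ≤
      ∑ p ∈ nlc_I D (D ^ k), lam i p ^ 2) (by
    intro k hk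
    rw [hK, mem_filter] at hk
    obtain ⟨-, k1, k2⟩ := hk
    have hx : 1 ≤ D ^ k := Nat.one_le_pow _ _ (by omega)
    have hcast : ((D * D ^ k : ℕ) : ℝ) = (D : ℝ) ^ (k + 1) := by
      push_cast
      rw [pow_succ]
      ring
    have hlt2 : D * D ^ k < N := by
      have : ((D * D ^ k : ℕ) : ℝ) < N := by
        rw [hcast]
        linarith
      exact_mod_cast this
    refine (nlc_few h hC hD1 hlD hx hlt2).mono ?_ fun _ _ hh => hh
    rw [hcast]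
    have hNpos : ∀ s : ℝ, (0 : ℝ) < (N : ℝ) ^ s := fun s => rpow_pos_of_pos hNr s
    have e1 : ((D : ℝ) ^ (k + 1)) ^ 2 / N ≤ (N : ℝ) ^ (0.22 : ℝ) := by
      rw [div_le_iff₀ hNr]
      have h5 : ((N : ℝ) ^ (0.61 : ℝ)) ^ 2 = (N : ℝ) ^ (0.22 : ℝ) * N := by
        rw [← rpow_natCast, ← rpow_mul hNr.le]
        nth_rw 3 [← rpow_one (N : ℝ)]
        rw [← rpow_add hNr]
        norm_num
      rw [← h5]
      exact pow_le_pow_left₀ (by positivity) k2 2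
    have e2 : (1 : ℝ) ≤ (N : ℝ) ^ (0.22 : ℝ) := one_le_rpow b4.le (by norm_num)
    have e3 : 1 + 3 * ((D : ℝ) ^ (k + 1)) ^ 2 / N ≤ 4 * (N : ℝ) ^ (0.22 : ℝ) := by
      rw [mul_div_assoc]
      linarith
    have e4 : log ((D : ℝ) ^ (k + 1)) ≤ log N :=
      log_le_log (by positivity) (k2.trans hlt.le)
    have e4' : 0 ≤ log ((D : ℝ) ^ (k + 1)) := log_nonneg (one_le_pow₀ (by linarith))
    have e5 : (N : ℝ) ^ (0.46 : ℝ) / D ^ 2 ≤ ((D ^ k : ℕ) : ℝ) := by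
      rw [div_le_iff₀ (by positivity)]
      push_cast
      rw [← pow_add]
      exact k1.le
    have e6 : log ((D : ℝ) ^ (k + 1)) / ((D ^ k : ℕ) : ℝ) ≤
        log N / ((N : ℝ) ^ (0.46 : ℝ) / D ^ 2) := by
      have := hNpos 0.46
      exact div_le_div₀ hL0.le e4 (by positivity) e5
    have e7 : (0 : ℝ) ≤ log ((D : ℝ) ^ (k + 1)) / ((D ^ k : ℕ) : ℝ) := by positivity
    calc 1200000 * (1 + 3 * ((D : ℝ) ^ (k + 1)) ^ 2 / N) *
          (log ((D : ℝ) ^ (k + 1)) / ((D ^ k : ℕ) : ℝ))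
        ≤ 1200000 * (4 * (N : ℝ) ^ (0.22 : ℝ)) * (log N / ((N : ℝ) ^ (0.46 : ℝ) / D ^ 2)) := by
          gcongr
      _ = 4800000 * D ^ 2 * log N / (N : ℝ) ^ (0.24 : ℝ) := by
          have h6 : (N : ℝ) ^ (0.46 : ℝ) = (N : ℝ) ^ (0.22 : ℝ) * (N : ℝ) ^ (0.24 : ℝ) := by
            rw [← rpow_add hNr]
            norm_num
          rw [h6]
          have h7 := (hNpos 0.22).ne'
          have h8 := (hNpos 0.24).ne'
          field_simp
          ring)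
  refine hball.mono ?_ ?_
  · rw [sum_const, nsmul_eq_mul, hexp]
    have hN24 : (0 : ℝ) < (N : ℝ) ^ (0.24 : ℝ) := rpow_pos_of_pos hNr _
    have h1 : 9600000 * (D : ℝ) ^ 2 * log N ^ 3 ≤ (N : ℝ) ^ (0.24 : ℝ) := by
      have h2 : ‖log (N : ℝ) ^ (3 : ℝ)‖ = log N ^ 3 := by
        rw [norm_eq_abs, abs_of_nonneg (rpow_nonneg hL0.le _)]
        exact_mod_cast rpow_natCast (log (N : ℝ)) 3
      rw [h2, norm_eq_abs, abs_of_pos hN24, one_div, ← div_eq_inv_mul, le_div_iff₀ hA] at b1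
      linarith
    calc (K.card : ℝ) * (4800000 * D ^ 2 * log N / (N : ℝ) ^ (0.24 : ℝ))
        ≤ 2 * log N * (4800000 * D ^ 2 * log N / (N : ℝ) ^ (0.24 : ℝ)) := by gcongr
      _ = 9600000 * (D : ℝ) ^ 2 * log N ^ 3 / (N : ℝ) ^ (0.24 : ℝ) / log N := by
          field_simp
          ring
      _ ≤ 1 / log N := by
          gcongr
          rw [div_le_one hN24]
          exact h1
  · intro i hi hPi Z hZ1 hZ2
    have hZD : (D : ℝ) ^ 2 ≤ Z := b2.trans hZ1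
    have hZ0 : 0 < Z := lt_of_lt_of_le (by positivity) hZD
    have hfl : D ^ 2 ≤ ⌊Z⌋₊ := Nat.le_floor (by exact_mod_cast hZD)
    obtain ⟨e, he⟩ : ∃ e, e = Nat.log D ⌊Z⌋₊ := ⟨_, rfl⟩
    have hne : ⌊Z⌋₊ ≠ 0 := by
      have : 0 < D ^ 2 := by positivity
      omega
    have h1 : D ^ e ≤ ⌊Z⌋₊ := by
      rw [he]
      exact Nat.pow_log_le_self D hne
    have h2 : ⌊Z⌋₊ < D ^ (e + 1) := by
      rw [he]
      exact Nat.lt_pow_succ_log_self (by omega) _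
    have h3 : 1 ≤ e := by
      by_contra hcon
      have : e = 0 := by omega
      rw [this] at h2
      have h4 : D ^ 2 < D ^ (0 + 1) := lt_of_le_of_lt hfl h2
      have h5 : D ^ (0 + 1) ≤ D ^ 2 := Nat.pow_le_pow_right hD1 (by norm_num)
      omega
    obtain ⟨k, rfl⟩ : ∃ k, e = k + 1 := ⟨e - 1, by omega⟩
    have g1 : (D : ℝ) ^ (k + 1) ≤ Z := by
      have : ((D ^ (k + 1) : ℕ) : ℝ) ≤ Z := (Nat.cast_le.2 h1).trans (Nat.floor_le hZ0.le)
      exact_mod_cast this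
    have g2 : Z < (D : ℝ) ^ (k + 2) := by
      have : Z < ((D ^ (k + 1 + 1) : ℕ) : ℝ) := (Nat.floor_lt hZ0.le).1 h2
      exact_mod_cast this
    have g3 : ((k + 1 : ℕ) : ℝ) * log D ≤ log N := by
      rw [← log_pow]
      exact log_le_log (by positivity) ((g1.trans hZ2).trans hlt.le)
    have g4 : (k : ℝ) ≤ log N := by
      push_cast at g3
      nlinarith [(Nat.cast_nonneg k : (0 : ℝ) ≤ k)]
    have hkK : k ∈ K := by
      rw [hK, mem_filter, mem_range]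
      exact ⟨Nat.lt_succ_of_le (Nat.le_floor g4), lt_of_le_of_lt hZ1 g2, g1.trans hZ2⟩
    have h4 := hPi k hkK
    have hcast : ((D * D ^ k : ℕ) : ℝ) = (D : ℝ) ^ (k + 1) := by
      push_cast
      rw [pow_succ]
      ring
    rw [hcast] at h4
    have h5 : 0 < log ((D : ℝ) ^ (k + 1)) := by
      rw [log_pow]
      positivity
    have h6 : log ((D : ℝ) ^ (k + 1)) ≤ log N :=
      log_le_log (by positivity) ((g1.trans hZ2).trans hlt.le)
    have h7 : 1 / (2 * (D : ℝ) ^ 2) * Z / log N ≤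
        ((D ^ k : ℕ) : ℝ) / (2 * log ((D : ℝ) ^ (k + 1))) := by
      have h8 : Z / D ^ 2 ≤ ((D ^ k : ℕ) : ℝ) := by
        rw [div_le_iff₀ (by positivity)]
        push_cast
        rw [← pow_add]
        exact g2.le
      calc 1 / (2 * (D : ℝ) ^ 2) * Z / log N = (Z / D ^ 2) / (2 * log N) := by
            field_simp
        _ ≤ ((D ^ k : ℕ) : ℝ) / (2 * log ((D : ℝ) ^ (k + 1))) :=
          div_le_div₀ (by positivity) h8 (by positivity) (by linarith)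
    refine (h7.trans h4).trans (sum_le_sum_of_subset_of_nonneg ?_ fun p _ _ => sq_nonneg _)
    intro p hp
    rw [nlc_I, mem_filter, mem_Icc] at hp
    have h9 : (p : ℝ) ≤ (D : ℝ) ^ (k + 1) := by
      rw [← hcast]
      exact_mod_cast hp.1.2
    have h10 : ((D : ℝ)) ^ k < p := by exact_mod_cast hp.2.2
    rw [mem_filter, mem_Icc]
    refine ⟨⟨hp.1.1, ?_⟩, hp.2.1, ?_, h9.trans g1⟩
    · have : (p : ℝ) ≤ N := (h9.trans (g1.trans hZ2)).trans hlt.le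
      exact_mod_cast this
    · refine lt_of_lt_of_le ?_ h10.le
      rw [div_lt_iff₀ (by positivity), ← pow_add]
      exact g2

end Pool.Agent.H485.LD
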