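import Pool.Agent.H485.LD.Stm

/-!
# LD-NLD: the upper bound of the weights (integers `m p₁ p₂`)
-/

set_option autoImplicit false

namespace Pool.Agent.H485.LD

open Real Finset Filter

/-- the set of primes of NLB -/
noncomputable def nld_P (N : ℕ) : Finset ℕ :=
  (Icc 1 N).filter (fun p : ℕ => p.Prime ∧ (N : ℝ) ^ (0.40 : ℝ) < p ∧ (p : ℝ) ≤ (N : ℝ) ^ (0.43 : ℝ))

/-- the set of primes of NLC -/
noncomputable def nld_Q (N : ℕ) (C1 Z : ℝ) : Finset ℕ :=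
  (Icc 1 N).filter (fun p : ℕ => p.Prime ∧ Z / C1 < p ∧ (p : ℝ) ≤ Z)

/-- the triples -/
noncomputable def nld_T (N : ℕ) (C1 : ℝ) : Finset (Σ _ : ℕ, Σ _ : ℕ, ℕ) :=
  (Icc 1 ⌊(N : ℝ) ^ (1 / 10 : ℝ)⌋₊).sigma fun m =>
    (nld_P N).sigma fun p => nld_Q N C1 ((N : ℝ) / (m * p))

/-- facts about a triple -/
theorem nld_facts {N : ℕ} {C1 : ℝ} (hN : 1 < N) (hC1 : 1 < C1) (hbig : C1 < (N : ℝ) ^ (0.04 : ℝ))
    {m p : ℕ} (hm : m ∈ Icc 1 ⌊(N : ℝ) ^ (1 / 10 : ℝ)⌋₊) (hp : p ∈ nld_P N) :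
    1 ≤ m ∧ (m : ℝ) ≤ (N : ℝ) ^ (1 / 10 : ℝ) ∧ p.Prime ∧ m < p ∧ (N : ℝ) ^ (0.46 : ℝ) ≤ (N : ℝ) / (m * p) ∧
      (N : ℝ) / (m * p) ≤ (N : ℝ) ^ (0.61 : ℝ) ∧ (N : ℝ) ^ (0.43 : ℝ) ≤ (N : ℝ) / (m * p) / C1 := by
  have hN1 : (1 : ℝ) < N := by exact_mod_cast hN
  have hN0 : (0 : ℝ) < N := by linarith
  rw [mem_Icc] at hm
  obtain ⟨hm1, hm2⟩ := hm
  have hm3 : (m : ℝ) ≤ (N : ℝ) ^ (1 / 10 : ℝ) :=
    le_trans (by exact_mod_cast hm2) (Nat.floor_le (rpow_nonneg hN0.le _))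
  unfold nld_P at hp
  rw [mem_filter, mem_Icc] at hp
  obtain ⟨⟨hp1, hp2⟩, hp3, hp4, hp5⟩ := hp
  have hm0 : (0 : ℝ) < m := by exact_mod_cast hm1
  have hm1' : (1 : ℝ) ≤ m := by exact_mod_cast hm1
  have hp0 : (0 : ℝ) < p := by exact_mod_cast hp1
  have hmp : m < p := by
    have h1 : (N : ℝ) ^ (1 / 10 : ℝ) ≤ (N : ℝ) ^ (0.40 : ℝ) :=
      rpow_le_rpow_of_exponent_le hN1.le (by norm_num)
    have h2 : (m : ℝ) < p := by linarith
    exact_mod_cast h2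
  have hprod : (m : ℝ) * p ≤ (N : ℝ) ^ (0.53 : ℝ) := by
    have h1 : (N : ℝ) ^ (0.53 : ℝ) = (N : ℝ) ^ (1 / 10 : ℝ) * (N : ℝ) ^ (0.43 : ℝ) := by
      rw [← rpow_add hN0]
      norm_num
    rw [h1]
    exact mul_le_mul hm3 hp5 hp0.le (rpow_nonneg hN0.le _)
  have hZ : (N : ℝ) ^ (0.47 : ℝ) ≤ (N : ℝ) / (m * p) := by
    rw [le_div_iff₀ (by positivity)]
    calc (N : ℝ) ^ (0.47 : ℝ) * (m * p) ≤ (N : ℝ) ^ (0.47 : ℝ) * (N : ℝ) ^ (0.53 : ℝ) :=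
          mul_le_mul_of_nonneg_left hprod (rpow_nonneg hN0.le _)
      _ = (N : ℝ) ^ (1 : ℝ) := by
          rw [← rpow_add hN0]
          norm_num
      _ = N := rpow_one _
  refine ⟨hm1, hm3, hp3, hmp, ?_, ?_, ?_⟩
  · exact le_trans (rpow_le_rpow_of_exponent_le hN1.le (by norm_num)) hZ
  · rw [div_le_iff₀ (by positivity)]
    have h1 : (N : ℝ) = (N : ℝ) ^ (0.60 : ℝ) * (N : ℝ) ^ (0.40 : ℝ) := by
      rw [← rpow_add hN0]
      norm_num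
    have h2 : (N : ℝ) ^ (0.60 : ℝ) ≤ (N : ℝ) ^ (0.61 : ℝ) :=
      rpow_le_rpow_of_exponent_le hN1.le (by norm_num)
    have h3 : (N : ℝ) ^ (0.40 : ℝ) ≤ (m : ℝ) * p := by
      have : (p : ℝ) ≤ m * p := le_mul_of_one_le_left hp0.le hm1'
      linarith
    calc (N : ℝ) = (N : ℝ) ^ (0.60 : ℝ) * (N : ℝ) ^ (0.40 : ℝ) := h1
      _ ≤ (N : ℝ) ^ (0.61 : ℝ) * (m * p) :=
          mul_le_mul h2 h3 (rpow_nonneg hN0.le _) (rpow_nonneg hN0.le _)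
  · rw [le_div_iff₀ (by linarith)]
    refine le_trans ?_ hZ
    calc (N : ℝ) ^ (0.43 : ℝ) * C1 ≤ (N : ℝ) ^ (0.43 : ℝ) * (N : ℝ) ^ (0.04 : ℝ) :=
          mul_le_mul_of_nonneg_left hbig.le (rpow_nonneg hN0.le _)
      _ = (N : ℝ) ^ (0.47 : ℝ) := by
          rw [← rpow_add hN0]
          norm_num

/-- facts about the second prime -/
theorem nld_facts2 {N : ℕ} {C1 : ℝ} (hN : 1 < N) (hC1 : 1 < C1) (hbig : C1 < (N : ℝ) ^ (0.04 : ℝ))
    {m p q : ℕ} (hm : m ∈ Icc 1 ⌊(N : ℝ) ^ (1 / 10 : ℝ)⌋₊) (hp : p ∈ nld_P N)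
    (hq : q ∈ nld_Q N C1 ((N : ℝ) / (m * p))) :
    q.Prime ∧ (∀ p' ∈ nld_P N, p' < q) ∧ (∀ m' ∈ Icc 1 ⌊(N : ℝ) ^ (1 / 10 : ℝ)⌋₊, m' < q) ∧
      ((m * p * q : ℕ) : ℝ) ≤ N := by
  obtain ⟨f1, f2, f3, f4, f5, f6, f7⟩ := nld_facts hN hC1 hbig hm hp
  unfold nld_Q at hq
  rw [mem_filter, mem_Icc] at hq
  obtain ⟨⟨hq1, hq2⟩, hq3, hq4, hq5⟩ := hq
  have hlt : ∀ p' ∈ nld_P N, p' < q := by
    intro p' hp'
    unfold nld_P at hp'
    rw [mem_filter] at hp'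
    have h1 : (p' : ℝ) < q := by linarith [hp'.2.2.2]
    exact_mod_cast h1
  refine ⟨hq3, hlt, ?_, ?_⟩
  · intro m' hm'
    exact lt_trans (nld_facts hN hC1 hbig hm' hp).2.2.2.1 (hlt p hp)
  · push_cast
    have hmp : (0 : ℝ) < m * p := by
      have h1 : (0 : ℝ) < m := by exact_mod_cast f1
      have h2 : (0 : ℝ) < p := by exact_mod_cast f3.pos
      positivity
    rw [le_div_iff₀ hmp] at hq5
    linarith

theorem nld_inj {N : ℕ} {C1 : ℝ} (hN : 1 < N) (hC1 : 1 < C1) (hbig : C1 < (N : ℝ) ^ (0.04 : ℝ)) :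
    Set.InjOn (fun x : (Σ _ : ℕ, Σ _ : ℕ, ℕ) => x.1 * x.2.1 * x.2.2) (nld_T N C1) := by
  rintro ⟨m, p, q⟩ h1 ⟨m', p', q'⟩ h2 h3
  rw [mem_coe] at h1 h2
  unfold nld_T at h1 h2
  simp only [mem_sigma] at h1 h2
  obtain ⟨hm, hp, hq⟩ := h1
  obtain ⟨hm', hp', hq'⟩ := h2
  change m * p * q = m' * p' * q' at h3
  obtain ⟨q1, q2, q3, q4⟩ := nld_facts2 hN hC1 hbig hm hp hq
  obtain ⟨r1, r2, r3, r4⟩ := nld_facts2 hN hC1 hbig hm' hp' hq'
  obtain ⟨f1, f2, f3, f4, f5, f6, f7⟩ := nld_facts hN hC1 hbig hm hp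
  obtain ⟨g1, g2, g3, g4, g5, g6, g7⟩ := nld_facts hN hC1 hbig hm' hp'
  have hqq : q = q' := by
    have hd : q ∣ m' * p' * q' := ⟨m * p, by rw [← h3]; ring⟩
    rcases q1.dvd_mul.1 hd with hd1 | hd1
    · exfalso
      rcases q1.dvd_mul.1 hd1 with hd2 | hd2
      · exact absurd (Nat.le_of_dvd (by omega) hd2) (not_le.2 (q3 m' hm'))
      · exact absurd (Nat.le_of_dvd g3.pos hd2) (not_le.2 (q2 p' hp'))
    · exact (Nat.prime_dvd_prime_iff_eq q1 r1).1 hd1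
  subst hqq
  have h4 : m * p = m' * p' := Nat.eq_of_mul_eq_mul_right q1.pos h3
  have hpp : p = p' := by
    have hd : p ∣ m' * p' := ⟨m, by rw [← h4]; ring⟩
    rcases f3.dvd_mul.1 hd with hd1 | hd1
    · exfalso
      have h5 := (nld_facts hN hC1 hbig hm' hp).2.2.2.1
      exact absurd (Nat.le_of_dvd (by omega) hd1) (not_le.2 h5)
    · exact (Nat.prime_dvd_prime_iff_eq f3 g3).1 hd1
  subst hpp
  have h5 : m = m' := Nat.eq_of_mul_eq_mul_right f3.pos h4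
  subst h5
  rfl

theorem nld_core {N : ℕ} {ι : Type} {B : Finset ι} {w : ι → ℝ} {lam : ι → ℕ → ℝ} (h : Fam N B w lam)
    {c1 c2 C1 : ℝ} (hc1 : 0 < c1) (hc2 : 0 < c2) (hC1 : 1 < C1) (hN : 1 < N) (hlog : 0 < log N)
    (hl2 : 0 < l2 N) (hbig : C1 < (N : ℝ) ^ (0.04 : ℝ)) {i : ι} (hi : i ∈ B)
    (hA : c1 * log N / l2 N ^ 2 ≤ ∑ m ∈ Icc 1 ⌊(N : ℝ) ^ (1 / 10 : ℝ)⌋₊, lam i m ^ 2 / m)
    (hB : 1 / 50 ≤ ∑ p ∈ nld_P N, lam i p ^ 2 / p)
    (hC : ∀ Z : ℝ, (N : ℝ) ^ (0.46 : ℝ) ≤ Z → Z ≤ (N : ℝ) ^ (0.61 : ℝ) →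
      c2 * Z / log N ≤ ∑ p ∈ nld_Q N C1 Z, lam i p ^ 2) :
    w i ≤ 60000000 / (c1 * c2) * l2 N ^ 2 / N := by
  classical
  have hN1 : (1 : ℝ) < N := by exact_mod_cast hN
  have hN0 : (0 : ℝ) < N := by linarith
  set S : ℝ := ∑ x ∈ nld_T N C1, lam i (x.1 * x.2.1 * x.2.2) ^ 2 with hS
  -- upper bound
  have hup : w i * S ^ 2 ≤ 1200000 * S := by
    have h1 := h.ls N hN1.le ((nld_T N C1).image fun x => x.1 * x.2.1 * x.2.2) (by
      intro n hn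
      obtain ⟨⟨m, p, q⟩, hx, rfl⟩ := mem_image.1 hn
      unfold nld_T at hx
      simp only [mem_sigma] at hx
      obtain ⟨hm, hp, hq⟩ := hx
      obtain ⟨q1, q2, q3, q4⟩ := nld_facts2 hN hC1 hbig hm hp hq
      obtain ⟨f1, f2, f3, f4, f5, f6, f7⟩ := nld_facts hN hC1 hbig hm hp
      refine ⟨?_, q4⟩
      have h2 : 0 < m * p * q := Nat.mul_pos (Nat.mul_pos (by omega) f3.pos) q1.pos
      exact h2) (lam i)
    have e0 : ∑ n ∈ (nld_T N C1).image (fun x => x.1 * x.2.1 * x.2.2), lam i n ^ 2 = S := by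
      rw [hS, sum_image (nld_inj hN hC1 hbig)]
    have e1 : ∑ n ∈ (nld_T N C1).image (fun x => x.1 * x.2.1 * x.2.2), lam i n * lam i n = S := by
      rw [← e0]
      refine sum_congr rfl fun n _ => ?_
      ring
    rw [e0] at h1
    have h2 : w i * (∑ n ∈ (nld_T N C1).image (fun x => x.1 * x.2.1 * x.2.2), lam i n * lam i n) ^ 2 ≤
        ∑ j ∈ B, w j * (∑ n ∈ (nld_T N C1).image (fun x => x.1 * x.2.1 * x.2.2), lam i n * lam j n) ^ 2 :=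
      single_le_sum (f := fun j => w j *
        (∑ n ∈ (nld_T N C1).image (fun x => x.1 * x.2.1 * x.2.2), lam i n * lam j n) ^ 2)
        (fun j hj => mul_nonneg (h.w0 j hj) (sq_nonneg _)) hi
    rw [e1] at h2
    have h3 : (300000 : ℝ) * (1 + 3 * N / N) = 1200000 := by
      field_simp
      norm_num
    rw [h3] at h1
    exact h2.trans h1
  -- lower bound
  have hlow : c1 * c2 * N / (50 * l2 N ^ 2) ≤ S := by
    have e0 : S = ∑ m ∈ Icc 1 ⌊(N : ℝ) ^ (1 / 10 : ℝ)⌋₊, ∑ p ∈ nld_P N,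
        ∑ q ∈ nld_Q N C1 ((N : ℝ) / (m * p)), lam i (m * p * q) ^ 2 := by
      rw [hS]
      unfold nld_T
      rw [sum_sigma]
      refine sum_congr rfl fun m _ => ?_
      rw [sum_sigma]
    have e1 : ∀ m ∈ Icc 1 ⌊(N : ℝ) ^ (1 / 10 : ℝ)⌋₊, ∀ p ∈ nld_P N,
        c2 * N / log N * (lam i m ^ 2 / m) * (lam i p ^ 2 / p) ≤
        ∑ q ∈ nld_Q N C1 ((N : ℝ) / (m * p)), lam i (m * p * q) ^ 2 := by
      intro m hm p hp
      obtain ⟨f1, f2, f3, f4, f5, f6, f7⟩ := nld_facts hN hC1 hbig hm hp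
      have hm0 : (0 : ℝ) < m := by exact_mod_cast f1
      have hp0 : (0 : ℝ) < p := by exact_mod_cast f3.pos
      have h1 : ∑ q ∈ nld_Q N C1 ((N : ℝ) / (m * p)), lam i (m * p * q) ^ 2 =
          lam i m ^ 2 * lam i p ^ 2 * ∑ q ∈ nld_Q N C1 ((N : ℝ) / (m * p)), lam i q ^ 2 := by
        rw [mul_sum]
        refine sum_congr rfl fun q hq => ?_
        obtain ⟨q1, q2, q3, q4⟩ := nld_facts2 hN hC1 hbig hm hp hq
        have hc2' : Nat.Coprime m p := by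
          refine Nat.Coprime.symm ((Nat.Prime.coprime_iff_not_dvd f3).2 fun hd => ?_)
          exact absurd (Nat.le_of_dvd (by omega) hd) (not_le.2 f4)
        have hc1' : Nat.Coprime (m * p) q := by
          refine Nat.Coprime.symm ((Nat.Prime.coprime_iff_not_dvd q1).2 fun hd => ?_)
          rcases q1.dvd_mul.1 hd with hd2 | hd2
          · exact absurd (Nat.le_of_dvd (by omega) hd2) (not_le.2 (q3 m hm))
          · exact absurd (Nat.le_of_dvd f3.pos hd2) (not_le.2 (q2 p hp))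
        rw [h.mul i hi _ _ hc1', h.mul i hi _ _ hc2']
        ring
      rw [h1]
      have h2 := hC ((N : ℝ) / (m * p)) f5 f6
      calc c2 * N / log N * (lam i m ^ 2 / m) * (lam i p ^ 2 / p)
          = lam i m ^ 2 * lam i p ^ 2 * (c2 * ((N : ℝ) / (m * p)) / log N) := by
            field_simp
        _ ≤ _ := mul_le_mul_of_nonneg_left h2 (by positivity)
    have e2 : ∑ m ∈ Icc 1 ⌊(N : ℝ) ^ (1 / 10 : ℝ)⌋₊, ∑ p ∈ nld_P N,
        c2 * N / log N * (lam i m ^ 2 / m) * (lam i p ^ 2 / p) ≤ S := by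
      rw [e0]
      exact sum_le_sum fun m hm => sum_le_sum fun p hp => e1 m hm p hp
    have e3 : ∑ m ∈ Icc 1 ⌊(N : ℝ) ^ (1 / 10 : ℝ)⌋₊, ∑ p ∈ nld_P N,
        c2 * N / log N * (lam i m ^ 2 / m) * (lam i p ^ 2 / p) =
        c2 * N / log N * (∑ m ∈ Icc 1 ⌊(N : ℝ) ^ (1 / 10 : ℝ)⌋₊, lam i m ^ 2 / m) *
          ∑ p ∈ nld_P N, lam i p ^ 2 / p := by
      rw [mul_assoc, sum_mul_sum, mul_sum]
      refine sum_congr rfl fun m _ => ?_
      rw [mul_sum]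
      refine sum_congr rfl fun p _ => ?_
      ring
    rw [e3] at e2
    refine le_trans ?_ e2
    calc c1 * c2 * N / (50 * l2 N ^ 2) = c2 * N / log N * (c1 * log N / l2 N ^ 2) * (1 / 50) := by
          field_simp
      _ ≤ _ := by
          refine mul_le_mul (mul_le_mul_of_nonneg_left hA (by positivity)) hB (by norm_num) ?_
          refine mul_nonneg (by positivity) (sum_nonneg fun m _ => by positivity)
  have hSpos : 0 < S := lt_of_lt_of_le (by positivity) hlow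
  have hw0 := h.w0 i hi
  have h1 : w i * S ≤ 1200000 := by
    have h2 : w i * S * S ≤ 1200000 * S := by
      calc w i * S * S = w i * S ^ 2 := by ring
        _ ≤ _ := hup
    exact le_of_mul_le_mul_right h2 hSpos
  have h2 : w i * (c1 * c2 * N / (50 * l2 N ^ 2)) ≤ 1200000 :=
    le_trans (mul_le_mul_of_nonneg_left hlow hw0) h1
  have h3 : 60000000 / (c1 * c2) * l2 N ^ 2 / N = 1200000 / (c1 * c2 * N / (50 * l2 N ^ 2)) := by
    field_simp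
    norm_num
  rw [h3, le_div_iff₀ (by positivity)]
  exact h2

theorem nld : S_NLD := by
  intro m1 m2 hNLA hNLB hNLC
  obtain ⟨c1, Ca, hc1, hCa, Na, hA⟩ := hNLA m2
  obtain ⟨Nb, hB⟩ := hNLB m2
  obtain ⟨c2, C1, hc2, hC1, Nc, hC⟩ := hNLC m1
  have hev : ∀ᶠ N : ℕ in atTop, C1 < (N : ℝ) ^ (0.04 : ℝ) :=
    ((tendsto_rpow_atTop (by norm_num : (0 : ℝ) < 0.04)).comp
      tendsto_natCast_atTop_atTop).eventually_gt_atTop C1
  obtain ⟨Nd, hd⟩ := eventually_atTop.1 hev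
  have hpos : 0 < 60000000 / (c1 * c2) := by positivity
  refine ⟨Ca + 2 + 60000000 / (c1 * c2), by positivity, Na + Nb + Nc + Nd + 3, ?_⟩
  intro N hN hNp ι B w lam hF
  have hN3 : (3 : ℝ) ≤ N := by
    have : 3 ≤ N := by omega
    exact_mod_cast this
  have hlog1 : 1 < log N := by
    rw [lt_log_iff_exp_lt (by linarith)]
    have := Real.exp_one_lt_d9
    linarith
  have hl2 : 0 < l2 N := log_pos hlog1
  have hlog : 0 < log N := by linarith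
  have hF1 := hA N (by omega) hNp ι B w lam hF
  have hF2 := hB N (by omega) hNp ι B w lam hF
  have hF3 := hC N (by omega) hNp ι B w lam hF
  have hbig := hd N (by omega)
  have hF4 := (hF1.and hF.w0 hF2).and hF.w0 hF3
  refine hF4.mono ?_ ?_
  · have h1 : exp (-l2 N) ≤ exp (-(1 / 2) * l2 N) := exp_le_exp.2 (by linarith)
    have h2 : 0 < exp (-(1 / 2) * l2 N) := exp_pos _
    have h3 : 0 ≤ 60000000 / (c1 * c2) * exp (-(1 / 2) * l2 N) := by positivity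
    calc Ca * exp (-(1 / 2) * l2 N) + exp (-l2 N) + exp (-l2 N)
        ≤ Ca * exp (-(1 / 2) * l2 N) + exp (-(1 / 2) * l2 N) + exp (-(1 / 2) * l2 N) := by linarith
      _ ≤ (Ca + 2 + 60000000 / (c1 * c2)) * exp (-(1 / 2) * l2 N) := by linarith
  · rintro i hi ⟨⟨k1, k2⟩, k3⟩
    have h1 := nld_core hF hc1 hc2 hC1 (by omega) hlog hl2 hbig hi k1 k2 k3
    refine h1.trans ?_
    have h2 : 60000000 / (c1 * c2) ≤ Ca + 2 + 60000000 / (c1 * c2) := by linarith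
    exact div_le_div_of_nonneg_right (mul_le_mul_of_nonneg_right h2 (sq_nonneg _)) (by linarith)

end Pool.Agent.H485.LD
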