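import Pool.Agent.H485.LD.Stm

/-! Assembly of the lower bound of the weights. -/

set_option autoImplicit false

namespace Pool.Agent.H485.LD

open Real Finset Filter

lemma nui_g_nonneg (N : ℕ) (lam : ℕ → ℝ) (n : ℕ) : 0 ≤ gN N lam n := by
  unfold gN
  split_ifs
  · exact le_rfl
  · exact sq_nonneg _

lemma nui_g_one {N : ℕ} (hN : N.Prime) {lam : ℕ → ℝ} (h : lam 1 = 1) : gN N lam 1 = 1 := by
  unfold gN
  rw [if_neg (fun hd => hN.one_lt.ne' (Nat.dvd_one.1 hd)), h, one_pow]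

lemma nui_g_mul {N : ℕ} (hN : N.Prime) {lam : ℕ → ℝ}
    (h : ∀ m n : ℕ, Nat.Coprime m n → lam (m * n) = lam m * lam n) (m n : ℕ)
    (hmn : Nat.Coprime m n) : gN N lam (m * n) = gN N lam m * gN N lam n := by
  unfold gN
  by_cases h1 : N ∣ m
  · rw [if_pos h1, if_pos (h1.mul_right n), zero_mul]
  by_cases h2 : N ∣ n
  · rw [if_pos h2, if_pos (h2.mul_left m), mul_zero]
  rw [if_neg h1, if_neg h2, if_neg fun h3 => (hN.dvd_mul.1 h3).elim h1 h2, h m n hmn, mul_pow]

/-- the estimate for one sequence -/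
lemma nui_point {N : ℕ} (hN : 1 ≤ N) {g : ℕ → ℝ} (hg : ∀ n, 0 ≤ g n) {ε C : ℝ} (hε : 0 < ε)
    (hC : 0 < C) (hL : 0 < log N) (ht : 11 ≤ l2 N)
    (hd : (10 * l2 N + 1) * (2 * C + 1) ≤ exp (11 * ε / 12 * l2 N))
    (he : 10 * l2 N + 1 ≤ log N ^ 2)
    (hlog : log (xN N) * ∑ n ∈ Icc 1 (xN N), g n ≤
      ∑ m ∈ Icc 1 (xN N), g m * Psi g (xN N / m) + xN N * ∑ m ∈ Icc 1 (xN N), g m / m)
    (h1 : ∀ z : ℕ, 1 ≤ z → ((z : ℝ) ≤ N / log N ^ 3 → Psi g z ≤ C * z) ∧
      ((z : ℝ) ≤ N * l2 N ^ 2 → Psi g z ≤ C * exp ((1 - ε / 2 / 3) * l2 N) * z))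
    (h2 : ∑ m ∈ Icc 1 (xN N), g m / m ≤ exp ((1 + ε / 12) * l2 N))
    (h3 : ∑ m ∈ Icc 1 (YN N), g m / m ≤ exp (ε / 12 * l2 N)) :
    ∑ n ∈ Icc 1 (xN N), g n ≤ N * exp (ε * l2 N) := by
  have hNR : (0 : ℝ) < N := by exact_mod_cast hN
  have hexp : exp (l2 N) = log N := by
    unfold l2
    exact exp_log hL
  set t := l2 N with htd
  set x := xN N with hx
  set L := log (N : ℝ) with hLd
  have hxR : (x : ℝ) = N * (⌈10 * t⌉₊ : ℝ) := by
    rw [hx]
    unfold xN
    push_cast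
    rfl
  have hc1 : (⌈10 * t⌉₊ : ℝ) ≤ 10 * t + 1 := (Nat.ceil_lt_add_one (by linarith)).le
  have hc2 : (1 : ℝ) ≤ (⌈10 * t⌉₊ : ℝ) := by
    have := Nat.le_ceil (10 * t)
    linarith
  have hxN : (N : ℝ) ≤ x := by
    rw [hxR]
    exact le_mul_of_one_le_right hNR.le hc2
  have hx0 : (0 : ℝ) < x := lt_of_lt_of_le hNR hxN
  have hxup : (x : ℝ) ≤ N * (10 * t + 1) := by
    rw [hxR]
    exact mul_le_mul_of_nonneg_left hc1 hNR.le
  set E := exp ((1 - ε / 2 / 3) * t) with hE
  have hE0 : 0 < E := exp_pos _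
  have hq : ∀ m : ℕ, 0 ≤ g m / m := fun m => div_nonneg (hg m) (Nat.cast_nonneg m)
  -- one term
  have hterm : ∀ m ∈ Icc 1 x, g m * Psi g (x / m) ≤
      C * x * (g m / m) + if m ≤ YN N then C * E * x * (g m / m) else 0 := by
    intro m hm
    rw [mem_Icc] at hm
    have hm0 : (0 : ℝ) < m := by exact_mod_cast hm.1
    have hz1 : 1 ≤ x / m := Nat.div_pos hm.2 hm.1
    have hz2 : ((x / m : ℕ) : ℝ) ≤ (x : ℝ) / m := Nat.cast_div_le
    obtain ⟨p1, p2⟩ := h1 (x / m) hz1
    rcases le_or_gt ((x / m : ℕ) : ℝ) (N / L ^ 3) with hcase | hcase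
    · have q1 : g m * Psi g (x / m) ≤ C * x * (g m / m) := by
        calc g m * Psi g (x / m) ≤ g m * (C * ((x : ℝ) / m)) :=
              mul_le_mul_of_nonneg_left ((p1 hcase).trans
                (mul_le_mul_of_nonneg_left hz2 hC.le)) (hg m)
          _ = C * x * (g m / m) := by ring
      have q2 : 0 ≤ if m ≤ YN N then C * E * x * (g m / m) else 0 := by
        split_ifs
        · exact mul_nonneg (by positivity) (hq m)
        · exact le_rfl
      linarith
    · have r1 : (m : ℝ) ≤ L ^ 5 := by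
        have r2 : (N : ℝ) / L ^ 3 < x / m := lt_of_lt_of_le hcase hz2
        rw [div_lt_div_iff₀ (by positivity) hm0] at r2
        have r3 : (x : ℝ) * L ^ 3 ≤ N * L ^ 5 := by
          calc (x : ℝ) * L ^ 3 ≤ (N * (10 * t + 1)) * L ^ 3 :=
                mul_le_mul_of_nonneg_right hxup (by positivity)
            _ ≤ (N * L ^ 2) * L ^ 3 :=
                mul_le_mul_of_nonneg_right (mul_le_mul_of_nonneg_left he hNR.le) (by positivity)
            _ = N * L ^ 5 := by ring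
        have r4 : (N : ℝ) * m < N * L ^ 5 := lt_of_lt_of_le r2 r3
        exact (lt_of_mul_lt_mul_left r4 hNR.le).le
      have r5 : m ≤ YN N := Nat.le_floor r1
      have r6 : ((x / m : ℕ) : ℝ) ≤ N * t ^ 2 := by
        have r7 : ((x / m : ℕ) : ℝ) ≤ x := by exact_mod_cast Nat.div_le_self x m
        refine r7.trans (hxup.trans (mul_le_mul_of_nonneg_left ?_ hNR.le))
        nlinarith
      rw [if_pos r5]
      have r8 : g m * Psi g (x / m) ≤ C * E * x * (g m / m) := by
        calc g m * Psi g (x / m) ≤ g m * (C * E * ((x : ℝ) / m)) :=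
              mul_le_mul_of_nonneg_left ((p2 r6).trans
                (mul_le_mul_of_nonneg_left hz2 (by positivity))) (hg m)
          _ = C * E * x * (g m / m) := by ring
      have r9 : 0 ≤ C * x * (g m / m) := mul_nonneg (by positivity) (hq m)
      linarith
  have hsum1 : ∑ m ∈ Icc 1 x, g m * Psi g (x / m) ≤
      C * x * exp ((1 + ε / 12) * t) + C * E * x * exp (ε / 12 * t) := by
    refine (sum_le_sum hterm).trans ?_
    rw [sum_add_distrib, ← mul_sum, ← sum_filter, ← mul_sum]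
    refine add_le_add (mul_le_mul_of_nonneg_left h2 (by positivity))
      (mul_le_mul_of_nonneg_left (le_trans (sum_le_sum_of_subset_of_nonneg ?_ fun m _ _ => hq m)
        h3) (by positivity))
    intro m hm
    rw [mem_filter, mem_Icc] at hm
    exact mem_Icc.2 ⟨hm.1.1, hm.2⟩
  have hE2 : E * exp (ε / 12 * t) ≤ exp ((1 + ε / 12) * t) := by
    rw [hE, ← exp_add]
    refine exp_le_exp.2 ?_
    nlinarith
  have hsplit : exp ((1 + ε / 12) * t) = L * exp (ε / 12 * t) := by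
    rw [← hexp, ← exp_add]
    congr 1
    ring
  have hlogx : L ≤ log x := log_le_log hNR hxN
  have hS0 : 0 ≤ ∑ n ∈ Icc 1 x, g n := sum_nonneg fun n _ => hg n
  have hfin : L * ∑ n ∈ Icc 1 x, g n ≤ L * ((2 * C + 1) * x * exp (ε / 12 * t)) := by
    calc L * ∑ n ∈ Icc 1 x, g n ≤ log x * ∑ n ∈ Icc 1 x, g n :=
          mul_le_mul_of_nonneg_right hlogx hS0
      _ ≤ ∑ m ∈ Icc 1 x, g m * Psi g (x / m) + x * ∑ m ∈ Icc 1 x, g m / m := hlog
      _ ≤ (C * x * exp ((1 + ε / 12) * t) + C * E * x * exp (ε / 12 * t)) +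
          x * exp ((1 + ε / 12) * t) :=
          add_le_add hsum1 (mul_le_mul_of_nonneg_left h2 hx0.le)
      _ = (C * x + x) * exp ((1 + ε / 12) * t) + C * x * (E * exp (ε / 12 * t)) := by ring
      _ ≤ (C * x + x) * exp ((1 + ε / 12) * t) + C * x * exp ((1 + ε / 12) * t) := by
          have := mul_le_mul_of_nonneg_left hE2 (by positivity : 0 ≤ C * (x : ℝ))
          linarith
      _ = L * ((2 * C + 1) * x * exp (ε / 12 * t)) := by
          rw [hsplit]
          ring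
  have hS := le_of_mul_le_mul_left hfin hL
  refine hS.trans ?_
  have hlast : exp (ε * t) = exp (11 * ε / 12 * t) * exp (ε / 12 * t) := by
    rw [← exp_add]
    congr 1
    ring
  calc (2 * C + 1) * x * exp (ε / 12 * t)
      ≤ (2 * C + 1) * (N * (10 * t + 1)) * exp (ε / 12 * t) := by
        refine mul_le_mul_of_nonneg_right ?_ (exp_pos _).le
        exact mul_le_mul_of_nonneg_left hxup (by positivity)
    _ = N * ((10 * t + 1) * (2 * C + 1)) * exp (ε / 12 * t) := by ring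
    _ ≤ N * exp (11 * ε / 12 * t) * exp (ε / 12 * t) := by
        refine mul_le_mul_of_nonneg_right ?_ (exp_pos _).le
        exact mul_le_mul_of_nonneg_left hd hNR.le
    _ = N * exp (ε * t) := by
        rw [hlast]
        ring

/-- linear functions are eventually below exponentials -/
lemma nui_lin (a b c : ℝ) (hc : 0 < c) : ∀ᶠ t : ℝ in atTop, a * t + b ≤ exp (c * t) := by
  have h1 : Tendsto (fun t : ℝ => t * exp (-(c * t))) atTop (nhds 0) := by
    have := tendsto_pow_mul_exp_neg_atTop_nhds_zero 1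
    have h2 : Tendsto (fun t : ℝ => c * t) atTop atTop := tendsto_id.const_mul_atTop hc
    have h3 := (this.comp h2).const_mul (1 / c)
    rw [mul_zero] at h3
    refine h3.congr fun t => ?_
    simp only [Function.comp_apply, pow_one]
    field_simp
  have h2 : Tendsto (fun t : ℝ => exp (-(c * t))) atTop (nhds 0) := by
    have h2 : Tendsto (fun t : ℝ => c * t) atTop atTop := tendsto_id.const_mul_atTop hc
    exact tendsto_exp_neg_atTop_nhds_zero.comp h2
  have h3 : Tendsto (fun t : ℝ => a * (t * exp (-(c * t))) + b * exp (-(c * t))) atTop (nhds 0) := by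
    have := (h1.const_mul a).add (h2.const_mul b)
    simpa using this
  filter_upwards [h3.eventually (Iio_mem_nhds (show (0 : ℝ) < 1 by norm_num))] with t ht
  have h4 : (a * t + b) * exp (-(c * t)) ≤ 1 := by
    have : (a * t + b) * exp (-(c * t)) = a * (t * exp (-(c * t))) + b * exp (-(c * t)) := by ring
    rw [this]
    exact (Set.mem_Iio.1 ht).le
  have h5 : exp (-(c * t)) * exp (c * t) = 1 := by
    rw [← exp_add]
    simp
  calc a * t + b = (a * t + b) * exp (-(c * t)) * exp (c * t) := by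
        rw [mul_assoc, h5, mul_one]
    _ ≤ 1 * exp (c * t) := mul_le_mul_of_nonneg_right h4 (exp_pos _).le
    _ = _ := one_mul _

lemma nui_l2 : Tendsto l2 atTop atTop :=
  tendsto_log_atTop.comp (tendsto_log_atTop.comp tendsto_natCast_atTop_atTop)

theorem nui : S_NUI := by
  intro hLOG hPR hPP hSM hPSI hAE hRE hGE ε hε0 hε1
  obtain ⟨C, hC, hPSI⟩ := hPSI
  obtain ⟨N1, hPR⟩ := hPR (ε / 2) (by positivity) (by linarith)
  obtain ⟨N2, hPP⟩ := hPP
  obtain ⟨N3, hSM⟩ := hSM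
  obtain ⟨N4, hPSI⟩ := hPSI (ε / 2) (by positivity) (by linarith)
  obtain ⟨N5, hAE⟩ := hAE (ε / 12 / 2) (by positivity)
  obtain ⟨N6, hRE⟩ := hRE
  obtain ⟨N7, hGE⟩ := hGE (ε / 12) (by positivity)
  have hev : ∀ᶠ N : ℕ in atTop, 11 ≤ l2 N ∧ 5 ≤ exp (ε / 2 * l2 N) ∧
      (10 * l2 N + 1) * (2 * C + 1) ≤ exp (11 * ε / 12 * l2 N) ∧
      10 * l2 N + 1 ≤ exp (2 * l2 N) := by
    have e1 := nui_lin (10 * (2 * C + 1)) (2 * C + 1) (11 * ε / 12) (by positivity)
    have e2 := nui_lin 10 1 2 (by norm_num)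
    have e3 := nui_lin 0 5 (ε / 2) (by positivity)
    filter_upwards [nui_l2.eventually e1, nui_l2.eventually e2, nui_l2.eventually e3,
      nui_l2.eventually_ge_atTop 11] with N f1 f2 f3 f4
    refine ⟨f4, by linarith, by linarith, f2⟩
  obtain ⟨N8, h8⟩ := eventually_atTop.1 hev
  refine ⟨N1 + N2 + N3 + N4 + N5 + N6 + N7 + N8 + 2, fun N hN hNp ι B w lam hF => ?_⟩
  obtain ⟨a1, a2, a3, a4⟩ := h8 N (by omega)
  have hN1 : 1 ≤ N := by omega
  have hNR : (1 : ℝ) < N := by exact_mod_cast hNp.one_lt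
  have hL : 0 < log N := log_pos hNR
  have hexp : exp (l2 N) = log N := exp_log hL
  have b1 := hPR N (by omega) hNp ι B w lam hF
  have b2 := hPP N (by omega) hNp ι B w lam hF
  have b3 := hSM N (by omega) hNp ι B w lam hF
  have b5 := hAE N (by omega) hNp ι B w lam hF
  have b6 := hRE N (by omega) hNp ι B w lam hF
  have hall := ((((b1.and hF.w0 b2).and hF.w0 b3).and hF.w0 b5).and hF.w0 b6)
  refine hall.mono ?_ ?_
  · have c0 : 0 ≤ l2 N := by linarith
    have c1 : exp (-l2 N) ≤ exp (-(1 - ε / 2) * l2 N) := exp_le_exp.2 (by nlinarith)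
    have c2 : exp (-2 * l2 N) ≤ exp (-(1 - ε / 2) * l2 N) := exp_le_exp.2 (by nlinarith)
    have c3 : exp (-(3 / 2) * l2 N) ≤ exp (-(1 - ε / 2) * l2 N) := exp_le_exp.2 (by nlinarith)
    have c4 : exp (-(1 - ε) * l2 N) = exp (ε / 2 * l2 N) * exp (-(1 - ε / 2) * l2 N) := by
      rw [← exp_add]
      congr 1
      ring
    have c5 := mul_le_mul_of_nonneg_right a2 (exp_pos (-(1 - ε / 2) * l2 N)).le
    rw [c4]
    linarith
  · rintro i hi ⟨⟨⟨⟨d1, d2⟩, d3⟩, d5⟩, d6⟩
    have hmul := hF.mul i hi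
    have hone := hF.one i hi
    have hg0 := nui_g_nonneg N (lam i)
    have hx1 : 1 ≤ xN N := by
      unfold xN
      refine Nat.mul_pos hN1 (Nat.ceil_pos.2 ?_)
      linarith
    obtain ⟨g1, g2⟩ := hGE N (by omega) hNp (lam i) (hF.sq i hi)
      (by
        have : ε / 12 / 2 * l2 N = ε / 12 / 2 * l2 N := rfl
        exact d5) d6
    refine nui_point hN1 hg0 hε0 hC hL a1 a3 ?_
      (hLOG (gN N (lam i)) hg0 (nui_g_one hNp hone) (nui_g_mul hNp hmul) (xN N) hx1)
      (hPSI N (by omega) hNp (lam i) d1 d2 d3) g1 g2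
    have : exp (2 * l2 N) = log N ^ 2 := by
      rw [← hexp, ← exp_nat_mul]
      push_cast
      rfl
    rw [← this]
    exact a4

end Pool.Agent.H485.LD

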