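import Pool.Agent.H485.LD.Stm

set_option autoImplicit false

namespace Pool.Agent.H485.LD

open Real Finset Filter

/-- the double sum over the higher prime powers in a dyadic interval -/
noncomputable def ppF (k : ℕ) (f : ℕ → ℝ) : ℝ :=
  ∑ p ∈ (Icc 1 (2 ^ (k + 1) : ℕ)).filter Nat.Prime,
    ∑ a ∈ (Icc 2 (2 ^ (k + 1) : ℕ)).filter (fun a : ℕ => 2 ^ k < p ^ a ∧ p ^ a ≤ 2 ^ (k + 1)),
      (a : ℝ) * log p * f (p ^ a)

lemma ppF_mono (k : ℕ) {f g : ℕ → ℝ} (h : ∀ n, f n ≤ g n) : ppF k f ≤ ppF k g := by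
  refine sum_le_sum fun p hp => sum_le_sum fun a _ => mul_le_mul_of_nonneg_left (h _) ?_
  have hp1 : p.Prime := (mem_filter.1 hp).2
  have : (1 : ℝ) ≤ p := by exact_mod_cast hp1.one_lt.le
  exact mul_nonneg (Nat.cast_nonneg a) (log_nonneg this)

lemma ppF_nonneg (k : ℕ) {f : ℕ → ℝ} (h : ∀ n, 0 ≤ f n) : 0 ≤ ppF k f := by
  refine sum_nonneg fun p hp => sum_nonneg fun a _ => mul_nonneg ?_ (h _)
  have hp1 : p.Prime := (mem_filter.1 hp).2
  have : (1 : ℝ) ≤ p := by exact_mod_cast hp1.one_lt.le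
  exact mul_nonneg (Nat.cast_nonneg a) (log_nonneg this)

lemma ppF_sum {ι : Type} (B : Finset ι) (w : ι → ℝ) (lam : ι → ℕ → ℝ) (k : ℕ) :
    ∑ i ∈ B, w i * ppF k (fun n => lam i n ^ 2) = ppF k (fun n => ∑ i ∈ B, w i * lam i n ^ 2) := by
  unfold ppF
  simp only [mul_sum]
  rw [sum_comm]
  refine sum_congr rfl fun p _ => ?_
  rw [sum_comm]
  refine sum_congr rfl fun a _ => sum_congr rfl fun i _ => ?_
  ring

lemma ppF_le (k : ℕ) (f : ℕ → ℝ) (c : ℝ) (hc : 0 ≤ c)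
    (hf : ∀ n : ℕ, 1 ≤ n → n ≤ 2 ^ (k + 1) → f n ≤ c) :
    ppF k f ≤ √(2 ^ (k + 1)) * ((k : ℝ) + 1) ^ 2 * c := by
  set M : ℕ := 2 ^ (k + 1) with hM
  set s : ℕ := Nat.sqrt M with hs
  have hk0 : (0 : ℝ) ≤ (k : ℝ) + 1 := by positivity
  -- the inner sum
  have hin : ∀ p ∈ (Icc 1 M).filter Nat.Prime,
      ∑ a ∈ (Icc 2 M).filter (fun a : ℕ => 2 ^ k < p ^ a ∧ p ^ a ≤ M), (a : ℝ) * log p * f (p ^ a)
        ≤ if p ≤ s then ((k : ℝ) + 1) ^ 2 * c else 0 := by
    intro p hp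
    have hp1 : p.Prime := (mem_filter.1 hp).2
    have hp2 : (1 : ℝ) ≤ p := by exact_mod_cast hp1.one_lt.le
    split_ifs with hps
    · have hterm : ∀ a ∈ (Icc 2 M).filter (fun a : ℕ => 2 ^ k < p ^ a ∧ p ^ a ≤ M),
          (a : ℝ) * log p * f (p ^ a) ≤ ((k : ℝ) + 1) * c := by
        intro a ha
        obtain ⟨_, _, ha3⟩ := mem_filter.1 ha
        have h1 : (a : ℝ) * log p ≤ (k : ℝ) + 1 := by
          have e1 : (a : ℝ) * log p = log ((p : ℝ) ^ a) := by rw [Real.log_pow]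
          have e2 : ((p : ℝ) ^ a) ≤ 2 ^ (k + 1) := by exact_mod_cast ha3
          have e3 : log ((p : ℝ) ^ a) ≤ log (2 ^ (k + 1)) := log_le_log (by positivity) e2
          have e4 : log ((2 : ℝ) ^ (k + 1)) = ((k : ℝ) + 1) * log 2 := by
            rw [Real.log_pow]
            push_cast
            ring
          rw [e4] at e3
          rw [e1]
          refine e3.trans ?_
          have := Real.log_two_lt_d9
          nlinarith [hk0]
        have h2 : f (p ^ a) ≤ c := hf _ (Nat.one_le_pow _ _ hp1.pos) ha3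
        have h3 : 0 ≤ (a : ℝ) * log p := mul_nonneg (Nat.cast_nonneg a) (log_nonneg hp2)
        exact (mul_le_mul_of_nonneg_left h2 h3).trans (mul_le_mul_of_nonneg_right h1 hc)
      have hcard : ((Icc 2 M).filter (fun a : ℕ => 2 ^ k < p ^ a ∧ p ^ a ≤ M)).card ≤ k + 1 := by
        have hsub : (Icc 2 M).filter (fun a : ℕ => 2 ^ k < p ^ a ∧ p ^ a ≤ M) ⊆ Icc 1 (k + 1) := by
          intro a ha
          obtain ⟨ha1, _, ha3⟩ := mem_filter.1 ha
          rw [mem_Icc] at ha1 ⊢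
          refine ⟨by omega, ?_⟩
          have h4 : 2 ^ a ≤ 2 ^ (k + 1) := (Nat.pow_le_pow_left hp1.two_le a).trans ha3
          exact (Nat.pow_le_pow_iff_right (by norm_num)).1 h4
        have := card_le_card hsub
        rw [Nat.card_Icc] at this
        omega
      calc ∑ a ∈ (Icc 2 M).filter (fun a : ℕ => 2 ^ k < p ^ a ∧ p ^ a ≤ M), (a : ℝ) * log p * f (p ^ a)
          ≤ ∑ a ∈ (Icc 2 M).filter (fun a : ℕ => 2 ^ k < p ^ a ∧ p ^ a ≤ M), ((k : ℝ) + 1) * c :=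
            sum_le_sum hterm
        _ = (((Icc 2 M).filter (fun a : ℕ => 2 ^ k < p ^ a ∧ p ^ a ≤ M)).card : ℝ) * (((k : ℝ) + 1) * c) := by
            rw [sum_const, nsmul_eq_mul]
        _ ≤ ((k : ℝ) + 1) * (((k : ℝ) + 1) * c) := by
            refine mul_le_mul_of_nonneg_right ?_ (mul_nonneg hk0 hc)
            exact_mod_cast hcard
        _ = ((k : ℝ) + 1) ^ 2 * c := by ring
    · refine le_of_eq (sum_eq_zero fun a ha => ?_)
      exfalso
      obtain ⟨ha1, _, ha3⟩ := mem_filter.1 ha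
      rw [mem_Icc] at ha1
      apply hps
      rw [hs, Nat.le_sqrt']
      exact (Nat.pow_le_pow_right hp1.pos ha1.1).trans ha3
  have h1 : ppF k f ≤ ∑ p ∈ (Icc 1 M).filter Nat.Prime, if p ≤ s then ((k : ℝ) + 1) ^ 2 * c else 0 :=
    sum_le_sum hin
  have hkc : 0 ≤ ((k : ℝ) + 1) ^ 2 * c := mul_nonneg (sq_nonneg _) hc
  have h2 : (∑ p ∈ (Icc 1 M).filter Nat.Prime, if p ≤ s then ((k : ℝ) + 1) ^ 2 * c else 0)
      ≤ ∑ p ∈ Icc 1 s, ((k : ℝ) + 1) ^ 2 * c := by
    rw [← sum_filter]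
    refine sum_le_sum_of_subset_of_nonneg ?_ fun _ _ _ => hkc
    intro p hp
    obtain ⟨hp1, hp2⟩ := mem_filter.1 hp
    obtain ⟨hp3, _⟩ := mem_filter.1 hp1
    rw [mem_Icc] at hp3 ⊢
    exact ⟨hp3.1, hp2⟩
  have h3 : (s : ℝ) ≤ √(2 ^ (k + 1)) := by
    apply Real.le_sqrt_of_sq_le
    have : s ^ 2 ≤ M := Nat.sqrt_le' M
    rw [hM] at this
    exact_mod_cast this
  calc ppF k f ≤ _ := h1
    _ ≤ _ := h2
    _ = (s : ℝ) * (((k : ℝ) + 1) ^ 2 * c) := by
        rw [sum_const, Nat.card_Icc, nsmul_eq_mul, Nat.add_sub_cancel]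
    _ ≤ √(2 ^ (k + 1)) * (((k : ℝ) + 1) ^ 2 * c) := mul_le_mul_of_nonneg_right h3 hkc
    _ = _ := by ring

/-- a constant times `(1 + 6 x²)` is at most `exp (x/8)` for large `x` -/
lemma pp_large (D : ℝ) : ∃ N0 : ℕ, ∀ N : ℕ, N0 ≤ N →
    1 ≤ log N ∧ D * (1 + 6 * l2 N ^ 2) ≤ exp (1 / 8 * l2 N) := by
  have h1 : Tendsto (fun x : ℝ => D * (1 + 6 * x ^ 2) * exp (-(1 / 8 * x))) atTop (nhds 0) := by
    have e1 : Tendsto (fun x : ℝ => x ^ 2 * exp (-((1 / 8) * x))) atTop (nhds 0) := by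
      have := Real.tendsto_pow_mul_exp_neg_atTop_nhds_zero 2
      have h8 : Tendsto (fun x : ℝ => (1 / 8) * x) atTop atTop :=
        Filter.Tendsto.const_mul_atTop (by norm_num) tendsto_id
      have h9 := (this.comp h8).const_mul 64
      rw [mul_zero] at h9
      refine h9.congr fun x => ?_
      simp only [Function.comp]
      ring
    have e2 : Tendsto (fun x : ℝ => exp (-((1 / 8) * x))) atTop (nhds 0) := by
      have h8 : Tendsto (fun x : ℝ => (1 / 8) * x) atTop atTop :=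
        Filter.Tendsto.const_mul_atTop (by norm_num) tendsto_id
      exact Real.tendsto_exp_neg_atTop_nhds_zero.comp h8
    have e3 := ((e1.const_mul 6).add e2).const_mul D
    rw [mul_zero, add_zero, mul_zero] at e3
    refine e3.congr fun x => ?_
    ring
  have h2 : ∀ᶠ x : ℝ in atTop, D * (1 + 6 * x ^ 2) ≤ exp (1 / 8 * x) := by
    filter_upwards [h1.eventually (gt_mem_nhds (show (0 : ℝ) < 1 by norm_num))] with x hx
    have e1 : exp (-(1 / 8 * x)) = (exp (1 / 8 * x))⁻¹ := Real.exp_neg _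
    rw [e1, ← div_eq_mul_inv, div_lt_one (exp_pos _)] at hx
    exact hx.le
  have h3 : Tendsto (fun N : ℕ => l2 N) atTop atTop :=
    Real.tendsto_log_atTop.comp (Real.tendsto_log_atTop.comp tendsto_natCast_atTop_atTop)
  have h4 : Tendsto (fun N : ℕ => log (N : ℝ)) atTop atTop :=
    Real.tendsto_log_atTop.comp tendsto_natCast_atTop_atTop
  have h5 := (h4.eventually_ge_atTop 1).and (h3.eventually h2)
  rw [eventually_atTop] at h5
  exact h5

lemma pp_expo {k : ℕ} {l : ℝ} (h : exp l ^ 3 ≤ 4 * 2 ^ k) :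
    √(2 ^ (k + 1)) / 2 ^ k ≤ 4 * exp (-(1 / 8) * log 2) ^ k * exp (-(9 / 8) * l) := by
  have hlog2 := Real.log_two_gt_d9
  have hlog2' := Real.log_two_lt_d9
  have h1 : 3 * l ≤ log 4 + k * log 2 := by
    have e1 := log_le_log (by positivity) h
    rw [Real.log_pow, Real.log_exp, Real.log_mul (by norm_num) (by positivity), Real.log_pow] at e1
    exact_mod_cast e1
  have h4 : log 4 = 2 * log 2 := by
    rw [show (4 : ℝ) = 2 ^ 2 by norm_num, Real.log_pow]
    norm_num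
  have e2 : (2 : ℝ) ^ k = exp (k * log 2) := by
    rw [Real.exp_nat_mul, Real.exp_log (by norm_num)]
  have e3 : √((2 : ℝ) ^ (k + 1)) = exp ((k + 1) / 2 * log 2) := by
    have e5 : (2 : ℝ) ^ (k + 1) = exp ((k + 1) / 2 * log 2) ^ 2 := by
      have : ((k + 1 : ℕ) : ℝ) * log 2 = ((2 : ℕ) : ℝ) * ((k + 1) / 2 * log 2) := by
        push_cast
        ring
      rw [← Real.exp_nat_mul, ← this, Real.exp_nat_mul, Real.exp_log (by norm_num)]
    rw [e5, Real.sqrt_sq (exp_pos _).le]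
  rw [e3, e2, ← Real.exp_sub, ← Real.exp_nat_mul, mul_assoc, ← Real.exp_add]
  have h5 : (4 : ℝ) = exp (2 * log 2) := by
    rw [← h4, Real.exp_log (by norm_num)]
  rw [h5, ← Real.exp_add]
  apply Real.exp_le_exp.2
  rw [h4] at h1
  nlinarith

theorem pp_ok : S_PP := by
  set r : ℝ := exp (-(1 / 8) * log 2) with hr
  have hr0 : 0 < r := exp_pos _
  have hr1 : r < 1 := by
    rw [hr, Real.exp_lt_one_iff]
    have := Real.log_two_gt_d9
    nlinarith
  have hsum : Summable (fun k : ℕ => ((k : ℝ) + 1) ^ 2 * r ^ k) := by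
    have h1 : Summable (fun k : ℕ => (k : ℝ) ^ 2 * r ^ k) :=
      summable_pow_mul_geometric_of_norm_lt_one 2 (by rwa [Real.norm_of_nonneg hr0.le])
    have h2 := ((summable_nat_add_iff 1).2 h1).mul_left r⁻¹
    refine h2.congr fun k => ?_
    rw [pow_succ r k]
    push_cast
    field_simp
  set S : ℝ := ∑' k : ℕ, ((k : ℝ) + 1) ^ 2 * r ^ k with hS
  obtain ⟨N0, hN0⟩ := pp_large (4 * 300000 * S)
  refine ⟨max N0 1, fun N hN hp ι B w lam hF => ?_⟩
  obtain ⟨hlog, hD⟩ := hN0 N (le_trans (le_max_left _ _) hN)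
  set l := l2 N with hl
  have hexp : exp l = log N := by
    rw [hl, l2, Real.exp_log (by linarith)]
  have hN1 : (0 : ℝ) < N := by exact_mod_cast hp.pos
  set c : ℝ := 300000 * (1 + 6 * l ^ 2) with hc
  have hc0 : 0 ≤ c := by positivity
  let K : Finset ℕ := (range (⌊(N : ℝ) * l ^ 2⌋₊ + 1)).filter
    (fun k => log N ^ 3 ≤ 4 * 2 ^ k ∧ ((2 ^ k : ℕ) : ℝ) ≤ N * l ^ 2)
  have hK : ∀ k, log N ^ 3 ≤ 4 * 2 ^ k → ((2 ^ k : ℕ) : ℝ) ≤ N * l ^ 2 → k ∈ K := by
    intro k h1 h2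
    refine mem_filter.2 ⟨mem_range.2 ?_, h1, h2⟩
    have h3 : 2 ^ k ≤ ⌊(N : ℝ) * l ^ 2⌋₊ := Nat.le_floor h2
    have h4 : k < 2 ^ k := Nat.lt_two_pow_self
    omega
  have hmain : ∀ k ∈ K, Few B w (4 * c * exp (-(9 / 8) * l) * (((k : ℝ) + 1) ^ 2 * r ^ k))
      (fun i => ppF k (gN N (lam i)) ≤ 2 ^ k) := by
    intro k hk
    obtain ⟨_, hk1, hk2⟩ := mem_filter.1 hk
    have hZ : (0 : ℝ) < 2 ^ k := by positivity
    have hmean : ∑ i ∈ B, w i * ppF k (gN N (lam i)) ≤ √(2 ^ (k + 1)) * ((k : ℝ) + 1) ^ 2 * c := by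
      calc ∑ i ∈ B, w i * ppF k (gN N (lam i)) ≤ ∑ i ∈ B, w i * ppF k (fun n => lam i n ^ 2) := by
            refine sum_le_sum fun i hi => mul_le_mul_of_nonneg_left (ppF_mono k fun n => ?_) (hF.w0 i hi)
            unfold gN
            split_ifs
            · exact sq_nonneg _
            · exact le_rfl
        _ = ppF k (fun n => ∑ i ∈ B, w i * lam i n ^ 2) := ppF_sum B w lam k
        _ ≤ _ := by
            refine ppF_le k _ c hc0 fun n hn1 hn2 => ?_
            refine (hF.ls_one hn1).trans ?_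
            rw [hc]
            refine mul_le_mul_of_nonneg_left ?_ (by norm_num)
            have h5 : (n : ℝ) ≤ 2 * (N * l ^ 2) := by
              have h6 : (n : ℝ) ≤ ((2 ^ (k + 1) : ℕ) : ℝ) := by exact_mod_cast hn2
              push_cast at h6 hk2
              rw [pow_succ] at h6
              linarith
            have h7 : 3 * (n : ℝ) / N ≤ 6 * l ^ 2 := by
              rw [div_le_iff₀ hN1]
              linarith
            linarith
    have hg : ∀ i ∈ B, 0 ≤ ppF k (gN N (lam i)) := by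
      intro i _
      refine ppF_nonneg k fun n => ?_
      unfold gN
      split_ifs
      · exact le_rfl
      · exact sq_nonneg _
    refine (few_of_mean hF.w0 hg hZ hmean).mono ?_ fun i _ h => h
    have h8 := pp_expo (k := k) (l := l) (by rw [hexp]; exact hk1)
    rw [← hr] at h8
    calc √(2 ^ (k + 1)) * ((k : ℝ) + 1) ^ 2 * c / 2 ^ k
        = (√(2 ^ (k + 1)) / 2 ^ k) * (((k : ℝ) + 1) ^ 2 * c) := by ring
      _ ≤ (4 * r ^ k * exp (-(9 / 8) * l)) * (((k : ℝ) + 1) ^ 2 * c) :=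
          mul_le_mul_of_nonneg_right h8 (by positivity)
      _ = _ := by ring
  refine (Few.ball hF.w0 K _ _ hmain).mono ?_ fun i _ h k hk1 hk2 => h k (hK k hk1 hk2)
  rw [← mul_sum]
  have h9 : ∑ k ∈ K, (((k : ℝ) + 1) ^ 2 * r ^ k) ≤ S :=
    hsum.sum_le_tsum K fun k _ => by positivity
  calc 4 * c * exp (-(9 / 8) * l) * ∑ k ∈ K, (((k : ℝ) + 1) ^ 2 * r ^ k)
      ≤ 4 * c * exp (-(9 / 8) * l) * S := mul_le_mul_of_nonneg_left h9 (by positivity)
    _ = (4 * 300000 * S * (1 + 6 * l ^ 2)) * exp (-(9 / 8) * l) := by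
        rw [hc]
        ring
    _ ≤ exp (1 / 8 * l) * exp (-(9 / 8) * l) := mul_le_mul_of_nonneg_right hD (exp_pos _).le
    _ = exp (-l) := by
        rw [← Real.exp_add]
        congr 1
        ring

end Pool.Agent.H485.LD
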