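import Pool.Agent.H485.LD.Stm

/-!
# Project LD (helper485), part PR (helper977)
-/

set_option autoImplicit false

namespace Pool.Agent.H485.LD

open Real Finset Filter

lemma pr_geom_up (K : Finset ℕ) (A : ℝ) (hA : 0 ≤ A) (h : ∀ k ∈ K, (2 : ℝ) ^ k ≤ A) :
    ∑ k ∈ K, (2 : ℝ) ^ k ≤ 2 * A := by
  rcases K.eq_empty_or_nonempty with rfl | hK
  · simpa using hA
  have h1 : K ⊆ range (K.max' hK + 1) := fun k hk => by
    rw [mem_range]
    exact Nat.lt_succ_of_le (K.le_max' k hk)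
  have h2 := sum_le_sum_of_subset_of_nonneg (f := fun k : ℕ => (2 : ℝ) ^ k) h1
    fun k _ _ => by positivity
  refine h2.trans ?_
  rw [geom_sum_eq (by norm_num), pow_succ]
  have h3 := h _ (K.max'_mem hK)
  have h4 : (0 : ℝ) < 2 ^ K.max' hK := by positivity
  rw [div_le_iff₀ (by norm_num)]
  linarith

lemma pr_geom_down (K : Finset ℕ) (b : ℝ) (hb : 0 < b) (h : ∀ k ∈ K, b ≤ (2 : ℝ) ^ k) :
    ∑ k ∈ K, 1 / (2 : ℝ) ^ k ≤ 2 / b := by
  rcases K.eq_empty_or_nonempty with rfl | hK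
  · rw [sum_empty]; positivity
  have h1 : K ⊆ Ico (K.min' hK) (K.max' hK + 1) := fun k hk => by
    rw [mem_Ico]
    exact ⟨K.min'_le k hk, Nat.lt_succ_of_le (K.le_max' k hk)⟩
  have e : ∀ k : ℕ, 1 / (2 : ℝ) ^ k = (1 / 2 : ℝ) ^ k := fun k => by rw [div_pow, one_pow]
  simp only [e]
  have h2 := sum_le_sum_of_subset_of_nonneg (f := fun k : ℕ => (1 / 2 : ℝ) ^ k) h1
    fun k _ _ => by positivity
  refine h2.trans ?_
  refine (geom_sum_Ico_le_of_lt_one (by norm_num) (by norm_num)).trans ?_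
  have h3 := h _ (K.min'_mem hK)
  rw [← e]
  have h4 : (0 : ℝ) < 2 ^ K.min' hK := by positivity
  have h5 : 1 / (2 : ℝ) ^ K.min' hK ≤ 1 / b := one_div_le_one_div_of_le hb h3
  have h6 : 1 / (2 : ℝ) ^ K.min' hK / (1 - 1 / 2) = 2 * (1 / (2 : ℝ) ^ K.min' hK) := by ring
  rw [h6]
  calc 2 * (1 / (2 : ℝ) ^ K.min' hK) ≤ 2 * (1 / b) := mul_le_mul_of_nonneg_left h5 (by norm_num)
    _ = 2 / b := by ring

lemma pr_theta (k : ℕ) :
    ∑ p ∈ (Ioc (2 ^ k : ℕ) (2 ^ (k + 1) : ℕ)).filter Nat.Prime, log p ≤ 2.8 * 2 ^ k := by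
  have h1 := Chebyshev.theta_le_log4_mul_x (x := ((2 ^ (k + 1) : ℕ) : ℝ)) (Nat.cast_nonneg _)
  have h2 : ∑ p ∈ (Ioc (2 ^ k : ℕ) (2 ^ (k + 1) : ℕ)).filter Nat.Prime, log p ≤
      Chebyshev.theta ((2 ^ (k + 1) : ℕ) : ℝ) := by
    unfold Chebyshev.theta
    rw [Nat.floor_natCast]
    refine sum_le_sum_of_subset_of_nonneg ?_ fun p hp _ => ?_
    · intro p hp
      rw [mem_filter, mem_Ioc] at hp ⊢
      exact ⟨⟨by omega, hp.1.2⟩, hp.2⟩
    · rw [mem_filter] at hp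
      exact log_nonneg (by exact_mod_cast hp.2.one_lt.le)
  refine h2.trans (h1.trans ?_)
  have h3 : log 4 ≤ 1.4 := by
    have : log 4 = 2 * log 2 := by
      rw [show (4 : ℝ) = 2 ^ 2 by norm_num, log_pow]
      norm_num
    rw [this]
    have := Real.log_two_lt_d9
    linarith
  have h4 : (0 : ℝ) < 2 ^ k := by positivity
  push_cast
  rw [pow_succ]
  nlinarith

variable {N : ℕ} {ι : Type} {B : Finset ι} {w : ι → ℝ} {lam : ι → ℕ → ℝ}

lemma pr_split (hF : Fam N B w lam) (s : Finset ℕ) (hs : ∀ p ∈ s, p.Prime) (i : ι) (hi : i ∈ B) :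
    ∑ p ∈ s, log p * gN N (lam i) p =
      ∑ p ∈ s.filter (fun p => ¬ N ∣ p), log p +
        ∑ p ∈ s.filter (fun p => ¬ N ∣ p), log p * lam i (p ^ 2) := by
  rw [← sum_add_distrib, sum_filter]
  refine sum_congr rfl fun p hp => ?_
  unfold gN
  by_cases h : N ∣ p
  · rw [if_pos h, if_neg (not_not.2 h), mul_zero]
  · rw [if_neg h, if_pos h, hF.sq i hi p h, (hs p hp).sum_divisors, one_pow, hF.one i hi]
    ring

lemma pr_one (hF : Fam N B w lam) (k : ℕ) (τ : ℝ) (hτ : 0 < τ) (hN : 0 < N)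
    (hlog : log ((2 : ℝ) ^ (k + 1)) ≤ 2 * log N) :
    Few B w (1680000 * log N / τ ^ 2 * (1 / 2 ^ k + 12 * 2 ^ k / N)) (fun i =>
      ∑ p ∈ (Ioc (2 ^ k : ℕ) (2 ^ (k + 1) : ℕ)).filter Nat.Prime, log p * gN N (lam i) p ≤
        (2.8 + τ) * 2 ^ k) := by
  classical
  set s := (Ioc (2 ^ k : ℕ) (2 ^ (k + 1) : ℕ)).filter Nat.Prime with hs
  have hsp : ∀ p ∈ s, p.Prime := fun p hp => (mem_filter.1 hp).2
  have hsI : ∀ p ∈ s, 2 ^ k < p ∧ p ≤ 2 ^ (k + 1) := fun p hp => mem_Ioc.1 (mem_filter.1 hp).1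
  have hZ : (0 : ℝ) < 2 ^ k := by positivity
  have hNr : (0 : ℝ) < N := by exact_mod_cast hN
  have hlogp : ∀ p ∈ s, 0 ≤ log p := fun p hp => log_nonneg (by exact_mod_cast (hsp p hp).one_lt.le)
  have hlogp2 : ∀ p ∈ s, log p ≤ 2 * log N := by
    intro p hp
    refine le_trans (log_le_log (by exact_mod_cast (hsp p hp).pos) ?_) hlog
    exact_mod_cast (hsI p hp).2
  have hθ : ∑ p ∈ s.filter (fun p => ¬ N ∣ p), log p ≤ 2.8 * 2 ^ k := by
    refine le_trans (sum_le_sum_of_subset_of_nonneg (filter_subset _ _) fun p hp _ => hlogp p hp) ?_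
    exact pr_theta k
  have hM1 : (1 : ℝ) ≤ 2 ^ (k + 1) := one_le_pow₀ (by norm_num)
  have hls := hF.ls_sq hM1 (s.filter fun p => ¬ N ∣ p) (by
    intro e he
    have h1 := (mem_filter.1 he).1
    refine ⟨(hsp e h1).pos, ?_⟩
    exact_mod_cast (hsI e h1).2) (fun p => log p)
  have hsq : ∑ e ∈ s.filter (fun p => ¬ N ∣ p), log (e : ℝ) ^ 2 ≤ 2 * log N * (2.8 * 2 ^ k) := by
    have hN0 : 0 ≤ 2 * log N := by
      have : 0 ≤ log ((2 : ℝ) ^ (k + 1)) := log_nonneg hM1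
      linarith
    calc ∑ e ∈ s.filter (fun p => ¬ N ∣ p), log (e : ℝ) ^ 2
        ≤ ∑ e ∈ s.filter (fun p => ¬ N ∣ p), 2 * log N * log e := by
          refine sum_le_sum fun p hp => ?_
          have h1 := (mem_filter.1 hp).1
          rw [sq]
          exact mul_le_mul_of_nonneg_right (hlogp2 p h1) (hlogp p h1)
      _ = 2 * log N * ∑ e ∈ s.filter (fun p => ¬ N ∣ p), log e := by rw [mul_sum]
      _ ≤ _ := mul_le_mul_of_nonneg_left hθ hN0
  have hV : ∑ i ∈ B, w i * (∑ e ∈ s.filter (fun p => ¬ N ∣ p), log (e : ℝ) * lam i (e ^ 2)) ^ 2 ≤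
      300000 * (1 + 12 * (2 ^ k) ^ 2 / N) * (2 * log N * (2.8 * 2 ^ k)) := by
    refine hls.trans ?_
    have e1 : 3 * ((2 : ℝ) ^ (k + 1)) ^ 2 / N = 12 * (2 ^ k) ^ 2 / N := by
      rw [pow_succ]; ring
    rw [e1]
    exact mul_le_mul_of_nonneg_left hsq (by positivity)
  have hT : 0 < τ * 2 ^ k := by positivity
  refine (few_of_sq hF.w0 hT hV).mono (le_of_eq ?_) ?_
  · field_simp
    ring
  · intro i hi h
    rw [pr_split hF s hsp i hi]
    have := (abs_le.1 h).2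
    nlinarith

lemma pr_sum (L τ : ℝ) (hL : 0 ≤ L) (hN : 0 < N) (K : Finset ℕ) (A b : ℝ) (hA : 0 ≤ A)
    (hb : 0 < b) (h1 : ∀ k ∈ K, (2 : ℝ) ^ k ≤ A) (h2 : ∀ k ∈ K, b ≤ (2 : ℝ) ^ k) :
    ∑ k ∈ K, 1680000 * L / τ ^ 2 * (1 / 2 ^ k + 12 * 2 ^ k / N) ≤
      1680000 * L / τ ^ 2 * (2 / b + 24 * A / N) := by
  have hNr : (0 : ℝ) < N := by exact_mod_cast hN
  rw [← mul_sum, sum_add_distrib]
  refine mul_le_mul_of_nonneg_left ?_ (by positivity)
  refine add_le_add (pr_geom_down K b hb h2) ?_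
  have e : ∀ k : ℕ, 12 * (2 : ℝ) ^ k / N = 12 / N * 2 ^ k := fun k => by ring
  simp only [e]
  rw [← mul_sum]
  have h3 := mul_le_mul_of_nonneg_left (pr_geom_up K A hA h1) (show 0 ≤ 12 / (N : ℝ) by positivity)
  refine h3.trans (le_of_eq ?_)
  ring

lemma pr_l2_top : Tendsto l2 atTop atTop := by
  unfold l2
  exact tendsto_log_atTop.comp (tendsto_log_atTop.comp tendsto_natCast_atTop_atTop)

theorem pr_ok : S_PR := by
  intro ε hε hε1
  -- the conditions for `N`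
  have c1 : ∀ᶠ N : ℕ in atTop, (4300800 : ℝ) ≤ log N :=
    (tendsto_log_atTop.comp tendsto_natCast_atTop_atTop).eventually_ge_atTop _
  have c2 : ∀ᶠ N : ℕ in atTop, 1 ≤ l2 N := pr_l2_top.eventually_ge_atTop _
  have c3 : ∀ᶠ N : ℕ in atTop, 2 * l2 N ^ 2 ≤ N := by
    have h1 : Tendsto (fun x : ℝ => log x ^ 2 / x) atTop (nhds 0) := by
      have := Real.isLittleO_pow_log_id_atTop (n := 2)
      exact this.tendsto_div_nhds_zero
    have h2 := (h1.comp tendsto_natCast_atTop_atTop).eventually_lt_const (show (0 : ℝ) < 1 / 2 by norm_num)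
    filter_upwards [h2, c1, c2, eventually_gt_atTop 0] with N hN hL hl hN0
    have hNr : (0 : ℝ) < N := by exact_mod_cast hN0
    have h3 : log (N : ℝ) ^ 2 / N < 1 / 2 := hN
    rw [div_lt_iff₀ hNr] at h3
    have h4 : l2 N ≤ log N := by
      unfold l2
      have := Real.log_le_sub_one_of_pos (show 0 < log (N : ℝ) by linarith)
      linarith
    have h5 : l2 N ^ 2 ≤ log N ^ 2 := pow_le_pow_left₀ (by linarith) h4 2
    linarith
  have c4 : ∀ᶠ N : ℕ in atTop, (5.6 : ℝ) ≤ exp ((1 - ε / 3) * l2 N) := by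
    have : Tendsto (fun N : ℕ => exp ((1 - ε / 3) * l2 N)) atTop atTop :=
      tendsto_exp_atTop.comp (pr_l2_top.const_mul_atTop (by linarith))
    exact this.eventually_ge_atTop _
  have c5 : ∀ᶠ N : ℕ in atTop, 168000000 * (l2 N ^ 2 * exp (-(ε / 3 * l2 N))) ≤ 1 / 2 := by
    have h1 : Tendsto (fun N : ℕ => ε / 3 * l2 N) atTop atTop :=
      pr_l2_top.const_mul_atTop (by positivity)
    have h2 := ((tendsto_pow_mul_exp_neg_atTop_nhds_zero 2).comp h1).const_mul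
      (168000000 * (9 / ε ^ 2))
    rw [mul_zero] at h2
    filter_upwards [h2.eventually_le_const (show (0 : ℝ) < 1 / 2 by norm_num)] with N hN
    refine le_trans (le_of_eq ?_) hN
    simp only [Function.comp]
    field_simp
    ring
  obtain ⟨N0, hN0⟩ := eventually_atTop.1 (c1.and (c2.and (c3.and (c4.and (c5.and (eventually_gt_atTop 0))))))
  refine ⟨N0, fun N hN hNp ι B w lam hF => ?_⟩
  obtain ⟨hL, hl, hlN, hE, h5, hNpos⟩ := hN0 N hN
  classical
  have hNr : (0 : ℝ) < N := by exact_mod_cast hNpos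
  set L := log (N : ℝ) with hLd
  set l := l2 N with hld
  set E := exp ((1 - ε / 3) * l) with hEd
  have hL0 : 0 < L := by linarith
  have hexpl : exp l = L := by
    rw [hld, l2, exp_log hL0]
  -- the set of the `k`
  set K := (range (⌊(N : ℝ) * l ^ 2⌋₊ + 1)).filter
    (fun k : ℕ => L ^ 3 ≤ 4 * 2 ^ k ∧ (2 : ℝ) ^ k ≤ N * l ^ 2) with hK
  have hKmem : ∀ k : ℕ, L ^ 3 ≤ 4 * 2 ^ k → (2 : ℝ) ^ k ≤ N * l ^ 2 → k ∈ K := by
    intro k h1 h2
    rw [hK, mem_filter, mem_range]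
    refine ⟨Nat.lt_succ_of_le (Nat.le_floor (le_trans ?_ h2)), h1, h2⟩
    have : (k : ℝ) < 2 ^ k := by exact_mod_cast Nat.lt_two_pow_self
    exact this.le
  have hKlog : ∀ k ∈ K, log ((2 : ℝ) ^ (k + 1)) ≤ 2 * log N := by
    intro k hk
    have h1 := (mem_filter.1 hk).2.2
    have e : 2 * log (N : ℝ) = log ((N : ℝ) ^ 2) := by rw [log_pow]; norm_num
    rw [e]
    refine log_le_log (by positivity) ?_
    rw [pow_succ]
    nlinarith
  have hKlo : ∀ k ∈ K, L ^ 3 / 4 ≤ (2 : ℝ) ^ k := by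
    intro k hk
    have h1 := (mem_filter.1 hk).2.1
    linarith
  set K1 := K.filter (fun k : ℕ => (2 : ℝ) ^ k ≤ N / L ^ 3) with hK1
  have f1 := Few.ball hF.w0 K1 _ _ (fun k hk => pr_one hF k 5 (by norm_num) hNpos
    (hKlog k (mem_filter.1 hk).1))
  have f2 := Few.ball hF.w0 K _ _ (fun k hk => pr_one hF k (E / 2) (by positivity) hNpos (hKlog k hk))
  have hb : 0 < L ^ 3 / 4 := by positivity
  have g1 := pr_sum (N := N) L 5 hL0.le hNpos K1 (N / L ^ 3) (L ^ 3 / 4) (by positivity) hb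
    (fun k hk => (mem_filter.1 hk).2) (fun k hk => hKlo k (mem_filter.1 hk).1)
  have g2 := pr_sum (N := N) L (E / 2) hL0.le hNpos K (N * l ^ 2) (L ^ 3 / 4) (by positivity) hb
    (fun k hk => (mem_filter.1 hk).2.2) hKlo
  refine (f1.and hF.w0 f2).mono ?_ ?_
  · -- the weights
    refine (add_le_add g1 g2).trans ?_
    have hx : exp (-(1 - ε) * l) = exp (-l) * exp (ε * l) := by
      rw [← exp_add]; congr 1; ring
    have hexpm : exp (-l) = 1 / L := by rw [exp_neg, hexpl, one_div]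
    have k1 : 1680000 * L / 5 ^ 2 * (2 / (L ^ 3 / 4) + 24 * (N / L ^ 3) / N) ≤
        1 / 2 * exp (-(1 - ε) * l) := by
      have e1 : 1680000 * L / 5 ^ 2 * (2 / (L ^ 3 / 4) + 24 * (N / L ^ 3) / N) =
          (2150400 / L) * (1 / L) := by
        field_simp
        ring
      rw [e1]
      have e2 : 2150400 / L ≤ 1 / 2 := by
        rw [div_le_iff₀ hL0]
        linarith
      have e3 : 1 / L ≤ exp (-(1 - ε) * l) := by
        rw [hx, hexpm]
        refine le_mul_of_one_le_right (by positivity) (one_le_exp (by positivity))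
      exact mul_le_mul e2 e3 (by positivity) (by norm_num)
    have k2 : 1680000 * L / (E / 2) ^ 2 * (2 / (L ^ 3 / 4) + 24 * (N * l ^ 2) / N) ≤
        1 / 2 * exp (-(1 - ε) * l) := by
      have e1 : 2 / (L ^ 3 / 4) + 24 * (N * l ^ 2) / N ≤ 25 * l ^ 2 := by
        have e2 : 2 / (L ^ 3 / 4) ≤ 1 := by
          rw [div_le_one hb]
          have : (4300800 : ℝ) ^ 3 ≤ L ^ 3 := pow_le_pow_left₀ (by norm_num) hL 3
          norm_num at this
          linarith
        have e3 : 24 * (N * l ^ 2) / N = 24 * l ^ 2 := by field_simp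
        rw [e3]
        nlinarith
      have e4 : L / E ^ 2 = exp (-(1 - ε) * l) * exp (-(ε / 3 * l)) := by
        rw [← hexpl, hEd, ← exp_nat_mul, ← exp_sub, ← exp_add]
        congr 1
        push_cast
        ring
      calc 1680000 * L / (E / 2) ^ 2 * (2 / (L ^ 3 / 4) + 24 * (N * l ^ 2) / N)
          ≤ 1680000 * L / (E / 2) ^ 2 * (25 * l ^ 2) :=
            mul_le_mul_of_nonneg_left e1 (by positivity)
        _ = 168000000 * l ^ 2 * (L / E ^ 2) := by ring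
        _ = 168000000 * (l ^ 2 * exp (-(ε / 3 * l))) * exp (-(1 - ε) * l) := by rw [e4]; ring
        _ ≤ 1 / 2 * exp (-(1 - ε) * l) := mul_le_mul_of_nonneg_right h5 (exp_pos _).le
    linarith
  · -- the conclusion
    rintro i _ ⟨h1, h2⟩ k hk
    refine ⟨fun hk2 => ?_, fun hk2 => ?_⟩
    · have hk2' : (2 : ℝ) ^ k ≤ N / L ^ 3 := by
        refine le_trans (le_of_eq ?_) hk2
        push_cast; rfl
      have hk3 : (2 : ℝ) ^ k ≤ N * l ^ 2 := by
        refine hk2'.trans ?_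
        rw [div_le_iff₀ (by positivity)]
        have e1 : (1 : ℝ) ≤ l ^ 2 * L ^ 3 := by
          have e2 : (1 : ℝ) ≤ l ^ 2 := one_le_pow₀ hl
          have e3 : (1 : ℝ) ≤ L ^ 3 := one_le_pow₀ (by linarith)
          nlinarith
        nlinarith
      have h3 := h1 k (mem_filter.2 ⟨hKmem k hk hk3, hk2'⟩)
      refine h3.trans ?_
      have : (0 : ℝ) < 2 ^ k := by positivity
      nlinarith
    · have hk3 : (2 : ℝ) ^ k ≤ N * l ^ 2 := by
        refine le_trans (le_of_eq ?_) hk2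
        push_cast; rfl
      have h3 := h2 k (hKmem k hk hk3)
      refine h3.trans ?_
      refine mul_le_mul_of_nonneg_right ?_ (by positivity)
      linarith

end Pool.Agent.H485.LD
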