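import Pool.Agent.H485.LD.Stm

/-!
# Project LD (helper485), part PSI (helper686)
-/

set_option autoImplicit false

namespace Pool.Agent.H485.LD

open Real Finset Filter

private lemma psi_w_nonneg {g : ℕ → ℝ} (hg : ∀ n, 0 ≤ g n) (p a : ℕ) :
    0 ≤ (a : ℝ) * log p * g (p ^ a) :=
  mul_nonneg (mul_nonneg (Nat.cast_nonneg a) (Real.log_natCast_nonneg p)) (hg _)

/-- the sum over a common range -/
private lemma psi_eq (g : ℕ → ℝ) {z M : ℕ} (h : z ≤ M) :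
    Psi g z = ∑ p ∈ (Icc 1 M).filter Nat.Prime, ∑ a ∈ Icc 1 M,
      if p ^ a ≤ z then (a : ℝ) * log p * g (p ^ a) else 0 := by
  unfold Psi
  have h1 : ∀ p ∈ (Icc 1 M).filter Nat.Prime, (∑ a ∈ (Icc 1 z).filter (fun a => p ^ a ≤ z),
      (a : ℝ) * log p * g (p ^ a)) = ∑ a ∈ Icc 1 M,
      if p ^ a ≤ z then (a : ℝ) * log p * g (p ^ a) else 0 := by
    intro p hp
    have hp2 := (mem_filter.1 hp).2.two_le
    rw [sum_filter]
    apply sum_subset (Icc_subset_Icc_right h)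
    intro a ha ha'
    rw [mem_Icc] at ha ha'
    rw [if_neg]
    intro h2
    have h3 : a < p ^ a := Nat.lt_pow_self (by omega)
    omega
  rw [← sum_congr rfl h1]
  apply sum_subset (filter_subset_filter _ (Icc_subset_Icc_right h))
  intro p hp hp'
  have hpp := (mem_filter.1 hp).2
  have h5 : z < p := by
    by_contra hcon
    exact hp' (mem_filter.2 ⟨mem_Icc.2 ⟨hpp.one_le, by omega⟩, hpp⟩)
  apply sum_eq_zero
  intro a ha
  exfalso
  rw [mem_filter, mem_Icc] at ha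
  have h6 : p ^ 1 ≤ p ^ a := Nat.pow_le_pow_right hpp.pos ha.1.1
  rw [pow_one] at h6
  omega

private lemma psi_mono {g : ℕ → ℝ} (hg : ∀ n, 0 ≤ g n) {z z' : ℕ} (h : z ≤ z') :
    Psi g z ≤ Psi g z' := by
  rw [psi_eq g h, psi_eq g le_rfl]
  refine sum_le_sum fun p _ => sum_le_sum fun a _ => ?_
  split_ifs with h1 h2 h2
  · exact le_rfl
  · exact absurd (h1.trans h) h2
  · exact psi_w_nonneg hg p a
  · exact le_rfl

/-- the part of the dyadic interval `(2^k, 2^(k+1)]` -/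
private lemma psi_step (g : ℕ → ℝ) (k : ℕ) :
    Psi g (2 ^ (k + 1)) = Psi g (2 ^ k) +
      (∑ p ∈ (Ioc (2 ^ k : ℕ) (2 ^ (k + 1) : ℕ)).filter Nat.Prime, log p * g p +
      ∑ p ∈ (Icc 1 (2 ^ (k + 1) : ℕ)).filter Nat.Prime,
        ∑ a ∈ (Icc 2 (2 ^ (k + 1) : ℕ)).filter (fun a : ℕ => 2 ^ k < p ^ a ∧ p ^ a ≤ 2 ^ (k + 1)),
          (a : ℝ) * log p * g (p ^ a)) := by
  have hk : 2 ^ k ≤ 2 ^ (k + 1) := Nat.pow_le_pow_right two_pos (Nat.le_succ k)
  rw [psi_eq g (le_refl (2 ^ (k + 1))), psi_eq g hk]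
  have h1 : ∑ p ∈ (Ioc (2 ^ k : ℕ) (2 ^ (k + 1) : ℕ)).filter Nat.Prime, log p * g p =
      ∑ p ∈ (Icc 1 (2 ^ (k + 1) : ℕ)).filter Nat.Prime,
        if 2 ^ k < p ^ 1 ∧ p ^ 1 ≤ 2 ^ (k + 1) then ((1 : ℕ) : ℝ) * log p * g (p ^ 1) else 0 := by
    have e : (Ioc (2 ^ k : ℕ) (2 ^ (k + 1) : ℕ)).filter Nat.Prime =
        ((Icc 1 (2 ^ (k + 1) : ℕ)).filter Nat.Prime).filter
          (fun p => 2 ^ k < p ^ 1 ∧ p ^ 1 ≤ 2 ^ (k + 1)) := by
      ext p
      simp only [mem_filter, mem_Ioc, mem_Icc, pow_one]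
      constructor
      · rintro ⟨⟨h1, h2⟩, h3⟩
        exact ⟨⟨⟨h3.one_le, h2⟩, h3⟩, h1, h2⟩
      · rintro ⟨⟨⟨_, _⟩, h3⟩, h1, h2⟩
        exact ⟨⟨h1, h2⟩, h3⟩
    rw [e, sum_filter]
    refine sum_congr rfl fun p _ => ?_
    simp
  rw [h1, ← sum_add_distrib, ← sum_add_distrib]
  refine sum_congr rfl fun p hp => ?_
  have hM : 1 ≤ 2 ^ (k + 1) := Nat.one_le_two_pow
  have h2 : (Icc 1 (2 ^ (k + 1)) : Finset ℕ) = insert 1 (Icc 2 (2 ^ (k + 1))) := by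
    ext a
    rw [mem_insert, mem_Icc, mem_Icc]
    omega
  have h3 : (1 : ℕ) ∉ (Icc 2 (2 ^ (k + 1)) : Finset ℕ) := by
    rw [mem_Icc]
    omega
  rw [sum_filter]
  have h4 : (if 2 ^ k < p ^ 1 ∧ p ^ 1 ≤ 2 ^ (k + 1) then ((1 : ℕ) : ℝ) * log p * g (p ^ 1) else 0) +
      ∑ a ∈ (Icc 2 (2 ^ (k + 1)) : Finset ℕ), (if 2 ^ k < p ^ a ∧ p ^ a ≤ 2 ^ (k + 1) then
        (a : ℝ) * log p * g (p ^ a) else 0) = ∑ a ∈ (Icc 1 (2 ^ (k + 1)) : Finset ℕ),
        (if 2 ^ k < p ^ a ∧ p ^ a ≤ 2 ^ (k + 1) then (a : ℝ) * log p * g (p ^ a) else 0) := by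
    rw [h2, sum_insert h3]
  rw [h4, ← sum_add_distrib]
  refine sum_congr rfl fun a _ => ?_
  by_cases h5 : p ^ a ≤ 2 ^ k
  · have h6 : p ^ a ≤ 2 ^ (k + 1) := h5.trans hk
    rw [if_pos h6, if_pos h5, if_neg (fun h => absurd h5 (not_le.2 h.1)), add_zero]
  · by_cases h6 : p ^ a ≤ 2 ^ (k + 1)
    · rw [if_pos h6, if_neg h5, if_pos ⟨not_le.1 h5, h6⟩, zero_add]
    · rw [if_neg h6, if_neg h5, if_neg (fun h => h6 h.2), zero_add]

/-- the iteration over the dyadic intervals -/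
private lemma psi_iter (g : ℕ → ℝ) (c : ℝ) (k0 : ℕ) (d : ℕ)
    (h : ∀ k, k0 ≤ k → k < k0 + d →
      ∑ p ∈ (Ioc (2 ^ k : ℕ) (2 ^ (k + 1) : ℕ)).filter Nat.Prime, log p * g p +
      ∑ p ∈ (Icc 1 (2 ^ (k + 1) : ℕ)).filter Nat.Prime,
        ∑ a ∈ (Icc 2 (2 ^ (k + 1) : ℕ)).filter (fun a : ℕ => 2 ^ k < p ^ a ∧ p ^ a ≤ 2 ^ (k + 1)),
          (a : ℝ) * log p * g (p ^ a) ≤ c * 2 ^ k) :
    Psi g (2 ^ (k0 + d)) ≤ Psi g (2 ^ k0) + c * (2 ^ (k0 + d) - 2 ^ k0) := by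
  induction d with
  | zero => simp
  | succ d ih =>
    have h1 := ih fun k hk hk' => h k hk (by omega)
    have h2 := h (k0 + d) (by omega) (by omega)
    have h3 := psi_step g (k0 + d)
    rw [← add_assoc, h3]
    have h4 : (2 : ℝ) ^ (k0 + d + 1) = 2 ^ (k0 + d) * 2 := pow_succ _ _
    rw [h4]
    nlinarith [h1, h2]

private lemma psi_summ : Summable fun a : ℕ => ((a : ℝ) * (4 * ((a : ℝ) + 1) ^ 2)) * (1 / 2) ^ a := by
  have h3 := summable_pow_mul_geometric_of_norm_lt_one (R := ℝ) 3 (r := 1 / 2) (by norm_num)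
  have h2 := summable_pow_mul_geometric_of_norm_lt_one (R := ℝ) 2 (r := 1 / 2) (by norm_num)
  have h1 := summable_pow_mul_geometric_of_norm_lt_one (R := ℝ) 1 (r := 1 / 2) (by norm_num)
  refine (((h3.mul_left 4).add (h2.mul_left 8)).add (h1.mul_left 4)).congr fun a => ?_
  ring

/-- the sum with the divisor bound -/
private lemma psi_small : ∃ C : ℝ, 0 < C ∧ ∀ z : ℕ,
    ∑ p ∈ (Icc 1 z).filter Nat.Prime, ∑ a ∈ (Icc 1 z).filter (fun a => p ^ a ≤ z),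
      (a : ℝ) * log p * (4 * ((a : ℝ) + 1) ^ 2) ≤ C * z := by
  set M : ℝ := ∑' a : ℕ, ((a : ℝ) * (4 * ((a : ℝ) + 1) ^ 2)) * (1 / 2) ^ a with hM
  have hS : Summable fun n : ℕ => 1 / (n : ℝ) ^ (3 / 2 : ℝ) :=
    Real.summable_one_div_nat_rpow.2 (by norm_num)
  set S : ℝ := ∑' n : ℕ, 1 / (n : ℝ) ^ (3 / 2 : ℝ) with hSdef
  have hM0 : 0 ≤ M := tsum_nonneg fun a => by positivity
  have hS0 : 0 ≤ S := tsum_nonneg fun a => by positivity
  refine ⟨16 * log 4 + 8 * M * S, by have := Real.log_pos (show (1 : ℝ) < 4 by norm_num); positivity,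
    fun z => ?_⟩
  have hp : ∀ p ∈ (Icc 1 z).filter Nat.Prime, (∑ a ∈ (Icc 1 z).filter (fun a => p ^ a ≤ z),
      (a : ℝ) * log p * (4 * ((a : ℝ) + 1) ^ 2)) ≤
        16 * log p + 8 * M * z * (1 / (p : ℝ) ^ (3 / 2 : ℝ)) := by
    intro p hp
    rw [mem_filter, mem_Icc] at hp
    have hp2 : (2 : ℝ) ≤ p := by exact_mod_cast hp.2.two_le
    have hp0 : (0 : ℝ) < p := by linarith
    have hlog : 0 ≤ log p := Real.log_natCast_nonneg p
    have hz : (0 : ℝ) ≤ z := Nat.cast_nonneg z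
    -- the terms
    have hterm : ∀ a ∈ (Icc 1 z).filter (fun a => p ^ a ≤ z),
        (a : ℝ) * log p * (4 * ((a : ℝ) + 1) ^ 2) ≤ (if a = 1 then 16 * log p else 0) +
          (4 * log p * z / p ^ 2) * (((a : ℝ) * (4 * ((a : ℝ) + 1) ^ 2)) * (1 / 2) ^ a) := by
      intro a ha
      rw [mem_filter, mem_Icc] at ha
      rcases Nat.eq_or_lt_of_le ha.1.1 with h1 | h1
      · subst h1
        rw [if_pos rfl]
        have h2 : 0 ≤ (4 * log p * z / p ^ 2) *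
          ((((1 : ℕ) : ℝ) * (4 * (((1 : ℕ) : ℝ) + 1) ^ 2)) * (1 / 2) ^ 1) := by positivity
        have h3 : ((1 : ℕ) : ℝ) * log p * (4 * (((1 : ℕ) : ℝ) + 1) ^ 2) = 16 * log p := by
          push_cast
          ring
        linarith
      · rw [if_neg (by omega), zero_add]
        have h2 : (1 : ℝ) ≤ 4 * z / p ^ 2 * (1 / 2) ^ a := by
          obtain ⟨b, rfl⟩ : ∃ b, a = b + 2 := ⟨a - 2, by omega⟩
          have h3 : ((p : ℝ)) ^ (b + 2) ≤ z := by exact_mod_cast ha.2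
          have h4 : (2 : ℝ) ^ b ≤ (p : ℝ) ^ b := pow_le_pow_left₀ (by norm_num) hp2 b
          rw [div_mul_eq_mul_div, one_div, inv_pow, ← div_eq_mul_inv, div_div, le_div_iff₀ (by positivity),
            one_mul]
          calc (2 : ℝ) ^ (b + 2) * (p : ℝ) ^ 2 = 4 * (2 ^ b * (p : ℝ) ^ 2) := by ring
            _ ≤ 4 * ((p : ℝ) ^ b * (p : ℝ) ^ 2) := by gcongr
            _ = 4 * (p : ℝ) ^ (b + 2) := by ring
            _ ≤ 4 * z := by gcongr
        have h5 : 0 ≤ (a : ℝ) * log p * (4 * ((a : ℝ) + 1) ^ 2) := by positivity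
        calc (a : ℝ) * log p * (4 * ((a : ℝ) + 1) ^ 2)
            = (a : ℝ) * log p * (4 * ((a : ℝ) + 1) ^ 2) * 1 := by ring
          _ ≤ (a : ℝ) * log p * (4 * ((a : ℝ) + 1) ^ 2) * (4 * z / p ^ 2 * (1 / 2) ^ a) := by gcongr
          _ = _ := by ring
    refine (sum_le_sum hterm).trans ?_
    rw [sum_add_distrib]
    refine add_le_add ?_ ?_
    · rw [sum_ite_eq']
      split_ifs
      · exact le_rfl
      · positivity
    · rw [← mul_sum]
      have h6 : ∑ a ∈ (Icc 1 z).filter (fun a => p ^ a ≤ z),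
          ((a : ℝ) * (4 * ((a : ℝ) + 1) ^ 2)) * (1 / 2) ^ a ≤ M :=
        psi_summ.sum_le_tsum _ fun a _ => by positivity
      have h7 : log p ≤ 2 * (p : ℝ) ^ (1 / 2 : ℝ) := by
        have := Real.log_le_rpow_div hp0.le (show (0 : ℝ) < 1 / 2 by norm_num)
        linarith
      have h8 : (p : ℝ) ^ (3 / 2 : ℝ) * (p : ℝ) ^ (1 / 2 : ℝ) = (p : ℝ) ^ 2 := by
        rw [← Real.rpow_add hp0]
        norm_num
      have h9 : 0 < (p : ℝ) ^ (3 / 2 : ℝ) := Real.rpow_pos_of_pos hp0 _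
      have h10 : 0 < (p : ℝ) ^ (1 / 2 : ℝ) := Real.rpow_pos_of_pos hp0 _
      calc (4 * log p * z / p ^ 2) * ∑ a ∈ (Icc 1 z).filter (fun a => p ^ a ≤ z),
            ((a : ℝ) * (4 * ((a : ℝ) + 1) ^ 2)) * (1 / 2) ^ a
          ≤ (4 * (2 * (p : ℝ) ^ (1 / 2 : ℝ)) * z / p ^ 2) * M := by gcongr
        _ = 8 * M * z * (1 / (p : ℝ) ^ (3 / 2 : ℝ)) := by
          rw [← h8]
          field_simp
          ring
  refine (sum_le_sum hp).trans ?_
  rw [sum_add_distrib, ← mul_sum, ← mul_sum]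
  have h1 : ∑ p ∈ (Icc 1 z).filter Nat.Prime, log (p : ℝ) ≤ log 4 * z := by
    have h2 := Chebyshev.theta_le_log4_mul_x (Nat.cast_nonneg z)
    rw [Chebyshev.theta, Nat.floor_natCast] at h2
    have e : (Icc 1 z).filter Nat.Prime = (Ioc 0 z).filter Nat.Prime := by
      ext p
      simp only [mem_filter, mem_Icc, mem_Ioc]
      constructor
      · rintro ⟨⟨h1, h2⟩, h3⟩
        exact ⟨⟨by omega, h2⟩, h3⟩
      · rintro ⟨⟨h1, h2⟩, h3⟩
        exact ⟨⟨by omega, h2⟩, h3⟩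
    rw [e]
    exact h2
  have h3 : ∑ p ∈ (Icc 1 z).filter Nat.Prime, 1 / (p : ℝ) ^ (3 / 2 : ℝ) ≤ S :=
    hS.sum_le_tsum _ fun a _ => by positivity
  have hz : (0 : ℝ) ≤ z := Nat.cast_nonneg z
  have h4 : 8 * M * z * ∑ p ∈ (Icc 1 z).filter Nat.Prime, 1 / (p : ℝ) ^ (3 / 2 : ℝ) ≤ 8 * M * z * S := by
    gcongr
  nlinarith [h1, h4]

private lemma psi_gN_nonneg (N : ℕ) (lam : ℕ → ℝ) (n : ℕ) : 0 ≤ gN N lam n := by
  unfold gN
  split_ifs
  · exact le_rfl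
  · exact sq_nonneg _

/-- the small indices -/
private lemma psi_sm {N : ℕ} {lam : ℕ → ℝ} (h : SmOK N lam) {C : ℝ} (hC : ∀ z : ℕ,
    ∑ p ∈ (Icc 1 z).filter Nat.Prime, ∑ a ∈ (Icc 1 z).filter (fun a => p ^ a ≤ z),
      (a : ℝ) * log p * (4 * ((a : ℝ) + 1) ^ 2) ≤ C * z) (z : ℕ) (hz : (z : ℝ) ≤ 4 * log N ^ 3) :
    Psi (gN N lam) z ≤ C * z := by
  refine le_trans ?_ (hC z)
  unfold Psi
  refine sum_le_sum fun p hp => sum_le_sum fun a ha => ?_
  have hpp := (mem_filter.1 hp).2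
  have ha2 := (mem_filter.1 ha).2
  refine mul_le_mul_of_nonneg_left ?_ (mul_nonneg (Nat.cast_nonneg a) (Real.log_natCast_nonneg p))
  have h1 : gN N lam (p ^ a) ≤ lam (p ^ a) ^ 2 := by
    unfold gN
    split_ifs
    · exact sq_nonneg _
    · exact le_rfl
  refine h1.trans ?_
  have h2 := h (p ^ a) (Nat.one_le_pow _ _ hpp.pos) (le_trans (by exact_mod_cast ha2) hz)
  have h3 : ((p ^ a).divisors.card : ℝ) = (a : ℝ) + 1 := by
    rw [Nat.divisors_prime_pow hpp, card_map, card_range]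
    push_cast
    rfl
  rw [h3] at h2
  rw [← sq_abs]
  calc |lam (p ^ a)| ^ 2 ≤ (2 * ((a : ℝ) + 1)) ^ 2 := pow_le_pow_left₀ (abs_nonneg _) h2 2
    _ = 4 * ((a : ℝ) + 1) ^ 2 := by ring

theorem psi_ok : S_PSI := by
  obtain ⟨C, hC0, hC⟩ := psi_small
  refine ⟨C + 18, by linarith, fun ε hε hε1 => ⟨64, fun N hN hNp lam hPr hPp hSm z hz => ?_⟩⟩
  set g := gN N lam with hg
  have hg0 : ∀ n, 0 ≤ g n := psi_gN_nonneg N lam
  have hN' : (64 : ℝ) ≤ N := by exact_mod_cast hN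
  have hL : 4 ≤ log N := by
    have h1 : log 64 ≤ log N := Real.log_le_log (by norm_num) hN'
    have h2 : log 64 = 6 * log 2 := by
      rw [show (64 : ℝ) = 2 ^ 6 by norm_num, Real.log_pow]
      norm_num
    have h3 := Real.log_two_gt_d9
    linarith
  have hl2 : 1 ≤ l2 N := by
    unfold l2
    rw [Real.le_log_iff_exp_le (by linarith)]
    have := Real.exp_one_lt_d9
    linarith
  have hL3 : 64 ≤ log N ^ 3 := by
    calc (64 : ℝ) = 4 ^ 3 := by norm_num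
      _ ≤ log N ^ 3 := pow_le_pow_left₀ (by norm_num) hL 3
  have hz0 : (1 : ℝ) ≤ z := by exact_mod_cast hz
  have hN0 : (0 : ℝ) ≤ N := by linarith
  have hE : 1 ≤ exp ((1 - ε / 3) * l2 N) := Real.one_le_exp (mul_nonneg (by linarith) (by linarith))
  set E := exp ((1 - ε / 3) * l2 N) with hEdef
  -- the starting point
  have hex : ∃ k : ℕ, log N ^ 3 ≤ 4 * 2 ^ k := by
    obtain ⟨k, hk⟩ := pow_unbounded_of_one_lt (log N ^ 3) (show (1 : ℝ) < 2 by norm_num)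
    exact ⟨k, by linarith [pow_pos (show (0 : ℝ) < 2 by norm_num) k]⟩
  classical
  obtain ⟨k0, hk0, hk0'⟩ : ∃ k0 : ℕ, log N ^ 3 ≤ 4 * 2 ^ k0 ∧ ((2 ^ k0 : ℕ) : ℝ) ≤ 4 * log N ^ 3 := by
    refine ⟨Nat.find hex, Nat.find_spec hex, ?_⟩
    rcases Nat.eq_zero_or_pos (Nat.find hex) with h1 | h1
    · rw [h1]
      norm_num
      linarith
    · obtain ⟨k1, hk1⟩ : ∃ k1, Nat.find hex = k1 + 1 := ⟨Nat.find hex - 1, by omega⟩
      have h2 := Nat.find_min hex (show k1 < Nat.find hex by omega)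
      rw [hk1]
      push_cast
      rw [pow_succ]
      have := not_le.1 h2
      linarith
  by_cases hzk : z ≤ 2 ^ k0
  · have h1 : Psi g z ≤ C * z := psi_sm hSm hC z (le_trans (by exact_mod_cast hzk) hk0')
    refine ⟨fun _ => ?_, fun _ => ?_⟩
    · nlinarith [h1, hz0]
    · have h2 : C * z ≤ (C + 18) * z := by nlinarith
      have h3 : (C + 18) * z ≤ (C + 18) * E * z := by
        have : 0 ≤ (C + 18) * (z : ℝ) := by positivity
        nlinarith [this, hE]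
      linarith
  · have hzk' := not_le.1 hzk
    have hpos : 1 ≤ 2 ^ k0 := Nat.one_le_two_pow
    have hz1 : 1 < z := by omega
    have hK1 := Nat.le_pow_clog (show 1 < 2 by norm_num) z
    have hK2 := Nat.pow_pred_clog_lt_self (show 1 < 2 by norm_num) hz1
    set K := Nat.clog 2 z with hK
    have hkK : k0 < K := by
      by_contra hcon
      have : 2 ^ K ≤ 2 ^ k0 := Nat.pow_le_pow_right two_pos (by omega)
      omega
    obtain ⟨d, hd⟩ : ∃ d, K = k0 + d := ⟨K - k0, by omega⟩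
    have h0 : Psi g (2 ^ k0) ≤ C * (2 ^ k0 : ℕ) := psi_sm hSm hC _ hk0'
    have hzk'' : ((2 ^ k0 : ℕ) : ℝ) ≤ z := by exact_mod_cast hzk'.le
    have hKz : (2 : ℝ) ^ (k0 + d) ≤ 2 * z := by
      have h1 : 2 ^ (k0 + d) = 2 * 2 ^ K.pred := by
        rw [← hd, ← pow_succ']
        congr 1
        simp only [Nat.pred_eq_sub_one]
        omega
      have h2 : 2 ^ (k0 + d) ≤ 2 * z := by rw [h1]; omega
      exact_mod_cast h2
    have hkz : ∀ k, k < k0 + d → ((2 ^ k : ℕ) : ℝ) ≤ z := by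
      intro k hk
      have h1 : 2 ^ k ≤ 2 ^ K.pred := Nat.pow_le_pow_right two_pos (by
        simp only [Nat.pred_eq_sub_one]
        omega)
      exact_mod_cast (h1.trans hK2.le)
    have hlow : ∀ k, k0 ≤ k → log N ^ 3 ≤ 4 * 2 ^ k := by
      intro k hk
      have : (2 : ℝ) ^ k0 ≤ 2 ^ k := pow_le_pow_right₀ (by norm_num) hk
      linarith
    have hmono : Psi g z ≤ Psi g (2 ^ (k0 + d)) := psi_mono hg0 (by rw [← hd]; exact hK1)
    have h2k0 : (0 : ℝ) < 2 ^ k0 := by positivity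
    have h0' : Psi g (2 ^ k0) ≤ C * z := h0.trans (by gcongr)
    refine ⟨fun hzN => ?_, fun hzN => ?_⟩
    · have h1 := psi_iter g 9 k0 d (by
        intro k hk hk'
        have h2 := (hPr k (hlow k hk)).1 ((hkz k hk').trans hzN)
        have h3 := hPp k (hlow k hk) ((hkz k hk').trans (hzN.trans (by
          rw [div_le_iff₀ (by positivity)]
          have h4 : 1 ≤ l2 N ^ 2 * log N ^ 3 := by nlinarith [hl2, hL3]
          nlinarith [h4, hN0])))
        linarith)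
      nlinarith [h1, hmono, h0', hKz, h2k0]
    · have h1 := psi_iter g (E + 1) k0 d (by
        intro k hk hk'
        have h2 := (hPr k (hlow k hk)).2 ((hkz k hk').trans hzN)
        have h3 := hPp k (hlow k hk) ((hkz k hk').trans hzN)
        linarith)
      have h2 : (E + 1) * (2 ^ (k0 + d) - 2 ^ k0) ≤ (E + 1) * (2 * z) :=
        mul_le_mul_of_nonneg_left (by linarith) (by linarith)
      have h3 : Psi g z ≤ C * z + (E + 1) * (2 * z) := by linarith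
      have h4 : C * z ≤ C * E * z := by
        have : 0 ≤ C * (z : ℝ) := by positivity
        nlinarith
      have h5 : (E + 1) * (2 * z) ≤ 18 * E * z := by
        nlinarith [mul_nonneg (sub_nonneg.2 hE) (le_trans zero_le_one hz0)]
      calc Psi g z ≤ C * z + (E + 1) * (2 * z) := h3
        _ ≤ C * E * z + 18 * E * z := add_le_add h4 h5
        _ = (C + 18) * E * z := by ring

end Pool.Agent.H485.LD
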