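import Pool.Agent.H485.LD.Stm

/-!
# Project LD, task RE (helper580)
-/

set_option autoImplicit false

namespace Pool.Agent.H485.LD

open Real Finset Filter

section re

variable {N : ℕ} {ι : Type} {B : Finset ι} {w : ι → ℝ} {lam : ι → ℕ → ℝ}

/-- the triangle inequality in `L²` -/
lemma re_mink {κ : Type} (K : Finset κ) (R : κ → ι → ℝ) (v : κ → ℝ) (hw : ∀ i ∈ B, 0 ≤ w i)
    (hv : ∀ k ∈ K, 0 < v k) (h : ∀ k ∈ K, ∑ i ∈ B, w i * R k i ^ 2 ≤ v k ^ 2) :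
    ∑ i ∈ B, w i * (∑ k ∈ K, R k i) ^ 2 ≤ (∑ k ∈ K, v k) ^ 2 := by
  have hV0 : 0 ≤ ∑ k ∈ K, v k := sum_nonneg fun k hk => (hv k hk).le
  have h1 : ∀ i ∈ B, w i * (∑ k ∈ K, R k i) ^ 2 ≤
      w i * ((∑ k ∈ K, v k) * ∑ k ∈ K, R k i ^ 2 / v k) := by
    intro i hi
    refine mul_le_mul_of_nonneg_left ?_ (hw i hi)
    refine Finset.sum_sq_le_sum_mul_sum_of_sq_le_mul K (fun k hk => (hv k hk).le)
      (fun k hk => div_nonneg (sq_nonneg _) (hv k hk).le) (fun k hk => le_of_eq ?_)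
    have := (hv k hk).ne'
    field_simp
  refine (sum_le_sum h1).trans ?_
  have h2 : ∑ k ∈ K, (∑ i ∈ B, w i * R k i ^ 2) / v k ≤ ∑ k ∈ K, v k := by
    refine sum_le_sum fun k hk => ?_
    rw [div_le_iff₀ (hv k hk), ← sq]
    exact h k hk
  have h3 : ∑ i ∈ B, w i * ((∑ k ∈ K, v k) * ∑ k ∈ K, R k i ^ 2 / v k) =
      (∑ k ∈ K, v k) * ∑ k ∈ K, (∑ i ∈ B, w i * R k i ^ 2) / v k := by
    generalize ∑ k ∈ K, v k = V
    simp_rw [sum_div, mul_sum]
    rw [sum_comm]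
    exact sum_congr rfl fun k _ => sum_congr rfl fun i _ => by ring
  rw [h3, sq]
  exact mul_le_mul_of_nonneg_left h2 hV0

lemma re_Hh {x e j : ℕ} (he : 0 < e) (hj : x / e < 2 ^ (j + 1)) :
    Hh N x e ≤ ((j : ℝ) + 2) / e := by
  have hsub : (Icc 1 x).filter (fun m => e ∣ m ∧ ¬ N ∣ m) ⊆
      (Icc 1 (x / e)).image (fun k => e * k) := by
    intro m hm
    rw [mem_filter, mem_Icc] at hm
    obtain ⟨⟨h1, h2⟩, ⟨k, rfl⟩, _⟩ := hm
    refine mem_image.2 ⟨k, mem_Icc.2 ⟨?_, ?_⟩, rfl⟩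
    · exact Nat.pos_of_ne_zero (by rintro rfl; simp at h1)
    · rw [Nat.le_div_iff_mul_le he, mul_comm]
      exact h2
  have h2 : Hh N x e ≤ ∑ m ∈ (Icc 1 (x / e)).image (fun k => e * k), (1 : ℝ) / m :=
    sum_le_sum_of_subset_of_nonneg hsub fun m _ _ => by positivity
  rw [sum_image (fun a _ b _ h => Nat.eq_of_mul_eq_mul_left he h)] at h2
  have h3 : ∑ k ∈ Icc 1 (x / e), (1 : ℝ) / ((e * k : ℕ) : ℝ) =
      (∑ k ∈ Icc 1 (x / e), ((k : ℝ))⁻¹) / e := by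
    rw [sum_div]
    refine sum_congr rfl fun k _ => ?_
    push_cast
    rw [one_div, mul_inv, div_eq_mul_inv, mul_comm]
  have h4 : ∑ k ∈ Icc 1 (x / e), ((k : ℝ))⁻¹ ≤ 1 + Real.log ((x / e : ℕ) : ℝ) := by
    have := harmonic_le_one_add_log (x / e)
    rw [harmonic_eq_sum_Icc] at this
    push_cast at this
    exact this
  have h5 : Real.log ((x / e : ℕ) : ℝ) ≤ j + 1 := by
    rcases Nat.eq_zero_or_pos (x / e) with h | h
    · rw [h]
      simp
      positivity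
    · have hlt : ((x / e : ℕ) : ℝ) ≤ (2 : ℝ) ^ (j + 1) := by exact_mod_cast hj.le
      calc Real.log ((x / e : ℕ) : ℝ) ≤ Real.log ((2 : ℝ) ^ (j + 1)) :=
            Real.log_le_log (by exact_mod_cast h) hlt
        _ = ((j + 1 : ℕ) : ℝ) * Real.log 2 := Real.log_pow _ _
        _ ≤ ((j + 1 : ℕ) : ℝ) * 1 := by
            gcongr
            exact Real.log_two_lt_d9.le.trans (by norm_num)
        _ = j + 1 := by push_cast; ring
  rw [h3] at h2
  refine h2.trans ?_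
  gcongr
  linarith

lemma re_Hh0 {x e : ℕ} : 0 ≤ Hh N x e := sum_nonneg fun m _ => by positivity

/-- one dyadic block -/
lemma re_block (h : Fam N B w lam) (hN : 0 < N) {x Y j : ℕ} (hY : 0 < Y) (hjY : 2 ^ j * Y ≤ x) :
    ∑ i ∈ B, w i * (∑ e ∈ ((Ioc Y x).filter (fun e => ¬ N ∣ e)).filter
      (fun e => Nat.log 2 (x / e) = j), Hh N x e * lam i (e ^ 2)) ^ 2 ≤
      (1100 * ((j : ℝ) + 2) * (√(1 / (Y : ℝ)) + √(3 * x / N) * √(1 / 2) ^ j)) ^ 2 := by
  set s := ((Ioc Y x).filter (fun e => ¬ N ∣ e)).filter (fun e => Nat.log 2 (x / e) = j) with hs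
  set M : ℝ := (x : ℝ) / 2 ^ j with hM
  have hYr : (0 : ℝ) < Y := by exact_mod_cast hY
  have hNr : (0 : ℝ) < N := by exact_mod_cast hN
  have h2j : (0 : ℝ) < 2 ^ j := by positivity
  have hYM : (Y : ℝ) ≤ M := by
    rw [hM, le_div_iff₀ h2j, mul_comm]
    exact_mod_cast hjY
  have hM1 : 1 ≤ M := le_trans (by exact_mod_cast hY) hYM
  have hM0 : 0 < M := by linarith
  have hmem : ∀ e ∈ s, 0 < e ∧ e * 2 ^ j ≤ x ∧ x / e < 2 ^ (j + 1) ∧ x < e * 2 ^ (j + 1) := by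
    intro e he
    rw [hs, mem_filter, mem_filter, mem_Ioc] at he
    obtain ⟨⟨⟨h1, h2⟩, -⟩, h3⟩ := he
    have he0 : 0 < e := by omega
    have h4 : x / e ≠ 0 := by
      have := Nat.div_pos h2 he0
      omega
    have h5 := Nat.pow_log_le_self 2 h4
    rw [h3, Nat.le_div_iff_mul_le he0, mul_comm] at h5
    have h6 := Nat.lt_pow_succ_log_self (b := 2) (by norm_num) (x / e)
    rw [h3] at h6
    have h7 := (Nat.div_lt_iff_lt_mul he0).1 h6
    rw [mul_comm] at h7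
    exact ⟨he0, h5, h6, h7⟩
  have hle : ∀ e ∈ s, (e : ℝ) ≤ M := by
    intro e he
    rw [hM, le_div_iff₀ h2j]
    exact_mod_cast (hmem e he).2.1
  have hls := h.ls_sq hM1 s (fun e he => ⟨(hmem e he).1, hle e he⟩) (fun e => Hh N x e)
  have hc : ∀ e ∈ s, Hh N x e ^ 2 ≤ (((j : ℝ) + 2) * 2 / M) ^ 2 := by
    intro e he
    obtain ⟨h1, -, h3, h4⟩ := hmem e he
    refine pow_le_pow_left₀ re_Hh0 ((re_Hh h1 h3).trans ?_) 2
    have he' : (0 : ℝ) < e := by exact_mod_cast h1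
    have h5 : M ≤ e * 2 := by
      rw [hM, div_le_iff₀ h2j]
      have : (x : ℝ) < e * 2 ^ (j + 1) := by exact_mod_cast h4
      rw [pow_succ] at this
      nlinarith
    rw [div_le_div_iff₀ he' hM0]
    have : (0 : ℝ) ≤ (j : ℝ) + 2 := by positivity
    nlinarith [mul_le_mul_of_nonneg_left h5 this]
  have hcard : (s.card : ℝ) ≤ M := by
    have hsub : s ⊆ Icc 1 (x / 2 ^ j) := by
      intro e he
      obtain ⟨h1, h2, -, -⟩ := hmem e he
      rw [mem_Icc, Nat.le_div_iff_mul_le (by positivity)]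
      exact ⟨h1, h2⟩
    have h1 := card_le_card hsub
    rw [Nat.card_Icc, Nat.add_sub_cancel] at h1
    have h2 : ((x / 2 ^ j : ℕ) : ℝ) ≤ M := by
      refine (Nat.cast_div_le).trans (le_of_eq ?_)
      rw [hM]
      push_cast
      rfl
    exact le_trans (by exact_mod_cast h1) h2
  have hsum : ∑ e ∈ s, Hh N x e ^ 2 ≤ 4 * ((j : ℝ) + 2) ^ 2 / M := by
    calc ∑ e ∈ s, Hh N x e ^ 2 ≤ s.card • (((j : ℝ) + 2) * 2 / M) ^ 2 := sum_le_card_nsmul _ _ _ hc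
      _ = s.card * (((j : ℝ) + 2) * 2 / M) ^ 2 := by rw [nsmul_eq_mul]
      _ ≤ M * (((j : ℝ) + 2) * 2 / M) ^ 2 := by gcongr
      _ = 4 * ((j : ℝ) + 2) ^ 2 / M := by field_simp; ring
  refine hls.trans ?_
  have h8 : 300000 * (1 + 3 * M ^ 2 / N) * ∑ e ∈ s, Hh N x e ^ 2 ≤
      300000 * (1 + 3 * M ^ 2 / N) * (4 * ((j : ℝ) + 2) ^ 2 / M) :=
    mul_le_mul_of_nonneg_left hsum (by positivity)
  refine h8.trans ?_
  have h9 : 300000 * (1 + 3 * M ^ 2 / N) * (4 * ((j : ℝ) + 2) ^ 2 / M) =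
      1200000 * ((j : ℝ) + 2) ^ 2 * (1 / M + 3 * M / N) := by
    field_simp
    ring
  have h10 : 1 / M ≤ 1 / Y := one_div_le_one_div_of_le hYr hYM
  have h11 : 3 * M / N = 3 * x / N * (1 / 2) ^ j := by
    rw [hM, one_div, inv_pow]
    field_simp
  have ha : √(1 / (Y : ℝ)) ^ 2 = 1 / Y := Real.sq_sqrt (by positivity)
  have hb : (√(3 * x / N) * √(1 / 2) ^ j) ^ 2 = 3 * x / N * (1 / 2) ^ j := by
    rw [mul_pow, Real.sq_sqrt (by positivity), ← pow_mul, mul_comm j 2, pow_mul,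
      Real.sq_sqrt (by norm_num)]
  have ha0 : 0 ≤ √(1 / (Y : ℝ)) := Real.sqrt_nonneg _
  have hb0 : 0 ≤ √(3 * x / N) * √(1 / 2) ^ j := by positivity
  rw [h9, h11]
  have h12 : (√(1 / (Y : ℝ)) + √(3 * x / N) * √(1 / 2) ^ j) ^ 2 ≥
      1 / Y + 3 * x / N * (1 / 2) ^ j := by
    rw [add_sq, ha, hb]
    nlinarith [mul_nonneg ha0 hb0]
  have h13 : (0 : ℝ) ≤ ((j : ℝ) + 2) ^ 2 := by positivity
  have h14 : 0 ≤ 1 / (Y : ℝ) + 3 * x / N * (1 / 2) ^ j := by positivity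
  calc 1200000 * ((j : ℝ) + 2) ^ 2 * (1 / M + 3 * x / N * (1 / 2) ^ j) ≤
      1210000 * ((j : ℝ) + 2) ^ 2 * (1 / Y + 3 * x / N * (1 / 2) ^ j) := by
        gcongr
        norm_num
    _ ≤ 1210000 * ((j : ℝ) + 2) ^ 2 *
        (√(1 / (Y : ℝ)) + √(3 * x / N) * √(1 / 2) ^ j) ^ 2 := by gcongr
    _ = _ := by ring

/-- summability -/
lemma re_summable : Summable fun j : ℕ => ((j : ℝ) + 2) * √(1 / 2) ^ j := by
  have hr : ‖(√(1 / 2) : ℝ)‖ < 1 := by
    rw [Real.norm_of_nonneg (Real.sqrt_nonneg _), Real.sqrt_lt' one_pos]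
    norm_num
  have h1 := summable_pow_mul_geometric_of_norm_lt_one 1 hr
  have h2 := summable_geometric_of_norm_lt_one hr
  refine (h1.add (h2.mul_left 2)).congr fun j => ?_
  rw [pow_one]
  ring

lemma re_l2 : Tendsto l2 atTop atTop :=
  Real.tendsto_log_atTop.comp (Real.tendsto_log_atTop.comp tendsto_natCast_atTop_atTop)

lemma re_ev (S : ℝ) : ∀ᶠ u : ℝ in atTop,
    (1100 * (1000 + S * √(3 * (10 * u + 1)))) ^ 2 ≤ exp (u / 2) := by
  set A : ℝ := 2 * (1100 * 1000) ^ 2 + 3 * (2 * (1100 * S) ^ 2) with hA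
  set C : ℝ := 30 * (2 * (1100 * S) ^ 2) with hC
  have hA0 : 0 ≤ A := by positivity
  have hC0 : 0 ≤ C := by positivity
  filter_upwards [eventually_ge_atTop (8 * (A + C)), eventually_ge_atTop (1 : ℝ)] with u h1 h2
  have h3 : √(3 * (10 * u + 1)) ^ 2 = 3 * (10 * u + 1) := Real.sq_sqrt (by linarith)
  have h4 : (1100 * (1000 + S * √(3 * (10 * u + 1)))) ^ 2 ≤ A + C * u := by
    have h5 : (1100 * S) ^ 2 * √(3 * (10 * u + 1)) ^ 2 = (1100 * S) ^ 2 * (3 * (10 * u + 1)) := by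
      rw [h3]
    have h6 := sq_nonneg (1100 * 1000 - 1100 * S * √(3 * (10 * u + 1)))
    rw [hA, hC]
    nlinarith [h5, h6]
  have h7 : A + C * u ≤ u ^ 2 / 8 := by nlinarith
  have h8 := Real.quadratic_le_exp_of_nonneg (x := u / 2) (by linarith)
  nlinarith

end re

/-- **RE.** -/
theorem re_ok : S_RE := by
  set S : ℝ := ∑' j : ℕ, ((j : ℝ) + 2) * √(1 / 2) ^ j with hSdef
  have hS : ∀ n : ℕ, ∑ j ∈ range n, ((j : ℝ) + 2) * √(1 / 2) ^ j ≤ S := fun n =>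
    re_summable.sum_le_tsum _ (fun j _ => by positivity)
  have hS0 : 0 ≤ S := tsum_nonneg fun j => by positivity
  have hlog : Tendsto (fun N : ℕ => log (N : ℝ)) atTop atTop :=
    Real.tendsto_log_atTop.comp tendsto_natCast_atTop_atTop
  have hpow : ∀ᶠ N : ℕ in atTop, log (N : ℝ) ^ 5 ≤ N := by
    have h1 := ((isLittleO_pow_log_id_atTop (n := 5)).bound (show (0 : ℝ) < 1 by norm_num))
    have h2 := tendsto_natCast_atTop_atTop (R := ℝ) |>.eventually h1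
    filter_upwards [h2, eventually_ge_atTop 1] with N hN h1N
    have h3 : 0 ≤ log (N : ℝ) := Real.log_natCast_nonneg N
    rw [Real.norm_of_nonneg (by positivity), one_mul] at hN
    simpa using hN
  have hev : ∀ᶠ N : ℕ in atTop, 2 ≤ log (N : ℝ) ∧ log (N : ℝ) ^ 5 ≤ N ∧ 1 ≤ l2 N ∧
      (1100 * (1000 + S * √(3 * (10 * l2 N + 1)))) ^ 2 ≤ exp (l2 N / 2) := by
    filter_upwards [hlog.eventually_ge_atTop 2, hpow, re_l2.eventually_ge_atTop 1,
      re_l2.eventually (re_ev S)] with N h1 h2 h3 h4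
    exact ⟨h1, h2, h3, h4⟩
  obtain ⟨N0, hN0⟩ := eventually_atTop.1 hev
  refine ⟨N0, fun N hN hp ι B w lam h => ?_⟩
  obtain ⟨h1, h2, h3, h4⟩ := hN0 N hN
  set L : ℝ := log (N : ℝ) with hL
  have hNpos : 0 < N := hp.pos
  have hNr : (0 : ℝ) < N := by exact_mod_cast hNpos
  have hL0 : 0 < L := by linarith
  have hexp : exp (l2 N) = L := by
    unfold l2
    exact Real.exp_log hL0
  set x := xN N with hx
  set Y := YN N with hY
  have hceil : ((⌈10 * l2 N⌉₊ : ℕ) : ℝ) ≤ 10 * l2 N + 1 :=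
    (Nat.ceil_lt_add_one (by linarith)).le
  have hceil0 : 0 < ⌈10 * l2 N⌉₊ := Nat.ceil_pos.2 (by linarith)
  have hxr : (x : ℝ) = N * (⌈10 * l2 N⌉₊ : ℕ) := by
    rw [hx, xN]
    push_cast
    rfl
  have hx0 : 0 < x := Nat.mul_pos hNpos hceil0
  have hNx : N ≤ x := Nat.le_mul_of_pos_right _ hceil0
  have hYle : (Y : ℝ) ≤ L ^ 5 := Nat.floor_le (by positivity)
  have hYge : L ^ 5 / 2 ≤ (Y : ℝ) := by
    have h5 : L ^ 5 - 1 < (Y : ℝ) := Nat.sub_one_lt_floor _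
    have h6 : (2 : ℝ) ^ 5 ≤ L ^ 5 := pow_le_pow_left₀ (by norm_num) h1 5
    linarith
  have hYpos : 0 < Y := by
    have : (0 : ℝ) < Y := lt_of_lt_of_le (by positivity) hYge
    exact_mod_cast this
  have hYx : Y ≤ x := by
    have : (Y : ℝ) ≤ N := hYle.trans h2
    exact (by exact_mod_cast this : Y ≤ N).trans hNx
  set J := Nat.log 2 (x / Y) with hJ
  have hxY : x / Y ≠ 0 := (Nat.div_pos hYx hYpos).ne'
  have hJ1 : 2 ^ J ≤ x / Y := Nat.pow_log_le_self 2 hxY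
  have hJle : (J : ℝ) ≤ 24 * L := by
    have h5 : (2 : ℝ) ^ J ≤ x := by
      exact_mod_cast hJ1.trans (Nat.div_le_self _ _)
    have h6 : (J : ℝ) * log 2 ≤ log x := by
      rw [← Real.log_pow]
      exact Real.log_le_log (by positivity) h5
    have h7 : (1 / 2 : ℝ) ≤ log 2 := by
      have := Real.log_two_gt_d9
      linarith
    have h8 : log (x : ℝ) ≤ 12 * L := by
      rw [hxr, Real.log_mul hNr.ne' (by exact_mod_cast hceil0.ne')]
      have h9 : log ((⌈10 * l2 N⌉₊ : ℕ) : ℝ) ≤ ((⌈10 * l2 N⌉₊ : ℕ) : ℝ) :=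
        Real.log_le_self (Nat.cast_nonneg _)
      have h10 : l2 N ≤ L := by
        unfold l2
        exact Real.log_le_self hL0.le
      have h11 : log (N : ℝ) = L := rfl
      rw [h11]
      linarith
    have h9 : (J : ℝ) * (1 / 2) ≤ J * log 2 := by gcongr
    linarith
  -- the blocks
  set s := (Ioc Y x).filter (fun e => ¬ N ∣ e) with hs
  set v : ℕ → ℝ := fun j => 1100 * ((j : ℝ) + 2) *
    (√(1 / (Y : ℝ)) + √(3 * x / N) * √(1 / 2) ^ j) with hv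
  have hYr : (0 : ℝ) < Y := by exact_mod_cast hYpos
  have hvpos : ∀ j ∈ range (J + 1), 0 < v j := by
    intro j _
    have : 0 < √(1 / (Y : ℝ)) := Real.sqrt_pos.2 (by positivity)
    rw [hv]
    positivity
  have hfib : ∀ i, ∑ e ∈ s, Hh N x e * lam i (e ^ 2) =
      ∑ j ∈ range (J + 1), ∑ e ∈ s.filter (fun e => Nat.log 2 (x / e) = j),
        Hh N x e * lam i (e ^ 2) := by
    intro i
    refine (sum_fiberwise_of_maps_to (fun e he => ?_) _).symm
    rw [hs, mem_filter, mem_Ioc] at he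
    rw [mem_range, Nat.lt_succ_iff]
    exact Nat.log_mono_right (Nat.div_le_div_left he.1.1.le hYpos)
  have hkey := re_mink (B := B) (range (J + 1))
    (fun j i => ∑ e ∈ s.filter (fun e => Nat.log 2 (x / e) = j), Hh N x e * lam i (e ^ 2)) v
    h.w0 hvpos (by
      intro j hj
      rw [mem_range, Nat.lt_succ_iff] at hj
      refine re_block h hNpos hYpos ?_
      have h5 : 2 ^ j ≤ x / Y := (Nat.pow_le_pow_right (by norm_num) hj).trans hJ1
      exact (Nat.le_div_iff_mul_le hYpos).1 h5)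
  -- the sum of the bounds
  have hV : ∑ j ∈ range (J + 1), v j ≤ 1100 * (1000 + S * √(3 * (10 * l2 N + 1))) := by
    have e1 : ∑ j ∈ range (J + 1), v j = 1100 * ((∑ j ∈ range (J + 1), ((j : ℝ) + 2)) *
        √(1 / (Y : ℝ)) + √(3 * x / N) * ∑ j ∈ range (J + 1), ((j : ℝ) + 2) * √(1 / 2) ^ j) := by
      rw [sum_mul, mul_sum, ← sum_add_distrib, mul_sum]
      refine sum_congr rfl fun j _ => ?_
      rw [hv]
      ring
    rw [e1]
    have h5 : ∑ j ∈ range (J + 1), ((j : ℝ) + 2) ≤ (26 * L) ^ 2 := by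
      calc ∑ j ∈ range (J + 1), ((j : ℝ) + 2) ≤ ∑ j ∈ range (J + 1), ((J : ℝ) + 2) := by
            refine sum_le_sum fun j hj => ?_
            rw [mem_range, Nat.lt_succ_iff] at hj
            have : (j : ℝ) ≤ J := by exact_mod_cast hj
            linarith
        _ = ((J : ℝ) + 1) * (J + 2) := by
            rw [sum_const, card_range, nsmul_eq_mul]
            push_cast
            ring
        _ ≤ (26 * L) * (26 * L) := by
            have hJ0 : (0 : ℝ) ≤ J := by positivity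
            gcongr <;> linarith
        _ = _ := by ring
    have h6 : (26 * L) ^ 2 * √(1 / (Y : ℝ)) ≤ 1000 := by
      have h7 : ((26 * L) ^ 2 * √(1 / (Y : ℝ))) ^ 2 ≤ 1000 ^ 2 := by
        rw [mul_pow, Real.sq_sqrt (by positivity), mul_one_div, div_le_iff₀ hYr]
        have h8 : 1000 ^ 2 * (L ^ 5 / 2) ≤ 1000 ^ 2 * (Y : ℝ) := by gcongr
        refine le_trans ?_ h8
        have h9 : L ^ 4 * 2 ≤ L ^ 4 * L := by gcongr
        nlinarith [pow_pos hL0 4]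
      exact (abs_le_of_sq_le_sq' h7 (by norm_num)).2
    have h7 : 3 * (x : ℝ) / N ≤ 3 * (10 * l2 N + 1) := by
      rw [hxr, div_le_iff₀ hNr]
      nlinarith
    have h8 : √(3 * x / N) * ∑ j ∈ range (J + 1), ((j : ℝ) + 2) * √(1 / 2) ^ j ≤
        √(3 * (10 * l2 N + 1)) * S := by
      refine mul_le_mul (Real.sqrt_le_sqrt h7) (hS _) (sum_nonneg fun j _ => by positivity)
        (Real.sqrt_nonneg _)
    have h9 : (∑ j ∈ range (J + 1), ((j : ℝ) + 2)) * √(1 / (Y : ℝ)) ≤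
        (26 * L) ^ 2 * √(1 / (Y : ℝ)) := by gcongr
    have h10 : √(3 * (10 * l2 N + 1)) * S = S * √(3 * (10 * l2 N + 1)) := mul_comm _ _
    linarith
  have hV0 : 0 ≤ ∑ j ∈ range (J + 1), v j := sum_nonneg fun j hj => (hvpos j hj).le
  have hfinal : ∑ i ∈ B, w i * (∑ e ∈ s, Hh N x e * lam i (e ^ 2)) ^ 2 ≤ exp (l2 N / 2) := by
    simp_rw [hfib]
    exact hkey.trans ((pow_le_pow_left₀ hV0 hV 2).trans h4)
  refine (few_of_sq h.w0 hL0 hfinal).mono (le_of_eq ?_) (fun i _ hi => hi)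
  rw [← hexp, ← Real.exp_nat_mul, ← Real.exp_sub]
  congr 1
  push_cast
  ring

end Pool.Agent.H485.LD
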