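import Pool.Agent.H485.LD.Stm

/-!
# LD, task SM: the small indices are regular (helper864)
-/

set_option autoImplicit false

namespace Pool.Agent.H485.LD

open Real Finset Filter

private theorem sm_num {x l : ℝ} (hl : l = log x) (hl1 : 1 ≤ l) (hx0 : 0 < x)
    (hx : l ^ 2 ≤ 1 / 400 * x) {k : ℕ} (hk : k = ⌊x / (40 * l)⌋₊) :
    1 ≤ k ∧ 4 * x ^ 3 * (2 / 4 ^ k) ≤ exp (-2 * l) ∧
      ∀ n : ℝ, 1 ≤ n → n ≤ 4 * x ^ 3 → n ^ (2 * k) ≤ exp (x / 4) := by
  have hl0 : 0 < l := by linarith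
  have h2a := Real.log_two_gt_d9
  have h2b := Real.log_two_lt_d9
  have hlog4 : log 4 = 2 * log 2 := by
    have : (4 : ℝ) = 2 ^ 2 := by norm_num
    rw [this, Real.log_pow]
    norm_num
  have hk1 : (k : ℝ) ≤ x / (40 * l) := by
    rw [hk]
    exact Nat.floor_le (by positivity)
  have hk2 : x / (40 * l) < k + 1 := by
    rw [hk]
    exact Nat.lt_floor_add_one _
  have hk3 : 10 * l - 1 < k := by
    have h1 : 10 * l ≤ x / (40 * l) := by
      rw [le_div_iff₀ (by positivity)]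
      nlinarith
    linarith
  have hxl : x = exp l := by
    rw [hl, Real.exp_log hx0]
  have hxl3 : x ^ 3 = exp (3 * l) := by
    rw [hxl, ← Real.exp_nat_mul]
    norm_num
  refine ⟨?_, ?_, ?_⟩
  · have : (0 : ℝ) < k := by linarith
    exact_mod_cast this
  · have h4 : (4 : ℝ) ^ k = exp (k * log 4) := by
      rw [Real.exp_nat_mul, Real.exp_log (by norm_num)]
    have h8 : (8 : ℝ) = exp (3 * log 2) := by
      have : (8 : ℝ) = 2 ^ 3 := by norm_num
      rw [this]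
      have h := Real.exp_nat_mul (log 2) 3
      rw [Real.exp_log (by norm_num)] at h
      rw [← h]
      norm_num
    have h5 : 4 * x ^ 3 * (2 / 4 ^ k) = 8 * x ^ 3 / 4 ^ k := by ring
    rw [h5, h4, hxl3, div_le_iff₀ (Real.exp_pos _), h8, ← Real.exp_add, ← Real.exp_add,
      Real.exp_le_exp, hlog4]
    nlinarith
  · intro n hn1 hn
    have hn0 : 0 < n := by linarith
    have h6 : n ^ (2 * k) ≤ (4 * x ^ 3) ^ (2 * k) := pow_le_pow_left₀ hn0.le hn _
    refine h6.trans ?_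
    have h7 : (4 * x ^ 3) ^ (2 * k) = exp ((2 * k : ℕ) * (log 4 + 3 * l)) := by
      rw [Real.exp_nat_mul, Real.exp_add, Real.exp_log (by norm_num), hxl3]
    rw [h7, Real.exp_le_exp]
    push_cast
    have h8 : log 4 + 3 * l ≤ 5 * l := by
      rw [hlog4]
      linarith
    have h9 : 2 * (k : ℝ) * (log 4 + 3 * l) ≤ 2 * (k : ℝ) * (5 * l) :=
      mul_le_mul_of_nonneg_left h8 (by positivity)
    have h10 : (k : ℝ) * (40 * l) ≤ x := by
      rwa [le_div_iff₀ (by positivity)] at hk1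
    linarith

private theorem sm_one {N : ℕ} {ι : Type} {B : Finset ι} {w : ι → ℝ} {lam : ι → ℕ → ℝ}
    (h : Fam N B w lam) {k n : ℕ} (hk : 1 ≤ k) (hn : 1 ≤ n)
    (hnk : (n : ℝ) ^ (2 * k) ≤ (N : ℝ) ^ (1 / 4 : ℝ)) :
    Few B w (2 / 4 ^ k) fun i => |lam i n| ≤ 2 * n.divisors.card := by
  have hτ : (0 : ℝ) < n.divisors.card := by
    exact_mod_cast Finset.card_pos.2 ⟨1, Nat.one_mem_divisors.2 (by omega)⟩
  have h1 := few_of_mean (F := fun i => lam i n ^ (2 * k)) h.w0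
    (fun i _ => by rw [pow_mul]; positivity) (V := 2 * (n.divisors.card : ℝ) ^ (2 * k))
    (T := (2 * (n.divisors.card : ℝ)) ^ (2 * k)) (by positivity) (h.mom k n hn hnk)
  refine h1.mono (le_of_eq ?_) ?_
  · rw [mul_pow, pow_mul (2 : ℝ)]
    have : (0 : ℝ) < (n.divisors.card : ℝ) ^ (2 * k) := by positivity
    field_simp
    norm_num
  · intro i _ hi
    have h2 : |lam i n| ^ (2 * k) ≤ (2 * (n.divisors.card : ℝ)) ^ (2 * k) := by
      rw [← abs_pow, abs_of_nonneg (by rw [pow_mul]; positivity)]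
      exact hi
    exact le_of_pow_le_pow_left₀ (by omega) (by positivity) h2

/-- **SM.** -/
theorem sm_ok : S_SM := by
  have hN : Tendsto (fun N : ℕ => log (N : ℝ)) atTop atTop :=
    Real.tendsto_log_atTop.comp tendsto_natCast_atTop_atTop
  have h1 : ∀ᶠ x : ℝ in atTop, log x ^ 2 ≤ 1 / 400 * x := by
    have h := (isLittleO_pow_log_id_atTop (n := 2)).bound (show (0 : ℝ) < 1 / 400 by norm_num)
    filter_upwards [h, eventually_ge_atTop 0] with x hx hx0
    rw [Real.norm_eq_abs, Real.norm_eq_abs, abs_of_nonneg (sq_nonneg _)] at hx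
    simpa [abs_of_nonneg hx0] using hx
  have h2 : ∀ᶠ N : ℕ in atTop, log (log N) ^ 2 ≤ 1 / 400 * log N ∧ 1 ≤ log (log N) ∧
      1 ≤ log (N : ℝ) ∧ 1 ≤ N := by
    filter_upwards [hN.eventually h1, (Real.tendsto_log_atTop.comp hN).eventually_ge_atTop 1,
      hN.eventually_ge_atTop 1, eventually_ge_atTop 1] with N a b c d
    exact ⟨a, b, c, d⟩
  obtain ⟨N0, hN0⟩ := eventually_atTop.1 h2
  refine ⟨N0, fun N hNN _ ι B w lam h => ?_⟩
  obtain ⟨a, b, c, d⟩ := hN0 N hNN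
  obtain ⟨k, hk⟩ : ∃ k : ℕ, k = ⌊log N / (40 * l2 N)⌋₊ := ⟨_, rfl⟩
  have hx0 : 0 < log (N : ℝ) := by linarith
  obtain ⟨hk1, hsum, hpow⟩ := sm_num (x := log N) (l := l2 N) rfl b hx0 a hk
  have hNpow : (N : ℝ) ^ (1 / 4 : ℝ) = exp (log N / 4) := by
    rw [Real.rpow_def_of_pos (by exact_mod_cast d)]
    congr 1
    ring
  have h3 := Few.ball h.w0 (Icc 1 ⌊4 * log (N : ℝ) ^ 3⌋₊) (fun _ => 2 / 4 ^ k)
    (fun n i => |lam i n| ≤ 2 * n.divisors.card) (by
      intro n hn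
      rw [mem_Icc] at hn
      refine sm_one h hk1 hn.1 ?_
      rw [hNpow]
      refine hpow n (by exact_mod_cast hn.1) ?_
      exact (Nat.le_floor_iff (by positivity)).1 hn.2)
  refine h3.mono ?_ ?_
  · rw [sum_const, Nat.card_Icc, nsmul_eq_mul, Nat.add_sub_cancel]
    refine le_trans ?_ hsum
    refine mul_le_mul_of_nonneg_right ?_ (by positivity)
    exact Nat.floor_le (by positivity)
  · intro i _ hi n hn1 hn
    exact hi n (mem_Icc.2 ⟨hn1, Nat.le_floor hn⟩)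

end Pool.Agent.H485.LD
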