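import Pool.Agent.H485.LD.Stm

/-! # LD-TL (helper706): the tail -/

set_option autoImplicit false

namespace Pool.Agent.H485.LD

open Real Finset Filter

theorem tl_lim : Tendsto l2 atTop atTop :=
  tendsto_log_atTop.comp (tendsto_log_atTop.comp tendsto_natCast_atTop_atTop)

/-- the geometric tail -/
theorem tl_geom {N : ℕ} (hN : 2 ≤ N) (x y : ℕ) :
    ∑ n ∈ Ioc x y, exp (-(2 / (N : ℝ) * n)) ≤ N * exp (-(2 / (N : ℝ) * x)) := by
  have hN' : (2 : ℝ) ≤ N := by exact_mod_cast hN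
  have hN0 : (0 : ℝ) < N := by linarith
  obtain ⟨r, hr⟩ : ∃ r : ℝ, r = exp (-(2 / (N : ℝ))) := ⟨_, rfl⟩
  have hr0 : 0 < r := by rw [hr]; exact exp_pos _
  have ht : 0 < 2 / (N : ℝ) := by positivity
  have hpow : ∀ n : ℕ, exp (-(2 / (N : ℝ) * n)) = r ^ n := by
    intro n
    rw [hr, ← exp_nat_mul]
    congr 1
    ring
  have hr1 : r ≤ 1 / (1 + 2 / (N : ℝ)) := by
    rw [hr, exp_neg, ← one_div]
    refine one_div_le_one_div_of_le (by positivity) ?_
    linarith [add_one_le_exp (2 / (N : ℝ))]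
  have hr2 : 1 / (N : ℝ) ≤ 1 - r := by
    have h1 : 1 / (1 + 2 / (N : ℝ)) ≤ 1 - 1 / N := by
      rw [div_le_iff₀ (by positivity)]
      have h2 : 1 / (N : ℝ) * (2 / N) ≤ 1 / N := by
        have h3 : 2 / (N : ℝ) ≤ 1 := by
          rw [div_le_one hN0]
          exact hN'
        have h4 : 0 < 1 / (N : ℝ) := by positivity
        nlinarith
      have h5 : (1 - 1 / (N : ℝ)) * (1 + 2 / N) = 1 + 1 / N - 1 / N * (2 / N) := by ring
      rw [h5]
      linarith
    linarith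
  have hlt : r < 1 := by
    have : 0 < 1 / (N : ℝ) := by positivity
    linarith
  have h1 : ∑ n ∈ Ioc x y, exp (-(2 / (N : ℝ) * n)) = ∑ n ∈ Ico (x + 1) (y + 1), r ^ n := by
    have e : Ioc x y = Ico (x + 1) (y + 1) := by
      ext n
      rw [mem_Ioc, mem_Ico]
      omega
    rw [e]
    exact sum_congr rfl fun n _ => hpow n
  rw [h1, hpow]
  refine (geom_sum_Ico_le_of_lt_one hr0.le hlt).trans ?_
  rw [div_le_iff₀ (by linarith)]
  have h2 : r ^ (x + 1) ≤ r ^ x := pow_le_pow_of_le_one hr0.le hlt.le (Nat.le_succ x)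
  have h3 : 1 ≤ N * (1 - r) := by
    rw [div_le_iff₀ hN0] at hr2
    linarith
  have h4 : 0 ≤ r ^ x := pow_nonneg hr0.le x
  nlinarith

theorem tl_ok : S_TL := by
  obtain ⟨N0, hN0⟩ := eventually_atTop.1 (tl_lim.eventually_ge_atTop 1)
  refine ⟨max N0 2, fun N hN hp ι B w lam h => ?_⟩
  have hN2 : 2 ≤ N := (le_max_right _ _).trans hN
  have hN2' : (2 : ℝ) ≤ N := by exact_mod_cast hN2
  have hNpos : (0 : ℝ) < N := by linarith
  have hL : 1 ≤ l2 N := hN0 N ((le_max_left _ _).trans hN)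
  have hx : 10 * l2 N ≤ (xN N : ℝ) / N := by
    unfold xN
    push_cast
    rw [mul_div_cancel_left₀ _ hNpos.ne']
    exact Nat.le_ceil _
  have hterm : ∀ n : ℕ, exp (-(π / N * n)) * (300000 * (1 + 3 * n / N)) ≤
      900000 * exp (-(2 / (N : ℝ) * n)) := by
    intro n
    obtain ⟨u, hu⟩ : ∃ u : ℝ, u = n / N := ⟨_, rfl⟩
    have hu0 : 0 ≤ u := by rw [hu]; positivity
    have e1 : -(π / N * n) = -(π * u) := by rw [hu]; ring
    have e2 : -(2 / (N : ℝ) * n) = -(2 * u) := by rw [hu]; ring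
    have e3 : 3 * (n : ℝ) / N = 3 * u := by rw [hu]; ring
    rw [e1, e2, e3]
    have h1 : 1 + 3 * u ≤ 3 * exp u := by linarith [add_one_le_exp u]
    have h2 : exp (-(π * u)) * exp u ≤ exp (-(2 * u)) := by
      rw [← exp_add]
      refine exp_le_exp.2 ?_
      nlinarith [pi_gt_three]
    have h3 : 0 < exp (-(π * u)) := exp_pos _
    nlinarith
  have hmean : ∑ i ∈ B, w i * ∑ n ∈ Ioc (xN N) (N ^ 2), lam i n ^ 2 * exp (-(π / N * n)) ≤
      900000 * (N * exp (-(20 * l2 N))) := by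
    have e : ∑ i ∈ B, w i * ∑ n ∈ Ioc (xN N) (N ^ 2), lam i n ^ 2 * exp (-(π / N * n)) =
        ∑ n ∈ Ioc (xN N) (N ^ 2), exp (-(π / N * n)) * ∑ i ∈ B, w i * lam i n ^ 2 := by
      simp only [mul_sum]
      rw [sum_comm]
      refine sum_congr rfl fun n _ => sum_congr rfl fun i _ => ?_
      ring
    rw [e]
    calc ∑ n ∈ Ioc (xN N) (N ^ 2), exp (-(π / N * n)) * ∑ i ∈ B, w i * lam i n ^ 2
        ≤ ∑ n ∈ Ioc (xN N) (N ^ 2), 900000 * exp (-(2 / (N : ℝ) * n)) := by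
          refine sum_le_sum fun n hn => ?_
          have hn1 : 1 ≤ n := by
            have := (mem_Ioc.1 hn).1
            omega
          exact (mul_le_mul_of_nonneg_left (h.ls_one hn1) (exp_pos _).le).trans (hterm n)
      _ = 900000 * ∑ n ∈ Ioc (xN N) (N ^ 2), exp (-(2 / (N : ℝ) * n)) := by rw [mul_sum]
      _ ≤ 900000 * (N * exp (-(2 / (N : ℝ) * xN N))) :=
          mul_le_mul_of_nonneg_left (tl_geom hN2 _ _) (by norm_num)
      _ ≤ 900000 * (N * exp (-(20 * l2 N))) := by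
          refine mul_le_mul_of_nonneg_left (mul_le_mul_of_nonneg_left (exp_le_exp.2 ?_) hNpos.le)
            (by norm_num)
          have e2 : 2 / (N : ℝ) * xN N = 2 * ((xN N : ℝ) / N) := by ring
          rw [e2]
          linarith
  have h1 := few_of_mean (F := fun i => ∑ n ∈ Ioc (xN N) (N ^ 2), lam i n ^ 2 * exp (-(π / N * n)))
    h.w0 (fun i _ => sum_nonneg fun n _ => mul_nonneg (sq_nonneg _) (exp_pos _).le) hNpos hmean
  refine h1.mono ?_ fun i _ hi => hi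
  have e3 : 900000 * (N * exp (-(20 * l2 N))) / (N : ℝ) = 900000 * exp (-(20 * l2 N)) := by
    field_simp
  rw [e3]
  have e4 : exp (-2 * l2 N) = exp (18 * l2 N) * exp (-(20 * l2 N)) := by
    rw [← exp_add]
    congr 1
    ring
  rw [e4]
  refine mul_le_mul_of_nonneg_right ?_ (exp_pos _).le
  have h5 : exp (18 * 1) ≤ exp (18 * l2 N) := exp_le_exp.2 (by linarith)
  refine le_trans ?_ h5
  have e5 : exp (18 * 1) = exp 1 ^ 18 := by
    rw [← exp_nat_mul]
    norm_num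
  rw [e5]
  have h6 : (2.7 : ℝ) ≤ exp 1 := by linarith [exp_one_gt_d9]
  calc (900000 : ℝ) ≤ 2.7 ^ 18 := by norm_num
    _ ≤ exp 1 ^ 18 := pow_le_pow_left₀ (by norm_num) h6 18

end Pool.Agent.H485.LD
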