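import Pool.Agent.H485.LD.Mer
import Pool.Agent.H485.LD.NLA
import Pool.Agent.H485.LD.NLB
import Pool.Agent.H485.LD.NLC
import Pool.Agent.H485.LD.NLD
import Pool.Agent.H485.LD.LOG
import Pool.Agent.H485.LD.PR
import Pool.Agent.H485.LD.PP
import Pool.Agent.H485.LD.SM
import Pool.Agent.H485.LD.PSI
import Pool.Agent.H485.LD.AE
import Pool.Agent.H485.LD.RE
import Pool.Agent.H485.LD.GE
import Pool.Agent.H485.LD.TL
import Pool.Agent.H485.LD.NUI

/-!
# The weights of an abstract family are rarely large and rarely small
-/

set_option autoImplicit false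

namespace Pool.Agent.H485.LD

/-- the weights are rarely large -/
theorem s_nl : S_NL := nld mert1 mert2 nla nlb nlc

/-- the sums of squares are rarely large -/
theorem s_nu : S_NU := nui log_trick pr_ok pp_ok sm_ok psi_ok ae re_ok ge_ok

end Pool.Agent.H485.LD
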