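import Pool.Agent.H485.LD.Stm
import Pool.Graph.R_seed8.H305R2.MertensM
import Pool.Graph.R_seed8.Helper923.HMertens

/-!
# Mertens' theorems
-/

set_option autoImplicit false

namespace Pool.Agent.H485.LD

open Real Finset Filter Topology

theorem mert1 : Mert1 := by
  obtain ⟨C, hC⟩ := Pool.Agent.Helper923.HMertens.mertens_log
  exact ⟨C, (abs_nonneg _).trans (hC 1 le_rfl), hC⟩

theorem mert2 : Mert2 := by
  obtain ⟨M, hM⟩ := Pool.Agent.H305R2.mertens_inv_tendsto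
  obtain ⟨C, hC0, hC⟩ := Pool.Agent.Helper923.HMertens.mertens_ratio
  refine ⟨M, C, hC0, fun a ha => ?_⟩
  have hla : 0 < log (a : ℝ) := Real.log_pos (by exact_mod_cast (by omega : 1 < a))
  have h1 : Tendsto (fun b : ℕ => |∑ p ∈ (Icc 1 a).filter Nat.Prime, 1 / (p : ℝ) - log (log a) -
      (∑ p ∈ (Icc 1 b).filter Nat.Prime, (1 : ℝ) / p - log (log b))|) atTop
      (𝓝 |∑ p ∈ (Icc 1 a).filter Nat.Prime, 1 / (p : ℝ) - log (log a) - M|) :=
    (tendsto_const_nhds.sub hM).abs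
  refine le_of_tendsto h1 ?_
  filter_upwards [eventually_ge_atTop a] with b hb
  have hlb : 0 < log (b : ℝ) := Real.log_pos (by exact_mod_cast (by omega : 1 < b))
  have h2 := hC a b ha hb
  have h3 : ∑ p ∈ (Icc 1 b).filter Nat.Prime, (1 : ℝ) / p = ∑ p ∈ (Icc 1 a).filter Nat.Prime, (1 : ℝ) / p +
      ∑ p ∈ (Ioc a b).filter Nat.Prime, (1 : ℝ) / p := by
    rw [← Finset.sum_union]
    · congr 1
      ext p
      simp only [Finset.mem_union, Finset.mem_filter, Finset.mem_Icc, Finset.mem_Ioc]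
      constructor
      · rintro ⟨⟨h1, h2⟩, h3⟩
        rcases Nat.lt_or_ge a p with h | h
        · exact Or.inr ⟨⟨h, h2⟩, h3⟩
        · exact Or.inl ⟨⟨h1, h⟩, h3⟩
      · rintro (⟨⟨h1, h2⟩, h3⟩ | ⟨⟨h1, h2⟩, h3⟩)
        · exact ⟨⟨h1, h2.trans hb⟩, h3⟩
        · exact ⟨⟨by omega, h2⟩, h3⟩
    · rw [Finset.disjoint_left]
      intro p hp hp2
      rw [Finset.mem_filter, Finset.mem_Icc] at hp
      rw [Finset.mem_filter, Finset.mem_Ioc] at hp2
      omega
  rw [Real.log_div hlb.ne' hla.ne'] at h2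
  rw [h3, abs_sub_comm]
  refine le_trans (le_of_eq ?_) h2
  congr 1
  ring

end Pool.Agent.H485.LD
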