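import Mathlib

/-!
# Project LD (helper485): exact rate of decay of `p_A(N)` for MP_cc4f83_nt

Everything here is over Mathlib only.  `Fam N B w lam`: an abstract finite family (think: the newforms of weight 2 and
prime level `N` with harmonic weights `w` of total mass about 1 and normalised Hecke eigenvalues `lam i n`).
`Few B w δ P`: the property `P` holds outside a subset of weight at most `δ`.
-/

set_option autoImplicit false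

namespace Pool.Agent.H485.LD

open Real Finset Filter

/-- `log log N` -/
noncomputable def l2 (N : ℕ) : ℝ := log (log N)

/-- the properties of the family which are used -/
structure Fam (N : ℕ) {ι : Type} (B : Finset ι) (w : ι → ℝ) (lam : ι → ℕ → ℝ) : Prop where
  w0 : ∀ i ∈ B, 0 ≤ w i
  one : ∀ i ∈ B, lam i 1 = 1
  mul : ∀ i ∈ B, ∀ m n : ℕ, Nat.Coprime m n → lam i (m * n) = lam i m * lam i n
  /-- Hecke: `λ(n)² = ∑_{e ∣ n} λ(e²)` for `n` prime to the level `N` (a prime) -/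
  sq : ∀ i ∈ B, ∀ n : ℕ, ¬ N ∣ n → lam i n ^ 2 = ∑ e ∈ n.divisors, lam i (e ^ 2)
  /-- large sieve inequality -/
  ls : ∀ X : ℝ, 1 ≤ X → ∀ s : Finset ℕ, (∀ n ∈ s, 1 ≤ n ∧ (n : ℝ) ≤ X) → ∀ a : ℕ → ℝ,
    ∑ i ∈ B, w i * (∑ n ∈ s, a n * lam i n) ^ 2 ≤ 300000 * (1 + 3 * X / N) * ∑ n ∈ s, a n ^ 2
  /-- high moments of a single eigenvalue of small index -/
  mom : ∀ k n : ℕ, 1 ≤ n → (n : ℝ) ^ (2 * k) ≤ (N : ℝ) ^ (1 / 4 : ℝ) →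
    ∑ i ∈ B, w i * lam i n ^ (2 * k) ≤ 2 * (n.divisors.card : ℝ) ^ (2 * k)

/-- `P` holds outside a subset of weight at most `δ` -/
def Few {ι : Type} (B : Finset ι) (w : ι → ℝ) (δ : ℝ) (P : ι → Prop) : Prop :=
  ∃ E : Finset ι, E ⊆ B ∧ ∑ i ∈ E, w i ≤ δ ∧ ∀ i ∈ B, i ∉ E → P i

lemma Few.mono {ι : Type} {B : Finset ι} {w : ι → ℝ} {δ δ' : ℝ} {P Q : ι → Prop} (h : Few B w δ P) (hδ : δ ≤ δ')
    (hPQ : ∀ i ∈ B, P i → Q i) : Few B w δ' Q := by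
  obtain ⟨E, h1, h2, h3⟩ := h
  exact ⟨E, h1, h2.trans hδ, fun i hi hiE => hPQ i hi (h3 i hi hiE)⟩

lemma Few.and {ι : Type} {B : Finset ι} {w : ι → ℝ} (hw : ∀ i ∈ B, 0 ≤ w i) {δ δ' : ℝ} {P Q : ι → Prop}
    (h : Few B w δ P) (h' : Few B w δ' Q) : Few B w (δ + δ') (fun i => P i ∧ Q i) := by
  classical
  obtain ⟨E, h1, h2, h3⟩ := h
  obtain ⟨F, k1, k2, k3⟩ := h'
  refine ⟨E ∪ F, union_subset h1 k1, ?_, fun i hi hiE => ?_⟩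
  · have e1 : ∑ i ∈ E ∪ F, w i + ∑ i ∈ E ∩ F, w i = ∑ i ∈ E, w i + ∑ i ∈ F, w i := sum_union_inter
    have e2 : 0 ≤ ∑ i ∈ E ∩ F, w i := sum_nonneg fun i hi => hw i (h1 (mem_inter.1 hi).1)
    linarith
  · rw [mem_union, not_or] at hiE
    exact ⟨h3 i hi hiE.1, k3 i hi hiE.2⟩

/-- finite unions of exceptional sets -/
lemma Few.ball {ι κ : Type} {B : Finset ι} {w : ι → ℝ} (hw : ∀ i ∈ B, 0 ≤ w i) (K : Finset κ) (δ : κ → ℝ)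
    (P : κ → ι → Prop) (h : ∀ k ∈ K, Few B w (δ k) (P k)) :
    Few B w (∑ k ∈ K, δ k) (fun i => ∀ k ∈ K, P k i) := by
  classical
  induction K using Finset.induction_on with
  | empty => exact ⟨∅, empty_subset _, by simp, fun i _ _ k hk => absurd hk (notMem_empty k)⟩
  | insert k K hk ih =>
    rw [sum_insert hk]
    refine ((h k (mem_insert_self _ _)).and hw (ih fun j hj => h j (mem_insert_of_mem hj))).mono le_rfl ?_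
    rintro i _ ⟨h1, h2⟩ j hj
    rcases mem_insert.1 hj with rfl | hj
    · exact h1
    · exact h2 j hj

/-- Chebyshev's inequality -/
lemma few_of_sq {ι : Type} {B : Finset ι} {w F : ι → ℝ} (hw : ∀ i ∈ B, 0 ≤ w i) {V T : ℝ} (hT : 0 < T)
    (h : ∑ i ∈ B, w i * F i ^ 2 ≤ V) : Few B w (V / T ^ 2) (fun i => |F i| ≤ T) := by
  classical
  refine ⟨B.filter fun i => T < |F i|, filter_subset _ _, ?_, fun i hi hiE => ?_⟩
  · rw [le_div_iff₀ (by positivity), sum_mul]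
    refine le_trans (le_trans (sum_le_sum fun i hi => ?_) (sum_le_sum_of_subset_of_nonneg (filter_subset _ _)
      fun i hi _ => mul_nonneg (hw i hi) (sq_nonneg (F i)))) h
    rw [mem_filter] at hi
    refine mul_le_mul_of_nonneg_left ?_ (hw i hi.1)
    rw [← sq_abs (F i)]
    exact pow_le_pow_left₀ hT.le hi.2.le 2
  · by_contra hcon
    exact hiE (mem_filter.2 ⟨hi, not_le.1 hcon⟩)

/-- Markov's inequality -/
lemma few_of_mean {ι : Type} {B : Finset ι} {w F : ι → ℝ} (hw : ∀ i ∈ B, 0 ≤ w i) (hF : ∀ i ∈ B, 0 ≤ F i) {V T : ℝ}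
    (hT : 0 < T) (h : ∑ i ∈ B, w i * F i ≤ V) : Few B w (V / T) (fun i => F i ≤ T) := by
  classical
  refine ⟨B.filter fun i => T < F i, filter_subset _ _, ?_, fun i hi hiE => ?_⟩
  · rw [le_div_iff₀ hT, sum_mul]
    refine le_trans (le_trans (sum_le_sum fun i hi => ?_) (sum_le_sum_of_subset_of_nonneg (filter_subset _ _)
      fun i hi _ => mul_nonneg (hw i hi) (hF i hi))) h
    rw [mem_filter] at hi
    exact mul_le_mul_of_nonneg_left hi.2.le (hw i hi.1)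
  · by_contra hcon
    exact hiE (mem_filter.2 ⟨hi, not_le.1 hcon⟩)

variable {N : ℕ} {ι : Type} {B : Finset ι} {w : ι → ℝ} {lam : ι → ℕ → ℝ}

/-- the large sieve inequality at the squares -/
lemma Fam.ls_sq (h : Fam N B w lam) {M : ℝ} (hM : 1 ≤ M) (s : Finset ℕ) (hs : ∀ e ∈ s, 1 ≤ e ∧ (e : ℝ) ≤ M)
    (c : ℕ → ℝ) :
    ∑ i ∈ B, w i * (∑ e ∈ s, c e * lam i (e ^ 2)) ^ 2 ≤ 300000 * (1 + 3 * M ^ 2 / N) * ∑ e ∈ s, c e ^ 2 := by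
  classical
  have hinj : Set.InjOn (fun e : ℕ => e ^ 2) s := fun a _ b _ hab => Nat.pow_left_injective two_ne_zero hab
  have h1 := h.ls (M ^ 2) (one_le_pow₀ hM) (s.image fun e => e ^ 2) (by
    intro n hn
    obtain ⟨e, he, rfl⟩ := mem_image.1 hn
    have h2 := hs e he
    refine ⟨Nat.one_le_pow _ _ h2.1, ?_⟩
    push_cast
    exact pow_le_pow_left₀ (Nat.cast_nonneg e) h2.2 2) (fun n => c n.sqrt)
  have e1 : ∀ e : ℕ, Nat.sqrt (e ^ 2) = e := fun e => Nat.sqrt_eq' e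
  rw [sum_image fun a ha b hb hab => hinj ha hb hab] at h1
  simp only [e1] at h1
  refine le_trans (le_of_eq ?_) h1
  refine sum_congr rfl fun i _ => ?_
  rw [sum_image fun a ha b hb hab => hinj ha hb hab]
  simp only [e1]

/-- the second moment of one eigenvalue -/
lemma Fam.ls_one (h : Fam N B w lam) {n : ℕ} (hn : 1 ≤ n) :
    ∑ i ∈ B, w i * lam i n ^ 2 ≤ 300000 * (1 + 3 * n / N) := by
  have h1 := h.ls n (by exact_mod_cast hn) {n} (by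
    intro m hm
    rw [mem_singleton] at hm
    subst hm
    exact ⟨hn, le_rfl⟩) (fun _ => 1)
  simpa using h1

/-! ## numbers and functions -/

/-- `N` times the least integer `≥ 10 log log N` -/
noncomputable def xN (N : ℕ) : ℕ := N * ⌈10 * l2 N⌉₊

/-- the integer part of `(log N)^5` -/
noncomputable def YN (N : ℕ) : ℕ := ⌊log N ^ 5⌋₊

/-- `λ(n)²` for `n` prime to `N`, otherwise `0` -/
noncomputable def gN (N : ℕ) (lam : ℕ → ℝ) (n : ℕ) : ℝ := if N ∣ n then 0 else lam n ^ 2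

/-- `∑ a log p g(p^a)` over the prime powers `p^a ≤ z`, `a ≥ 1` -/
noncomputable def Psi (g : ℕ → ℝ) (z : ℕ) : ℝ :=
  ∑ p ∈ (Icc 1 z).filter Nat.Prime, ∑ a ∈ (Icc 1 z).filter (fun a => p ^ a ≤ z), (a : ℝ) * log p * g (p ^ a)

/-- `∑ 1/m` over the multiples `m ≤ x` of `e` which are prime to `N` -/
noncomputable def Hh (N x e : ℕ) : ℝ := ∑ m ∈ (Icc 1 x).filter (fun m => e ∣ m ∧ ¬ N ∣ m), (1 : ℝ) / m

/-- Mertens' first theorem (available in the library; a hypothesis here) -/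
def Mert1 : Prop := ∃ C : ℝ, 0 ≤ C ∧ ∀ n : ℕ, 1 ≤ n →
  |∑ p ∈ (Icc 1 n).filter Nat.Prime, log p / p - log n| ≤ C

/-- Mertens' second theorem (available in the library; a hypothesis here) -/
def Mert2 : Prop := ∃ M C : ℝ, 0 ≤ C ∧ ∀ n : ℕ, 2 ≤ n →
  |∑ p ∈ (Icc 1 n).filter Nat.Prime, 1 / (p : ℝ) - log (log n) - M| ≤ C / log n

/-! ## Part NL: the weights are rarely large -/

/-- **NLA.**  Outside a set of weight `O((log N)^(-1/2))`: `∑_{m ≤ N^(1/10)} λ(m)²/m ≥ c log N/(log log N)²`.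
Proof. `y = 2^j`, the largest power of 2 with `2^j ≤ √(log N)`, `Q = y!` (so `Q ≤ N^(1/20)` for large `N`),
`X = ⌊N^(1/10)⌋`, `Ro = {m ≤ X : (m,Q) = 1}`.  By positivity keep only `m ∈ Ro`; by `sq`,
`∑_{m ∈ Ro} λ(m)²/m = ∑_{e ∈ Ro} λ(e²) H_e`, `H_e = ∑_{m ∈ Ro, e ∣ m} 1/m ≤ H_1/e`.  All `e ≠ 1` in `Ro` are `> y`.
`ls_sq` (`M = X`, `M² ≤ N`): the mean of the square of the part `e ≠ 1` is `≤ 300000·4·H_1² ∑_{e>y} 1/e² ≤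
2400000·H_1²/y`; by `few_of_sq` it is `≤ H_1/2` outside weight `O(1/y)`.  `H_1 ≥ (φ(Q)/Q) log(X/Q) ` because every
block of `Q` consecutive integers contains `φ(Q)` integers prime to `Q`, and `φ(Q)/Q = ∏_{p ≤ y}(1-1/p) ≥ c/log y`
by `Mert2`. -/
def S_NLA : Prop := Mert2 → ∃ c C : ℝ, 0 < c ∧ 0 < C ∧ ∃ N0 : ℕ, ∀ N : ℕ, N0 ≤ N → N.Prime →
  ∀ (ι : Type) (B : Finset ι) (w : ι → ℝ) (lam : ι → ℕ → ℝ), Fam N B w lam →
    Few B w (C * exp (-(1 / 2) * l2 N)) fun i =>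
      c * log N / l2 N ^ 2 ≤ ∑ m ∈ Icc 1 ⌊(N : ℝ) ^ (1 / 10 : ℝ)⌋₊, lam i m ^ 2 / m

/-- **NLB.**  Outside a set of weight `1/log N`: `∑_{N^0.40 < p ≤ N^0.43} λ(p)²/p ≥ 1/50`.
Proof. `λ(p)² = 1 + λ(p²)`; `∑ 1/p → log(43/40) = 0.0723..` by `Mert2`; the mean square of `∑ λ(p²)/p` is by `ls_sq`
(`M = N^0.43`) at most `1200000 ∑_{n > N^0.40} 1/n² ≤ N^(-0.39)`; `few_of_sq` with `T = 1/50`. -/
def S_NLB : Prop := Mert2 → ∃ N0 : ℕ, ∀ N : ℕ, N0 ≤ N → N.Prime →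
  ∀ (ι : Type) (B : Finset ι) (w : ι → ℝ) (lam : ι → ℕ → ℝ), Fam N B w lam →
    Few B w (exp (-l2 N)) fun i =>
      1 / 50 ≤ ∑ p ∈ (Icc 1 N).filter (fun p : ℕ => p.Prime ∧ (N : ℝ) ^ (0.40 : ℝ) < p ∧ (p : ℝ) ≤ (N : ℝ) ^ (0.43 : ℝ)),
        lam i p ^ 2 / p

/-- **NLC.**  Outside a set of weight `1/log N`: for all `N^0.46 ≤ Z ≤ N^0.61` the sum of `λ(p)²` over the primes
`Z/C1 < p ≤ Z` is at least `c Z/log N`.
Proof. `Mert1` gives a constant `D` with `∑_{x < p ≤ D x} log p/p ≥ 1` for all `x ≥ 1`, hence at least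
`x/log(Dx)` primes in `(x, Dx]`.  Take the intervals `I_k = (D^k, D^(k+1)]`, `C1 = D²`: `(Z/C1, Z]` contains some `I_k`.
`λ(p)² = 1 + λ(p²)` and by `ls_sq` the mean square of `∑_{p ∈ I_k} λ(p²)` is `≤ 300000 (1 + 3 D² D^(2k)/N) #I_k`, so
`few_of_sq` (`T = #I_k/2`): weight `≤ 1200000 (1 + 3 D² N^0.23)/#I_k ≤ N^(-0.2)`; `O(log N)` values of `k` (`Few.ball`). -/
def S_NLC : Prop := Mert1 → ∃ c C1 : ℝ, 0 < c ∧ 1 < C1 ∧ ∃ N0 : ℕ, ∀ N : ℕ, N0 ≤ N → N.Prime →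
  ∀ (ι : Type) (B : Finset ι) (w : ι → ℝ) (lam : ι → ℕ → ℝ), Fam N B w lam →
    Few B w (exp (-l2 N)) fun i => ∀ Z : ℝ, (N : ℝ) ^ (0.46 : ℝ) ≤ Z → Z ≤ (N : ℝ) ^ (0.61 : ℝ) →
      c * Z / log N ≤ ∑ p ∈ (Icc 1 N).filter (fun p : ℕ => p.Prime ∧ Z / C1 < p ∧ (p : ℝ) ≤ Z), lam i p ^ 2

/-- the conclusion of part NL: the weights are at most `C (log log N)²/N` outside a set of weight `O((log N)^(-1/2))` -/
def S_NL : Prop := ∃ C : ℝ, 0 < C ∧ ∃ N0 : ℕ, ∀ N : ℕ, N0 ≤ N → N.Prime →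
  ∀ (ι : Type) (B : Finset ι) (w : ι → ℝ) (lam : ι → ℕ → ℝ), Fam N B w lam →
    Few B w (C * exp (-(1 / 2) * l2 N)) fun i => w i ≤ C * l2 N ^ 2 / N

/-- **NLD.**  Proof. For one `i` and a set `s` of integers in `[1,N]`, `ls` with `a n = lam i n` (drop all other members
of the family) gives `w_i S² ≤ 1200000 S`, `S = ∑_{n ∈ s} λ(n)²`, so `w_i S ≤ 1200000`.  Take for `s` the integers
`m p₁ p₂`, `1 ≤ m ≤ N^(1/10)`, `p₁` as in NLB, `p₂` prime in `(Z/C1, Z]`, `Z = N/(m p₁) ∈ [N^0.47, N^0.60]`.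
For large `N`: `m < p₁ < p₂`, so the representation is unique (`p₂` is the largest prime factor of `n`, ...), `n ≤ N`, and
`λ(m p₁ p₂) = λ(m) λ(p₁) λ(p₂)`.  Hence by NLC, NLB, NLA (outside the three exceptional sets)
`S ≥ ∑_m λ(m)² ∑_{p₁} λ(p₁)² c Z/log N = (c N/log N) (∑ λ(m)²/m) (∑ λ(p₁)²/p₁) ≥ c' N/(log log N)²`. -/
def S_NLD : Prop := Mert1 → Mert2 → S_NLA → S_NLB → S_NLC → S_NL

/-! ## Part NU: the weights are rarely small -/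

/-- **LOG.**  Proof. `log x ≤ log n + x/n` for `n ≤ x`; and `log n = ∑_{p^a ∥ n} a log p`, `g n = g(p^a) g(m)` with
`n = p^a m`, `p ∤ m`; drop `p ∤ m` and exchange the sums: for given `m` the prime powers `p^a ≤ x/m` remain. -/
def S_LOG : Prop := ∀ g : ℕ → ℝ, (∀ n, 0 ≤ g n) → g 1 = 1 →
  (∀ m n : ℕ, Nat.Coprime m n → g (m * n) = g m * g n) → ∀ x : ℕ, 1 ≤ x →
  log x * ∑ n ∈ Icc 1 x, g n ≤ ∑ m ∈ Icc 1 x, g m * Psi g (x / m) + x * ∑ m ∈ Icc 1 x, g m / m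

/-- the primes in dyadic intervals are regular -/
def PrOK (ε : ℝ) (N : ℕ) (lam : ℕ → ℝ) : Prop := ∀ k : ℕ, log N ^ 3 ≤ 4 * 2 ^ k →
  (((2 ^ k : ℕ) : ℝ) ≤ N / log N ^ 3 →
    ∑ p ∈ (Ioc (2 ^ k : ℕ) (2 ^ (k + 1) : ℕ)).filter Nat.Prime, log p * gN N lam p ≤ 8 * 2 ^ k) ∧
  (((2 ^ k : ℕ) : ℝ) ≤ N * l2 N ^ 2 →
    ∑ p ∈ (Ioc (2 ^ k : ℕ) (2 ^ (k + 1) : ℕ)).filter Nat.Prime, log p * gN N lam p ≤ exp ((1 - ε / 3) * l2 N) * 2 ^ k)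

/-- **PR.**  Proof. `Z = 2^k`.  For a prime `p ≠ N`: `λ(p)² = 1 + λ(p²)`.  `∑_{p ≤ 2Z} log p ≤ 2Z log 4`
(`Chebyshev.theta_le_log4_mul_x` or `primorial_le_4_pow`), `∑ log² p ≤ 2.8 Z log(2Z)`.  `ls_sq` (`M = 2Z`): the mean square
of `∑ λ(p²) log p` is `≤ 300000 (1 + 12 Z²/N) 2.8 Z log(2Z)`.  First part: `few_of_sq` with `T = 5Z`: weight
`O((1/Z + Z/N) log(2Z))`, summed over the `k` with `(log N)³/4 ≤ 2^k ≤ N/(log N)³`: `O((log N)^(-2) loglog N)`.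
Second part: with `T = (exp((1-ε/3) l2) - 2.8) Z ≥ exp((1-ε/3) l2) Z/2`: weight
`O((1/Z + Z/N) log(2Z)) exp(-(2 - 2ε/3) l2)`, the sum over `k` is `O((l2)^2 log N) (log N)^(-2+2ε/3)`. -/
def S_PR : Prop := ∀ ε : ℝ, 0 < ε → ε < 1 → ∃ N0 : ℕ, ∀ N : ℕ, N0 ≤ N → N.Prime →
  ∀ (ι : Type) (B : Finset ι) (w : ι → ℝ) (lam : ι → ℕ → ℝ), Fam N B w lam →
    Few B w (exp (-(1 - ε) * l2 N)) fun i => PrOK ε N (lam i)

/-- the higher prime powers in dyadic intervals are regular -/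
def PpOK (N : ℕ) (lam : ℕ → ℝ) : Prop := ∀ k : ℕ, log N ^ 3 ≤ 4 * 2 ^ k → ((2 ^ k : ℕ) : ℝ) ≤ N * l2 N ^ 2 →
  ∑ p ∈ (Icc 1 (2 ^ (k + 1) : ℕ)).filter Nat.Prime,
    ∑ a ∈ (Icc 2 (2 ^ (k + 1) : ℕ)).filter (fun a : ℕ => 2 ^ k < p ^ a ∧ p ^ a ≤ 2 ^ (k + 1)),
      (a : ℝ) * log p * gN N lam (p ^ a) ≤ 2 ^ k

/-- **PP.**  Proof. `Z = 2^k`.  `ls_one`: the mean of `λ(n)²` is `≤ 300000 (1 + 3n/N) = O((l2)²)` for `n ≤ 2 N (l2)²`.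
`a log p = log p^a ≤ log(2Z)`, and there are at most `√(2Z) + (2Z)^(1/3) log₂(2Z) = O(√Z)` prime powers `p^a ≤ 2Z`, `a ≥ 2`
(even the cruder `√(2Z) log₂(2Z)` is enough).  `few_of_mean` with `T = Z`: weight `O((l2)² log²(2Z) Z^(-1/2))`; the sum over
`2^k ≥ (log N)³/4` is `O((l2)^4 (log N)^(-3/2)) ≤ 1/log N`. -/
def S_PP : Prop := ∃ N0 : ℕ, ∀ N : ℕ, N0 ≤ N → N.Prime →
  ∀ (ι : Type) (B : Finset ι) (w : ι → ℝ) (lam : ι → ℕ → ℝ), Fam N B w lam →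
    Few B w (exp (-l2 N)) fun i => PpOK N (lam i)

/-- the small indices are regular -/
def SmOK (N : ℕ) (lam : ℕ → ℝ) : Prop := ∀ n : ℕ, 1 ≤ n → (n : ℝ) ≤ 4 * log N ^ 3 →
  |lam n| ≤ 2 * n.divisors.card

/-- **SM.**  Proof. `mom` with `k = ⌊log N/(40 l2 N)⌋` (for large `N`, `(4 log³ N)^(2k) ≤ N^(1/4)`): the weight of
`|λ(n)| > 2 τ(n)` is at most `2 · 4^(-k)`; at most `4 log³ N` values of `n` (`Few.ball`), and
`8 (log N)³ 4^(-k) ≤ (log N)^(-2)`. -/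
def S_SM : Prop := ∃ N0 : ℕ, ∀ N : ℕ, N0 ≤ N → N.Prime →
  ∀ (ι : Type) (B : Finset ι) (w : ι → ℝ) (lam : ι → ℕ → ℝ), Fam N B w lam →
    Few B w (exp (-2 * l2 N)) fun i => SmOK N (lam i)

/-- **PSI** (no family, one sequence).  Proof. Let `k0` be the least `k` with `(log N)³ ≤ 4·2^k` (so
`2^k0 ≤ (log N)³/2` for large `N`).  The prime powers `p^a ≤ min(z, 2^k0)` contribute by `SmOK` at most
`∑ a (a+1)² 4 log p ≤ C z` (`∑_{p ≤ t} log p ≤ t log 4`; for `a ≥ 2` the sum over `p ≤ z^(1/a)`, `a ≤ log₂ z`, is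
`O(√z log⁴ z)`).  The others lie in the intervals `(2^k, 2^(k+1)]`, `k ≥ k0`, `2^k < z`, for which `PrOK` and `PpOK` give
`≤ 9·2^k` (if `z ≤ N/(log N)³`), or `≤ (exp((1-ε/3) l2) + 1) 2^k`; geometric series. -/
def S_PSI : Prop := ∃ C : ℝ, 0 < C ∧ ∀ ε : ℝ, 0 < ε → ε < 1 → ∃ N0 : ℕ, ∀ N : ℕ, N0 ≤ N → N.Prime →
  ∀ lam : ℕ → ℝ, PrOK ε N lam → PpOK N lam → SmOK N lam → ∀ z : ℕ, 1 ≤ z →
    ((z : ℝ) ≤ N / log N ^ 3 → Psi (gN N lam) z ≤ C * z) ∧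
    ((z : ℝ) ≤ N * l2 N ^ 2 → Psi (gN N lam) z ≤ C * exp ((1 - ε / 3) * l2 N) * z)

/-- **AE.**  Proof. Fix an integer `k ≥ 3/ε`.  By Hölder (`inner_le_nnorm_mul_nnorm` or
`Real.inner_le_Lp_mul_Lq`, or the power mean inequality `Real.pow_arith_mean_le_arith_mean_pow` with weights
`(1/e)/∑ 1/e`): `(∑ |λ(e²)|/e)^(2k) ≤ (∑ 1/e)^(2k-1) ∑ λ(e²)^(2k)/e`.  `mom` (index `e²`; `(e²)^(2k) ≤ (log N)^(20k) ≤
N^(1/4)` for large `N`) gives the mean `≤ 2 τ(e²)^(2k)`, and `τ(e²)^(2k) ≤ C_k e^(1/10)` (`τ(n) ≤ C_η n^η`).  So the mean of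
the left side is `O((l2)^(2k) (log N)^(1/2) l2)`, and by Markov (`few_of_mean` with `T = exp(2kε l2)`, `2kε ≥ 6`) the weight
of the exceptional set is `≤ (log N)^(-2)`. -/
def S_AE : Prop := ∀ ε : ℝ, 0 < ε → ∃ N0 : ℕ, ∀ N : ℕ, N0 ≤ N → N.Prime →
  ∀ (ι : Type) (B : Finset ι) (w : ι → ℝ) (lam : ι → ℕ → ℝ), Fam N B w lam →
    Few B w (exp (-2 * l2 N)) fun i => ∑ e ∈ Icc 1 (YN N), |lam i (e ^ 2)| / e ≤ exp (ε * l2 N)

/-- **RE.**  Proof. `0 ≤ Hh N x e ≤ (1 + log(x/e))/e` for `e ≤ x`.  `x = xN N`, `Y = YN N`.  Decompose `(Y, x]` dyadically: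
`R = ∑_k R_k`, `R_k` the part `E < e ≤ 2E`, `E = 2^k ≥ Y/2`; `ls_sq`: the mean of `R_k²` is at most
`300000 (1 + 12 E²/N) (1 + log(x/E))²/E`.  Cauchy-Schwarz `(∑ R_k)² ≤ (∑ v_k) (∑ R_k²/v_k)` with
`v_k = (1 + log(x/E)) (E^(-1/2) + (E/N)^(1/2))`: mean of `R²` is `≤ C (∑ v_k)² = O(l2)` because
`∑_{E ≥ Y/2} (1 + log x) E^(-1/2) = O(log N · (log N)^(-5/2))` and `∑_{E ≤ x} (1 + log(x/E)) (E/N)^(1/2) = O(√(x/N))`.
`few_of_sq` with `T = log N`: weight `O(l2/(log N)²)`. -/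
def S_RE : Prop := ∃ N0 : ℕ, ∀ N : ℕ, N0 ≤ N → N.Prime →
  ∀ (ι : Type) (B : Finset ι) (w : ι → ℝ) (lam : ι → ℕ → ℝ), Fam N B w lam →
    Few B w (exp (-(3 / 2) * l2 N)) fun i =>
      |∑ e ∈ (Ioc (YN N) (xN N)).filter (fun e => ¬ N ∣ e), Hh N (xN N) e * lam i (e ^ 2)| ≤ log N

/-- **GE** (no family, one sequence).  Proof. By the hypothesis `hsq`,
`∑_{m ≤ x} g(m)/m = ∑_{e ≤ x, N ∤ e} λ(e²) Hh N x e`.  For `e ≤ Y`: `Hh N x e ≤ (1 + log x)/e ≤ 2 log N/e` (large `N`), so the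
part `e ≤ Y` is at most `2 log N exp((ε/2) l2)`, the rest is at most `log N`.  In the same way
`∑_{m ≤ Y} g(m)/m ≤ (1 + log Y) ∑_{e ≤ Y} |λ(e²)|/e`. -/
def S_GE : Prop := ∀ ε : ℝ, 0 < ε → ∃ N0 : ℕ, ∀ N : ℕ, N0 ≤ N → N.Prime → ∀ lam : ℕ → ℝ,
  (∀ n : ℕ, ¬ N ∣ n → lam n ^ 2 = ∑ e ∈ n.divisors, lam (e ^ 2)) →
  ∑ e ∈ Icc 1 (YN N), |lam (e ^ 2)| / e ≤ exp (ε / 2 * l2 N) →
  |∑ e ∈ (Ioc (YN N) (xN N)).filter (fun e => ¬ N ∣ e), Hh N (xN N) e * lam (e ^ 2)| ≤ log N →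
  ∑ m ∈ Icc 1 (xN N), gN N lam m / m ≤ exp ((1 + ε) * l2 N) ∧
  ∑ m ∈ Icc 1 (YN N), gN N lam m / m ≤ exp (ε * l2 N)

/-- **TL.**  Proof. `ls_one`: the mean of `λ(n)²` is `≤ 300000 (1 + 3n/N)`; `∑_{n > x} (1 + 3n/N) exp(-(π/N) n)` is
`O(N l2 exp(-10 π l2))` (`x = xN N ≥ 10 N l2`); `few_of_mean` with `T = N`. -/
def S_TL : Prop := ∃ N0 : ℕ, ∀ N : ℕ, N0 ≤ N → N.Prime →
  ∀ (ι : Type) (B : Finset ι) (w : ι → ℝ) (lam : ι → ℕ → ℝ), Fam N B w lam →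
    Few B w (exp (-2 * l2 N)) fun i =>
      ∑ n ∈ Ioc (xN N) (N ^ 2), lam i n ^ 2 * exp (-(π / N * n)) ≤ N

/-- the conclusion of part NU -/
def S_NU : Prop := ∀ ε : ℝ, 0 < ε → ε < 1 → ∃ N0 : ℕ, ∀ N : ℕ, N0 ≤ N → N.Prime →
  ∀ (ι : Type) (B : Finset ι) (w : ι → ℝ) (lam : ι → ℕ → ℝ), Fam N B w lam →
    Few B w (exp (-(1 - ε) * l2 N)) fun i => ∑ n ∈ Icc 1 (xN N), gN N (lam i) n ≤ N * exp (ε * l2 N)

/-- **NUI.**  Proof. Use PR with `ε/2`, PP, SM, AE (with `ε1/2`), RE, GE with `ε1 = ε/12`; the exceptional weights add up to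
at most `exp(-(1-ε) l2)`.  For a good `i`, `g = gN N (lam i)` is multiplicative (`N` prime), `x = xN N`:
`log x ∑_{n ≤ x} g ≤ ∑_{m ≤ x} g(m) Psi g (x/m) + x ∑ g(m)/m` (LOG).  If `x/m ≤ N/(log N)³`: `Psi ≤ C x/m`; otherwise
`m ≤ (x/N)(log N)³ + 1 ≤ YN N` and `Psi ≤ C exp((1-ε/6) l2) x/m` (`x ≤ N (l2)²`).  So the right side is at most
`C' x (exp((1+ε1) l2) + exp((1-ε/6) l2) exp(ε1 l2))`, and `x ≤ N (10 l2 + 1)`, `log x ≥ log N = exp(l2)`. -/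
def S_NUI : Prop := S_LOG → S_PR → S_PP → S_SM → S_PSI → S_AE → S_RE → S_GE → S_NU

end Pool.Agent.H485.LD
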